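import Pool.Agent.Helper43.VA.G2

/-!
# Basic facts on the vacuum module
-/

set_option autoImplicit false

noncomputable section

namespace CritCentre

attribute [local instance 100] LieRing.ofAssociativeRing

variable {R g : Type*} [CommRing R] [LieRing g] [LieAlgebra R g]

theorem vac_surj (B : InvForm R g) (κ : R) (v : Vac B κ) : ∃ u : UAff B, v = u • vac B κ := by
  obtain ⟨u, rfl⟩ := Submodule.Quotient.mk_surjective _ v
  refine ⟨u, ?_⟩
  rw [vac, ← Submodule.Quotient.mk_smul, smul_eq_mul, mul_one]

theorem smul_vac (B : InvForm R g) (κ : R) (u : UAff B) :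
    u • vac B κ = Submodule.Quotient.mk u := by
  rw [vac, ← Submodule.Quotient.mk_smul, smul_eq_mul, mul_one]

theorem smul_vac_eq_zero (B : InvForm R g) (κ : R) (u : UAff B) :
    u • vac B κ = 0 ↔ u ∈ vacIdeal B κ := by
  rw [smul_vac, Submodule.Quotient.mk_eq_zero]

theorem smul_vac_eq (B : InvForm R g) (κ : R) (u u' : UAff B) :
    u • vac B κ = u' • vac B κ ↔ u - u' ∈ vacIdeal B κ := by
  rw [← sub_eq_zero, ← sub_smul, smul_vac_eq_zero]

/-- `x_n |0⟩ = 0` for `n ≥ 0`. -/
theorem xmode_vac (B : InvForm R g) (κ : R) (x : g) (n : ℕ) : xmode B x n • vac B κ = 0 := by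
  rw [smul_vac_eq_zero]
  exact Submodule.subset_span (Or.inl ⟨x, n, rfl⟩)

theorem xmode_vac' (B : InvForm R g) (κ : R) (x : g) (n : ℤ) (hn : 0 ≤ n) :
    xmode B x n • vac B κ = 0 := by
  obtain ⟨m, rfl⟩ := Int.eq_ofNat_of_zero_le hn
  exact xmode_vac B κ x m

theorem iota_cc_vac (B : InvForm R g) (κ : R) : iota B (cc B) • vac B κ = κ • vac B κ := by
  have h : iota B (cc B) - algebraMap R (UAff B) κ ∈ vacIdeal B κ :=
    Submodule.subset_span (Or.inr rfl)
  rw [← smul_vac_eq] at h
  rw [h, algebraMap_smul]

/-- elements of the affine Lie algebra in the enveloping algebra -/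
theorem iota_mul (B : InvForm R g) (a b : Aff B) :
    iota B a * iota B b = iota B b * iota B a + iota B ⁅a, b⁆ := by
  have h : iota B ⁅a, b⁆ = ⁅iota B a, iota B b⁆ := LieHom.map_lie _ _ _
  rw [h, LieRing.of_associative_ring_bracket]
  abel

/-- induction principle for the enveloping algebra: left multiplication -/
theorem UAff.induction {B : InvForm R g} {P : UAff B → Prop} (h1 : P 1)
    (hadd : ∀ u v, P u → P v → P (u + v)) (hsmul : ∀ (r : R) u, P u → P (r • u))
    (hmul : ∀ (a : Aff B) u, P u → P (iota B a * u)) (u : UAff B) : P u := by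
  let S : Submodule R (UAff B) :=
    { carrier := {u | P u}
      add_mem' := fun {a b} ha hb => hadd a b ha hb
      zero_mem' := by
        have := hsmul 0 1 h1
        rwa [zero_smul] at this
      smul_mem' := fun r x hx => hsmul r x hx }
  -- the elements `w` with `w * S ⊆ S` form a subalgebra
  let T : Subalgebra R (UAff B) :=
    { carrier := {w | ∀ u ∈ S, w * u ∈ S}
      mul_mem' := fun {a b} ha hb u hu => by rw [mul_assoc]; exact ha _ (hb _ hu)
      add_mem' := fun {a b} ha hb u hu => by rw [add_mul]; exact S.add_mem (ha _ hu) (hb _ hu)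
      algebraMap_mem' := fun r u hu => by rw [← Algebra.smul_def]; exact S.smul_mem r hu }
  let f : Aff B →ₗ⁅R⁆ T :=
    { toFun := fun a => ⟨iota B a, fun u hu => hmul a u hu⟩
      map_add' := fun a b => by ext; simp
      map_smul' := fun r a => by ext; simp
      map_lie' := fun {a b} => by
        ext
        simp [LieRing.of_associative_ring_bracket] }
  have hcomp : (T.val.comp (UniversalEnvelopingAlgebra.lift R f)) = AlgHom.id R (UAff B) := by
    apply UniversalEnvelopingAlgebra.hom_ext
    ext a
    show T.val (UniversalEnvelopingAlgebra.lift R f (UniversalEnvelopingAlgebra.ι R a)) = _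
    rw [UniversalEnvelopingAlgebra.lift_ι_apply]
    rfl
  have hT : u ∈ T := by
    have := congrArg (fun F : UAff B →ₐ[R] UAff B => F u) hcomp
    simp only [AlgHom.comp_apply, AlgHom.id_apply] at this
    rw [← this]
    exact Subtype.property _
  have := hT 1 h1
  rwa [mul_one] at this

/-- The central element `c` commutes with everything. -/
theorem iota_cc_comm (B : InvForm R g) (u : UAff B) :
    iota B (cc B) * u = u * iota B (cc B) := by
  induction u using UAff.induction with
  | h1 => rw [mul_one, one_mul]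
  | hadd u v hu hv => rw [mul_add, add_mul, hu, hv]
  | hsmul r u hu => rw [mul_smul_comm, smul_mul_assoc, hu]
  | hmul a u hu =>
    rw [← mul_assoc, iota_mul, cc_lie, map_zero, add_zero, mul_assoc, hu, mul_assoc]

/-- `c` acts by `κ`. -/
theorem iota_cc_smul (B : InvForm R g) (κ : R) (v : Vac B κ) : iota B (cc B) • v = κ • v := by
  obtain ⟨u, rfl⟩ := vac_surj B κ v
  rw [smul_smul, iota_cc_comm, mul_smul, iota_cc_vac, smul_comm]

theorem xmode_mul (B : InvForm R g) (x y : g) (m n : ℤ) :
    xmode B x m * xmode B y n = xmode B y n * xmode B x m + xmode B ⁅x, y⁆ (m + n) +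
      (if m + n = 0 then (m : R) * B.form x y else 0) • iota B (cc B) := by
  rw [xmode, xmode, iota_mul, mode_lie_mode, map_add, map_smul, xmode, add_assoc]

/-- the commutation relations on the vacuum module -/
theorem xmode_comm (B : InvForm R g) (κ : R) (x y : g) (m n : ℤ) (v : Vac B κ) :
    xmode B x m • xmode B y n • v = xmode B y n • xmode B x m • v +
      xmode B ⁅x, y⁆ (m + n) • v +
      (if m + n = 0 then (m : R) * B.form x y * κ else 0) • v := by
  have h : (if m + n = 0 then (m : R) * B.form x y * κ else 0) =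
      (if m + n = 0 then (m : R) * B.form x y else 0) * κ := by split_ifs <;> simp
  rw [smul_smul, xmode_mul, add_smul, add_smul, mul_smul, smul_assoc, iota_cc_smul, smul_smul, smul_smul,
    h]

theorem xmode_add (B : InvForm R g) (x y : g) (n : ℤ) :
    xmode B (x + y) n = xmode B x n + xmode B y n := by
  rw [xmode, mode_add, map_add]; rfl

theorem xmode_smul (B : InvForm R g) (r : R) (x : g) (n : ℤ) :
    xmode B (r • x) n = r • xmode B x n := by
  rw [xmode, mode_smul, map_smul]; rfl

theorem xmode_zero (B : InvForm R g) (n : ℤ) : xmode B (0 : g) n = 0 := by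
  rw [xmode, mode_zero, map_zero]

/-- Every vector of the vacuum module is obtained from the vacuum by the modes `x_{-m-1}`. -/
theorem Vac.induction {B : InvForm R g} {κ : R} {P : Vac B κ → Prop} (h0 : P (vac B κ))
    (hadd : ∀ v w, P v → P w → P (v + w)) (hsmul : ∀ (r : R) v, P v → P (r • v))
    (hmode : ∀ (x : g) (m : ℕ) v, P v → P (xmode B x (-(m + 1)) • v)) (v : Vac B κ) : P v := by
  let S : Submodule R (Vac B κ) := sInf {W | vac B κ ∈ W ∧ ∀ (x : g) (m : ℕ) v, v ∈ W →
    xmode B x (-(m + 1)) • v ∈ W}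
  have hS : ∀ v ∈ S, P v := by
    let W : Submodule R (Vac B κ) :=
      { carrier := {v | P v}
        add_mem' := fun {a b} ha hb => hadd a b ha hb
        zero_mem' := by
          have := hsmul 0 _ h0
          rwa [zero_smul] at this
        smul_mem' := fun r x hx => hsmul r x hx }
    have : S ≤ W := sInf_le ⟨h0, hmode⟩
    exact fun v hv => this hv
  have hS0 : vac B κ ∈ S := by
    rw [Submodule.mem_sInf]; exact fun W hW => hW.1
  have hSm : ∀ (x : g) (m : ℕ) v, v ∈ S → xmode B x (-(m + 1)) • v ∈ S := by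
    intro x m v hv
    rw [Submodule.mem_sInf] at hv ⊢
    exact fun W hW => hW.2 x m v (hv W hW)
  have hSneg : ∀ (x : g) (n : ℤ) v, n < 0 → v ∈ S → xmode B x n • v ∈ S := by
    intro x n v hn hv
    obtain ⟨m, hm⟩ := Int.eq_ofNat_of_zero_le (a := -n - 1) (by omega)
    have : n = -((m : ℤ) + 1) := by omega
    rw [this]
    exact hSm x m v hv
  -- S is stable under the non-negative modes
  have hSp : ∀ v ∈ S, ∀ (x : g) (n : ℤ), 0 ≤ n → xmode B x n • v ∈ S := by
    let W : Submodule R (Vac B κ) :=
      { carrier := {v | v ∈ S ∧ ∀ (x : g) (n : ℤ), 0 ≤ n → xmode B x n • v ∈ S}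
        add_mem' := fun {a b} ha hb => ⟨S.add_mem ha.1 hb.1, fun x n hn => by
          rw [smul_add]; exact S.add_mem (ha.2 x n hn) (hb.2 x n hn)⟩
        zero_mem' := ⟨S.zero_mem, fun x n hn => by rw [smul_zero]; exact S.zero_mem⟩
        smul_mem' := fun r v hv => ⟨S.smul_mem r hv.1, fun x n hn => by
          rw [smul_comm]; exact S.smul_mem r (hv.2 x n hn)⟩ }
    have hSW : S ≤ W := by
      apply sInf_le
      refine ⟨⟨hS0, fun x n hn => by rw [xmode_vac' B κ x n hn]; exact S.zero_mem⟩, ?_⟩
      intro y m v hv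
      refine ⟨hSm y m v hv.1, fun x n hn => ?_⟩
      rw [xmode_comm]
      refine S.add_mem (S.add_mem (hSm y m _ (hv.2 x n hn)) ?_) (S.smul_mem _ hv.1)
      rcases lt_or_ge (n + -((m : ℤ) + 1)) 0 with h | h
      · exact hSneg _ _ _ h hv.1
      · exact hv.2 _ _ h
    exact fun v hv => (hSW hv).2
  have hall : ∀ u : UAff B, ∀ v ∈ S, u • v ∈ S := by
    intro u
    induction u using UAff.induction with
    | h1 => intro v hv; rwa [one_smul]
    | hadd u w hu hw => intro v hv; rw [add_smul]; exact S.add_mem (hu v hv) (hw v hv)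
    | hsmul r u hu => intro v hv; rw [smul_assoc]; exact S.smul_mem r (hu v hv)
    | hmul a u hu =>
      intro v hv
      rw [mul_smul]
      have key : ∀ w ∈ S, iota B a • w ∈ S := by
        intro w hw
        induction a using Aff.induction with
        | hadd a b ha hb => rw [map_add, add_smul]; exact S.add_mem ha hb
        | hm x n =>
          rcases lt_or_ge n 0 with h | h
          · exact hSneg _ _ _ h hw
          · exact hSp w hw _ _ h
        | hc r =>
          rw [map_smul, smul_assoc, iota_cc_smul]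
          exact S.smul_mem _ (S.smul_mem _ hw)
      exact key _ (hu v hv)
  obtain ⟨u, rfl⟩ := vac_surj B κ v
  exact hS _ (hall u _ hS0)

/-- For a central vector `b` there is an endomorphism of the vacuum module with `u|0⟩ ↦ u b`. -/
theorem exists_endo (B : InvForm R g) (κ : R) (b : Vac B κ) (hb : b ∈ centre B κ) :
    ∃ F : Vac B κ →ₗ[UAff B] Vac B κ, ∀ u : UAff B, F (u • vac B κ) = u • b := by
  have hJ : vacIdeal B κ ≤ LinearMap.ker (LinearMap.toSpanSingleton (UAff B) (Vac B κ) b) := by
    show Submodule.span _ _ ≤ _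
    rw [Submodule.span_le]
    rintro u (⟨x, n, rfl⟩ | hu)
    · show xmode B x n • b = 0
      exact hb x n
    · rw [Set.mem_singleton_iff] at hu
      show u • b = 0
      rw [hu, sub_smul, iota_cc_smul, algebraMap_smul, sub_self]
  refine ⟨Submodule.liftQ _ _ hJ, fun u => ?_⟩
  rw [smul_vac, Submodule.liftQ_apply, LinearMap.toSpanSingleton_apply]

theorem centre_congr (B : InvForm R g) (κ : R) (b : Vac B κ) (hb : b ∈ centre B κ) (u u' : UAff B)
    (h : u • vac B κ = u' • vac B κ) : u • b = u' • b := by
  obtain ⟨F, hF⟩ := exists_endo B κ b hb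
  rw [← hF, ← hF, h]

/-- the centre is closed under the product -/
theorem centre_mul (B : InvForm R g) (κ : R) (u : UAff B) (b : Vac B κ)
    (hu : u • vac B κ ∈ centre B κ) (hb : b ∈ centre B κ) : u • b ∈ centre B κ := by
  obtain ⟨F, hF⟩ := exists_endo B κ b hb
  intro x n
  rw [← hF, ← map_smul, hu x n, map_zero]

theorem vac_mem_centre (B : InvForm R g) (κ : R) : vac B κ ∈ centre B κ :=
  fun x n => xmode_vac B κ x n

/-- a linear functional on the enveloping algebra killing the left ideal descends -/
theorem exists_lift (B : InvForm R g) (κ : R) {A : Type*} [AddCommGroup A] [Module R A]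
    (f : UAff B →ₗ[R] A) (hf : ∀ u ∈ vacIdeal B κ, f u = 0) :
    ∃ F : Vac B κ →ₗ[R] A, ∀ u : UAff B, F (u • vac B κ) = f u := by
  let e := Submodule.Quotient.restrictScalarsEquiv R (vacIdeal B κ)
  let F0 : (UAff B ⧸ (vacIdeal B κ).restrictScalars R) →ₗ[R] A :=
    ((vacIdeal B κ).restrictScalars R).liftQ f (fun u hu => hf u hu)
  refine ⟨F0 ∘ₗ e.symm.toLinearMap, fun u => ?_⟩
  rw [smul_vac]
  rfl

end CritCentre
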