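import Mathlib

/-!
# The universal affine vertex algebra of a Lie algebra with an invariant form, and type `G₂`

General part (for a Lie algebra `g` over a commutative ring `R` with a symmetric invariant form):
the affine Lie algebra, its enveloping algebra, the vacuum module `V^κ(g)`, its centre, the
divided powers of the translation operator, vertex subalgebras of the centre, the `p`-centre.

Special part: the Chevalley `ℤ`-form of the simple Lie algebra of type `G₂` and the
Harish-Chandra centre of its vacuum module.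
-/

set_option autoImplicit false

noncomputable section

namespace CritCentre

attribute [local instance 100] LieRing.ofAssociativeRing

/-! ## General definitions -/

section General

/-- A symmetric invariant bilinear form on a Lie algebra. -/
structure InvForm (R g : Type*) [CommRing R] [LieRing g] [LieAlgebra R g] where
  form : g →ₗ[R] g →ₗ[R] R
  symm : ∀ x y, form x y = form y x
  inv : ∀ x y z, form ⁅x, y⁆ z = form x ⁅y, z⁆

variable {R g : Type*} [CommRing R] [LieRing g] [LieAlgebra R g]

/-- The affine Lie algebra `R[t,t⁻¹] ⊗ g ⊕ R c`. -/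
def Aff (_B : InvForm R g) : Type _ := (ℤ →₀ g) × R

instance (B : InvForm R g) : AddCommGroup (Aff B) := (inferInstance : AddCommGroup ((ℤ →₀ g) × R))
instance (B : InvForm R g) : Module R (Aff B) := (inferInstance : Module R ((ℤ →₀ g) × R))

/-- `[x_m, y_n] = [x,y]_{m+n} + m δ_{m+n,0} ⟨x,y⟩ c`, extended bilinearly; `c` is central. -/
instance (B : InvForm R g) : Bracket (Aff B) (Aff B) :=
  ⟨fun a b => (a.1.sum fun m x => b.1.sum fun n y => Finsupp.single (m + n) ⁅x, y⁆,
    a.1.sum fun m x => (m : R) * B.form x (b.1 (-m)))⟩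

theorem lie_fst (B : InvForm R g) (a b : Aff B) : (⁅a, b⁆ : Aff B).1 =
    a.1.sum fun m x => b.1.sum fun n y => Finsupp.single (m + n) ⁅x, y⁆ := rfl

theorem lie_snd (B : InvForm R g) (a b : Aff B) : (⁅a, b⁆ : Aff B).2 =
    a.1.sum fun m x => (m : R) * B.form x (b.1 (-m)) := rfl

theorem Aff.ext {B : InvForm R g} {a b : Aff B} (h1 : a.1 = b.1) (h2 : a.2 = b.2) : a = b :=
  Prod.ext h1 h2

theorem Aff.add_fst {B : InvForm R g} (a b : Aff B) : (a + b).1 = a.1 + b.1 := rfl
theorem Aff.add_snd {B : InvForm R g} (a b : Aff B) : (a + b).2 = a.2 + b.2 := rfl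
theorem Aff.smul_fst {B : InvForm R g} (r : R) (a : Aff B) : (r • a).1 = r • a.1 := rfl
theorem Aff.smul_snd {B : InvForm R g} (r : R) (a : Aff B) : (r • a).2 = r • a.2 := rfl
theorem Aff.zero_fst {B : InvForm R g} : (0 : Aff B).1 = 0 := rfl
theorem Aff.zero_snd {B : InvForm R g} : (0 : Aff B).2 = 0 := rfl

theorem Aff.add_lie' {B : InvForm R g} (a b c : Aff B) : ⁅a + b, c⁆ = ⁅a, c⁆ + ⁅b, c⁆ := by
  apply Aff.ext
  · rw [lie_fst, Aff.add_fst, Aff.add_fst, lie_fst, lie_fst, Finsupp.sum_add_index']
    · intro m; simp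
    · intro m x y
      simp only [add_lie, Finsupp.single_add]
      exact Finsupp.sum_add
  · rw [lie_snd, Aff.add_fst, Aff.add_snd, lie_snd, lie_snd, Finsupp.sum_add_index']
    · intro m; simp
    · intro m x y; simp [mul_add]

theorem Aff.lie_add' {B : InvForm R g} (a b c : Aff B) : ⁅a, b + c⁆ = ⁅a, b⁆ + ⁅a, c⁆ := by
  apply Aff.ext
  · rw [lie_fst, Aff.add_fst, Aff.add_fst, lie_fst, lie_fst, ← Finsupp.sum_add]
    apply Finsupp.sum_congr
    intro m _
    rw [Finsupp.sum_add_index']
    · intro n; simp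
    · intro n x y; simp
  · rw [lie_snd, Aff.add_fst, Aff.add_snd, lie_snd, lie_snd, ← Finsupp.sum_add]
    apply Finsupp.sum_congr
    intro m _
    simp [mul_add]

/-- `x_n = t^n ⊗ x`. -/
def mode (B : InvForm R g) (x : g) (n : ℤ) : Aff B := (Finsupp.single n x, 0)

/-- The central element `c`. -/
def cc (B : InvForm R g) : Aff B := (0, 1)

theorem mode_fst (B : InvForm R g) (x : g) (n : ℤ) : (mode B x n).1 = Finsupp.single n x := rfl
theorem mode_snd (B : InvForm R g) (x : g) (n : ℤ) : (mode B x n).2 = 0 := rfl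
theorem cc_fst (B : InvForm R g) : (cc B).1 = 0 := rfl
theorem cc_snd (B : InvForm R g) : (cc B).2 = 1 := rfl

theorem mode_add (B : InvForm R g) (x y : g) (n : ℤ) :
    mode B (x + y) n = mode B x n + mode B y n := by
  apply Aff.ext
  · simp [mode, Aff.add_fst]
  · simp [mode, Aff.add_snd]

theorem mode_smul (B : InvForm R g) (r : R) (x : g) (n : ℤ) :
    mode B (r • x) n = r • mode B x n := by
  apply Aff.ext
  · simp [mode, Aff.smul_fst]
  · simp [mode, Aff.smul_snd]

theorem mode_zero (B : InvForm R g) (n : ℤ) : mode B (0 : g) n = 0 := by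
  have := mode_smul B (0 : R) (0 : g) n
  rwa [zero_smul, zero_smul] at this

theorem mode_neg (B : InvForm R g) (x : g) (n : ℤ) : mode B (-x) n = - mode B x n := by
  have h := mode_add B x (-x) n
  rw [add_neg_cancel, mode_zero] at h
  exact (neg_eq_of_add_eq_zero_right h.symm).symm

theorem mode_lie_mode (B : InvForm R g) (x y : g) (m n : ℤ) :
    ⁅mode B x m, mode B y n⁆ =
      mode B ⁅x, y⁆ (m + n) + (if m + n = 0 then (m : R) * B.form x y else 0) • cc B := by
  apply Aff.ext
  · rw [Aff.add_fst, Aff.smul_fst, cc_fst, smul_zero, add_zero]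
    simp [lie_fst, mode_fst]
  · rw [lie_snd, Aff.add_snd, Aff.smul_snd, cc_snd, mode_snd, mode_fst, mode_fst, zero_add,
      smul_eq_mul, mul_one, Finsupp.sum_single_index (by simp)]
    by_cases h : m + n = 0
    · have : n = -m := by omega
      simp [this]
    · have : n ≠ -m := by omega
      simp [h, this]

theorem zero_lie' (B : InvForm R g) (a : Aff B) : ⁅(0 : Aff B), a⁆ = 0 := by
  have := Aff.add_lie' (0 : Aff B) 0 a
  rw [add_zero] at this
  simpa using this

theorem lie_zero' (B : InvForm R g) (a : Aff B) : ⁅a, (0 : Aff B)⁆ = 0 := by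
  have := Aff.lie_add' a (0 : Aff B) 0
  rw [add_zero] at this
  simpa using this

theorem cc_lie (B : InvForm R g) (a : Aff B) : ⁅cc B, a⁆ = 0 := by
  apply Aff.ext <;> simp [lie_fst, lie_snd, cc, Aff.zero_fst, Aff.zero_snd]

theorem lie_smul_cc (B : InvForm R g) (r : R) (a : Aff B) : ⁅a, r • cc B⁆ = 0 := by
  apply Aff.ext <;> simp [lie_fst, lie_snd, cc, Aff.zero_fst, Aff.zero_snd, Aff.smul_fst]

/-- induction principle of the affine Lie algebra -/
theorem Aff.induction {B : InvForm R g} {P : Aff B → Prop} (hadd : ∀ a b, P a → P b → P (a + b))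
    (hm : ∀ x n, P (mode B x n)) (hc : ∀ r : R, P (r • cc B)) (a : Aff B) : P a := by
  have key : ∀ f : ℤ →₀ g, ∀ b : Aff B, b.1 = f → b.2 = 0 → P b := by
    intro f
    induction f using Finsupp.induction_linear with
    | zero =>
      intro b h1 h2
      have : b = (0 : R) • cc B := by
        rw [zero_smul]
        exact Aff.ext h1 h2
      rw [this]
      exact hc 0
    | add f f' hf hf' =>
      intro b h1 h2
      let b1 : Aff B := (f, (0 : R))
      let b2 : Aff B := (f', (0 : R))
      have hb : b = b1 + b2 := by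
        apply Aff.ext
        · rw [Aff.add_fst, h1]
        · rw [Aff.add_snd, h2]; exact (add_zero (0 : R)).symm
      rw [hb]
      exact hadd _ _ (hf b1 rfl rfl) (hf' b2 rfl rfl)
    | single n x =>
      intro b h1 h2
      have : b = mode B x n := Aff.ext h1 h2
      rw [this]
      exact hm x n
  let a1 : Aff B := (a.1, (0 : R))
  have h : a = a1 + a.2 • cc B := by
    apply Aff.ext
    · rw [Aff.add_fst, Aff.smul_fst, cc_fst, smul_zero, add_zero]
    · rw [Aff.add_snd, Aff.smul_snd, cc_snd, smul_eq_mul, mul_one]; exact (zero_add a.2).symm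
  rw [h]
  exact hadd _ _ (key a.1 a1 rfl rfl) (hc _)

theorem Aff.smul_lie' {B : InvForm R g} (r : R) (a b : Aff B) : ⁅r • a, b⁆ = r • ⁅a, b⁆ := by
  apply Aff.ext
  · rw [lie_fst, Aff.smul_fst, Aff.smul_fst, lie_fst, Finsupp.sum_smul_index' (by simp),
      Finsupp.smul_sum]
    apply Finsupp.sum_congr
    intro m _
    rw [Finsupp.smul_sum]
    simp
  · rw [lie_snd, Aff.smul_fst, Aff.smul_snd, lie_snd, Finsupp.sum_smul_index' (by simp),
      Finsupp.smul_sum]
    apply Finsupp.sum_congr
    intro m _
    simp only [map_smul, LinearMap.smul_apply, smul_eq_mul]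
    ring

theorem Aff.skew {B : InvForm R g} (a b : Aff B) : ⁅a, b⁆ = -⁅b, a⁆ := by
  induction a using Aff.induction with
  | hadd a a' ha ha' => rw [Aff.add_lie', Aff.lie_add', ha, ha', neg_add]
  | hc r => rw [Aff.smul_lie', cc_lie, lie_smul_cc]; simp
  | hm x m =>
    induction b using Aff.induction with
    | hadd a a' ha ha' => rw [Aff.add_lie', Aff.lie_add', ha, ha', neg_add]
    | hc r => rw [Aff.smul_lie', cc_lie, lie_smul_cc]; simp
    | hm y n =>
      rw [mode_lie_mode, mode_lie_mode, add_comm n m, neg_add, ← mode_neg, lie_skew, ← neg_smul]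
      congr 2
      by_cases h : m + n = 0
      · have hn : n = -m := by omega
        subst hn
        simp [B.symm x y]
      · simp [h]

theorem Aff.lie_smul' {B : InvForm R g} (r : R) (a b : Aff B) : ⁅a, r • b⁆ = r • ⁅a, b⁆ := by
  rw [Aff.skew, Aff.smul_lie', Aff.skew b a, smul_neg, neg_neg]

theorem Aff.lie_self' {B : InvForm R g} (a : Aff B) : ⁅a, a⁆ = 0 := by
  induction a using Aff.induction with
  | hadd a a' ha ha' =>
    rw [Aff.add_lie', Aff.lie_add', Aff.lie_add', ha, ha', Aff.skew a a']
    simp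
  | hc r => rw [Aff.smul_lie', cc_lie, smul_zero]
  | hm x m =>
    rw [mode_lie_mode, lie_self, mode_zero, zero_add]
    by_cases h : m + m = 0
    · have : m = 0 := by omega
      simp [this]
    · simp [h]

theorem Aff.jacobi {B : InvForm R g} (a b c : Aff B) : ⁅a, ⁅b, c⁆⁆ = ⁅⁅a, b⁆, c⁆ + ⁅b, ⁅a, c⁆⁆ := by
  induction a using Aff.induction with
  | hadd a a' ha ha' => simp only [Aff.add_lie', Aff.lie_add', ha, ha']; abel
  | hc r => simp only [Aff.smul_lie', cc_lie, smul_zero, zero_lie', lie_zero', add_zero]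
  | hm x m =>
  induction b using Aff.induction with
  | hadd a a' ha ha' => simp only [Aff.add_lie', Aff.lie_add', ha, ha']; abel
  | hc r =>
    simp only [Aff.smul_lie', cc_lie, lie_smul_cc, smul_zero, zero_lie', lie_zero', add_zero]
  | hm y n =>
  induction c using Aff.induction with
  | hadd a a' ha ha' => simp only [Aff.lie_add', ha, ha']; abel
  | hc r => simp only [lie_smul_cc, lie_zero', add_zero]
  | hm z k =>
    have e1 : ∀ (x : g) (m : ℤ) (r : R) (a : Aff B), ⁅mode B x m, a + r • cc B⁆ =
        ⁅mode B x m, a⁆ := by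
      intro x m r a; rw [Aff.lie_add', lie_smul_cc, add_zero]
    have e2 : ∀ (r : R) (a b : Aff B), ⁅a + r • cc B, b⁆ = ⁅a, b⁆ := by
      intro r a b; rw [Aff.add_lie', Aff.smul_lie', cc_lie, smul_zero, add_zero]
    rw [mode_lie_mode B y z, mode_lie_mode B x y, mode_lie_mode B x z, e1, e2, e1,
      mode_lie_mode, mode_lie_mode, mode_lie_mode]
    have h1 : m + (n + k) = m + n + k := by ring
    have h2 : n + (m + k) = m + n + k := by ring
    rw [h1, h2, leibniz_lie x y z, mode_add]
    have h3 : (if m + n + k = 0 then (m : R) * B.form x ⁅y, z⁆ else 0) =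
        (if m + n + k = 0 then ((m + n : ℤ) : R) * B.form ⁅x, y⁆ z else 0) +
        (if m + n + k = 0 then (n : R) * B.form y ⁅x, z⁆ else 0) := by
      have e : B.form y ⁅x, z⁆ = - B.form x ⁅y, z⁆ := by
        rw [← B.inv, ← B.inv, ← lie_skew y x, map_neg, LinearMap.neg_apply]
      split_ifs
      · rw [e, B.inv]; push_cast; ring
      · simp
    rw [h3, add_smul]
    abel

instance (B : InvForm R g) : LieRing (Aff B) where
  add_lie := Aff.add_lie'
  lie_add := Aff.lie_add'
  lie_self := Aff.lie_self'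
  leibniz_lie := Aff.jacobi

instance (B : InvForm R g) : LieAlgebra R (Aff B) where
  lie_smul := Aff.lie_smul'

/-- The multiple `r c` of the central element. -/
def rcc (B : InvForm R g) (r : R) : Aff B := (0, r)

theorem rcc_eq (B : InvForm R g) (r : R) : rcc B r = r • cc B := by
  apply Aff.ext
  · rw [Aff.smul_fst, cc_fst, smul_zero]; rfl
  · rw [Aff.smul_snd, cc_snd, smul_eq_mul, mul_one]; rfl

theorem mode_lie_mode' (B : InvForm R g) (x y : g) (m n : ℤ) :
    ⁅mode B x m, mode B y n⁆ =
      mode B ⁅x, y⁆ (m + n) + rcc B (if m + n = 0 then (m : R) * B.form x y else 0) := by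
  rw [mode_lie_mode, rcc_eq]

theorem rcc_lie (B : InvForm R g) (r : R) (a : Aff B) : ⁅rcc B r, a⁆ = 0 := by
  rw [rcc_eq, smul_lie, cc_lie, smul_zero]

theorem lie_rcc (B : InvForm R g) (r : R) (a : Aff B) : ⁅a, rcc B r⁆ = 0 := by
  rw [rcc_eq, lie_smul_cc]

/-- induction principle of the affine Lie algebra, without scalar multiplication -/
theorem Aff.induction' {B : InvForm R g} {P : Aff B → Prop} (hadd : ∀ a b, P a → P b → P (a + b))
    (hm : ∀ x n, P (mode B x n)) (hc : ∀ r : R, P (rcc B r)) (a : Aff B) : P a :=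
  Aff.induction hadd hm (fun r => rcc_eq B r ▸ hc r) a

/-- The degree `k` component of translation `t ↦ t - ε` (that is, of `e^{εT}`, `T = -∂_t`):
`x_n ↦ (-1)^k (n choose k) x_{n-k}`, and `c ↦ δ_{k,0} c`. -/
def transL (B : InvForm R g) (k : ℕ) : Aff B →ₗ[R] Aff B :=
  LinearMap.prodMap
    (Finsupp.lsum R fun n : ℤ => (Finsupp.lsingle (n - k)) ∘ₗ
      (((-1) ^ k * Ring.choose n k : ℤ) • (LinearMap.id : g →ₗ[R] g)))
    (if k = 0 then LinearMap.id else 0)

theorem transL_mode (B : InvForm R g) (k : ℕ) (x : g) (n : ℤ) :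
    transL B k (mode B x n) = ((-1) ^ k * Ring.choose n k : ℤ) • mode B x (n - k) := by
  apply Aff.ext
  · have h : ((((-1) ^ k * Ring.choose n k : ℤ)) • mode B x (n - k)).1 =
      ((-1) ^ k * Ring.choose n k : ℤ) • (Finsupp.single (n - k) x) := rfl
    rw [h]
    show (Finsupp.lsum R fun n : ℤ => (Finsupp.lsingle (n - k)) ∘ₗ
      (((-1) ^ k * Ring.choose n k : ℤ) • (LinearMap.id : g →ₗ[R] g))) (Finsupp.single n x) = _
    rw [Finsupp.lsum_single, LinearMap.comp_apply, LinearMap.smul_apply, LinearMap.id_apply,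
      Finsupp.lsingle_apply, Finsupp.smul_single]
  · have h : ((((-1) ^ k * Ring.choose n k : ℤ)) • mode B x (n - k)).2 =
      ((-1) ^ k * Ring.choose n k : ℤ) • (0 : R) := rfl
    rw [h, smul_zero]
    show (if k = 0 then LinearMap.id else 0 : R →ₗ[R] R) 0 = 0
    simp

theorem transL_cc (B : InvForm R g) (k : ℕ) : transL B k (cc B) = if k = 0 then cc B else 0 := by
  apply Aff.ext
  · have h1 : (transL B k (cc B)).1 = 0 := by
      show (Finsupp.lsum R fun n : ℤ => (Finsupp.lsingle (n - k)) ∘ₗ
        (((-1) ^ k * Ring.choose n k : ℤ) • (LinearMap.id : g →ₗ[R] g))) 0 = _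
      simp
    rw [h1]; split_ifs <;> rfl
  · have h1 : (transL B k (cc B)).2 = if k = 0 then 1 else 0 := by
      show (if k = 0 then LinearMap.id else 0 : R →ₗ[R] R) 1 = _
      split_ifs <;> simp
    rw [h1]; split_ifs <;> rfl

theorem choose_mul_sub (m : ℤ) (i : ℕ) :
    (m - i) * Ring.choose m i = m * Ring.choose (m - 1) i := by
  have h1 := Ring.choose_smul_choose m (n := i + 1) (k := 1) (by omega)
  have h2 := Ring.choose_smul_choose m (n := i + 1) (k := i) (by omega)
  simp only [Nat.choose_one_right, Ring.choose_one_right, Nat.add_sub_cancel, Nat.cast_one] at h1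
  simp only [Nat.choose_succ_self_right, Nat.add_sub_cancel_left, Ring.choose_one_right] at h2
  rw [← h1, h2]; ring

theorem sum_choose (m n : ℤ) (k : ℕ) :
    ∑ p ∈ Finset.HasAntidiagonal.antidiagonal k, Ring.choose m p.1 * Ring.choose n p.2 =
      Ring.choose (m + n) k := (Ring.add_choose_eq k (Commute.all m n)).symm

theorem transL_lie (B : InvForm R g) (k : ℕ) (a b : Aff B) :
    transL B k ⁅a, b⁆ = ∑ p ∈ Finset.HasAntidiagonal.antidiagonal k, ⁅transL B p.1 a, transL B p.2 b⁆ := by
  induction a using Aff.induction with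
  | hadd a a' ha ha' =>
    simp only [add_lie, map_add, ha, ha', Finset.sum_add_distrib]
  | hc r =>
    have h : ∀ (k : ℕ) (b : Aff B), ⁅transL B k (r • cc B), b⁆ = 0 := by
      intro k b
      rw [map_smul, transL_cc]
      split_ifs
      · rw [smul_lie, cc_lie, smul_zero]
      · rw [smul_zero, zero_lie]
    rw [Finset.sum_eq_zero (fun p _ => h _ _), smul_lie, cc_lie, smul_zero, map_zero]
  | hm x m =>
  induction b using Aff.induction with
  | hadd a a' ha ha' =>
    simp only [lie_add, map_add, ha, ha', Finset.sum_add_distrib]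
  | hc r =>
    have h : ∀ (k : ℕ) (b : Aff B), ⁅b, transL B k (r • cc B)⁆ = 0 := by
      intro k b
      rw [map_smul, transL_cc]
      split_ifs
      · rw [lie_smul_cc]
      · rw [smul_zero, lie_zero]
    rw [Finset.sum_eq_zero (fun p _ => h _ _), lie_smul_cc, map_zero]
  | hm y n =>
    rw [mode_lie_mode, map_add, map_smul, transL_mode, transL_cc]
    have h1 : ∀ p ∈ Finset.HasAntidiagonal.antidiagonal k, ⁅transL B p.1 (mode B x m), transL B p.2 (mode B y n)⁆ =
        ((-1) ^ k * (Ring.choose m p.1 * Ring.choose n p.2) : ℤ) • mode B ⁅x, y⁆ (m + n - k) +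
        ((-1) ^ k * ((if m + n = k then 1 else 0) *
          (m * (Ring.choose (m - 1) p.1 * Ring.choose n p.2))) : ℤ) • (B.form x y) • cc B := by
      intro p hp
      have hpk : p.1 + p.2 = k := Finset.HasAntidiagonal.mem_antidiagonal.1 hp
      rw [transL_mode, transL_mode, smul_lie, lie_smul, mode_lie_mode, smul_smul]
      have e1 : m - (p.1 : ℤ) + (n - (p.2 : ℤ)) = m + n - k := by rw [← hpk]; push_cast; ring
      have e2 : ((-1) ^ p.1 * Ring.choose m p.1 * ((-1) ^ p.2 * Ring.choose n p.2) : ℤ) =
          (-1) ^ k * (Ring.choose m p.1 * Ring.choose n p.2) := by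
        rw [← hpk, pow_add]; ring
      rw [e1, e2, smul_add]
      congr 1
      by_cases h : m + n - k = 0
      · have h' : m + n = k := by omega
        rw [if_pos h, if_pos h', one_mul]
        have e3 := choose_mul_sub m p.1
        have e4 : m * (Ring.choose (m - 1) p.1 * Ring.choose n p.2) =
            (m - p.1) * (Ring.choose m p.1 * Ring.choose n p.2) := by
          rw [← mul_assoc, ← e3]; ring
        rw [e4, ← Int.cast_smul_eq_zsmul R, ← Int.cast_smul_eq_zsmul R, smul_smul, smul_smul]
        congr 1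
        push_cast; ring
      · have h' : ¬ (m + n = k) := by omega
        rw [if_neg h, if_neg h']; simp
    rw [Finset.sum_congr rfl h1, Finset.sum_add_distrib, ← Finset.sum_smul, ← Finset.sum_smul,
      ← Finset.mul_sum, sum_choose, ← Finset.mul_sum, ← Finset.mul_sum, ← Finset.mul_sum,
      sum_choose]
    congr 1
    rcases Nat.eq_zero_or_pos k with hk | hk
    · subst hk
      by_cases h : m + n = 0
      · simp [h, mul_smul, Int.cast_smul_eq_zsmul]
      · simp [h]
    · rw [if_neg hk.ne', smul_zero]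
      by_cases h : m + n = k
      · have h2 : m - 1 + n = ((k - 1 : ℕ) : ℤ) := by omega
        rw [h2, Ring.choose_natCast, Nat.choose_eq_zero_of_lt (by omega)]
        simp
      · simp [h]

/-- The enveloping algebra of the affine Lie algebra. -/
abbrev UAff (B : InvForm R g) : Type _ := UniversalEnvelopingAlgebra R (Aff B)

/-- The canonical map from the affine Lie algebra to its enveloping algebra. -/
def iota (B : InvForm R g) : Aff B →ₗ⁅R⁆ UAff B := UniversalEnvelopingAlgebra.ι R

/-- The element `x_n` of the enveloping algebra. -/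
def xmode (B : InvForm R g) (x : g) (n : ℤ) : UAff B := iota B (mode B x n)

/-- The Lie algebra map `a ↦ e^{εT} a`. -/
def transLie (B : InvForm R g) : Aff B →ₗ⁅R⁆ PowerSeries (UAff B) where
  toFun a := PowerSeries.mk fun k => iota B (transL B k a)
  map_add' a b := by ext k; simp
  map_smul' r a := by ext k; simp
  map_lie' {a b} := by
    ext k
    rw [PowerSeries.coeff_mk, transL_lie, LieRing.of_associative_ring_bracket, map_sub,
      PowerSeries.coeff_mul, PowerSeries.coeff_mul, map_sum,
      ← Finset.Nat.sum_antidiagonal_swap (n := k) (f := fun p => 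
        (PowerSeries.coeff p.1) (PowerSeries.mk fun k => iota B (transL B k b)) *
        (PowerSeries.coeff p.2) (PowerSeries.mk fun k => iota B (transL B k a))),
      ← Finset.sum_sub_distrib]
    apply Finset.sum_congr rfl
    intro p _
    simp [LieRing.of_associative_ring_bracket]

/-- The algebra map `e^{εT} : U(Aff) → U(Aff)[[ε]]`. -/
def trans (B : InvForm R g) : UAff B →ₐ[R] PowerSeries (UAff B) :=
  UniversalEnvelopingAlgebra.lift R (transLie B)

/-- The left ideal of `U(Aff)` generated by all `x_n`, `n ≥ 0`, and by `c - κ`. -/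
def vacIdeal (B : InvForm R g) (κ : R) : Submodule (UAff B) (UAff B) :=
  Submodule.span (UAff B) ({u | ∃ (x : g) (n : ℕ), u = xmode B x n} ∪
    {iota B (cc B) - algebraMap R (UAff B) κ})

/-- The vacuum module `V^κ(g)`, the quotient of `U(Aff)` by this left ideal. -/
abbrev Vac (B : InvForm R g) (κ : R) : Type _ := UAff B ⧸ vacIdeal B κ

/-- The vacuum vector `|0⟩`; thus `u • vac B κ` is the vector `u|0⟩`. -/
def vac (B : InvForm R g) (κ : R) : Vac B κ := Submodule.Quotient.mk 1

/-- The centre of `V^κ(g)`: the vectors killed by all `x_n`, `n ≥ 0`. -/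
def centre (B : InvForm R g) (κ : R) : Submodule R (Vac B κ) where
  carrier := {v | ∀ (x : g) (n : ℕ), xmode B x n • v = 0}
  add_mem' {v w} hv hw x n := by
    rw [smul_add, hv x n, hw x n, add_zero]
  zero_mem' x n := smul_zero _
  smul_mem' r v hv x n := by rw [smul_comm, hv x n, smul_zero]

/-- A vertex subalgebra of the centre: a subspace `W` of the centre which contains the vacuum
and is closed under the divided powers `T^{(k)}` of the translation operator
(`T^{(k)} (u|0⟩)` is the `ε^k`-coefficient of `e^{εT}(u)|0⟩`) and under the product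
`(a,b) ↦ a_{(-1)} b`, which for `a = u|0⟩` and central `b` is `u b`. -/
structure IsVertexSub (B : InvForm R g) (κ : R) (W : Submodule R (Vac B κ)) : Prop where
  le_centre : W ≤ centre B κ
  vac_mem : vac B κ ∈ W
  trans_mem : ∀ (u : UAff B) (k : ℕ), u • vac B κ ∈ W →
    (PowerSeries.coeff k (trans B u)) • vac B κ ∈ W
  mul_mem : ∀ (u : UAff B) (b : Vac B κ), u • vac B κ ∈ W → b ∈ W → u • b ∈ W

/-- The vertex subalgebra of the centre generated by a set. -/
def vertexSpan (B : InvForm R g) (κ : R) (S : Set (Vac B κ)) : Submodule R (Vac B κ) :=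
  sInf {W | IsVertexSub B κ W ∧ S ⊆ W}

/-- The `p`-centre `Z'_0 |0⟩` for a `p`-map `pm`: `Z'_0` is the subalgebra of `U(Aff)` generated
by the elements `(x_n)^p - (x^{[p]})_{np}`. -/
def pCentre (B : InvForm R g) (κ : R) (p : ℕ) (pm : g → g) : Set (Vac B κ) :=
  {v | ∃ u ∈ Algebra.adjoin R {u : UAff B | ∃ (x : g) (n : ℤ),
    u = xmode B x n ^ p - xmode B (pm x) (n * p)}, v = u • vac B κ}

end General

end CritCentre
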