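import Pool.Agent.Helper43.VA.Basic

/-!
# Symbol maps: definitions
-/

set_option autoImplicit false

noncomputable section

namespace CritCentre

/-- A symbol map: `x_{-1}` acts as multiplication by `X x`, and `x_{-m}`, `m ≥ 2`, acts by `0`. -/
structure IsSymbol {R g A : Type*} [CommRing R] [LieRing g] [LieAlgebra R g] [CommRing A]
    [Algebra R A] (B : InvForm R g) (κ : R) (X : g →ₗ[R] A) (Φ : Vac B κ →ₗ[R] A) : Prop where
  vac : Φ (vac B κ) = 1
  one : ∀ (x : g) (v : Vac B κ), Φ (xmode B x (-1) • v) = X x * Φ v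
  two : ∀ (x : g) (m : ℕ) (v : Vac B κ), Φ (xmode B x (-(m + 2)) • v) = 0

open MvPolynomial in
/-- projection of `G2 R` to the Cartan subalgebra, with values in `R[H₁,H₂]` -/
def XH (R : Type*) [CommRing R] : G2 R →ₗ[R] MvPolynomial (Fin 2) R where
  toFun x := C (x 12) * X 0 + C (x 13) * X 1
  map_add' x y := by
    show C (x 12 + y 12) * X 0 + C (x 13 + y 13) * X 1 = _
    rw [C_add, C_add]; ring
  map_smul' r x := by
    show C (r * x 12) * X 0 + C (r * x 13) * X 1 = _
    rw [C_mul, C_mul, RingHom.id_apply, smul_eq_C_mul]; ring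

/-- no terms of degree one or three -/
def NoOdd {R : Type*} [CommRing R] (P : MvPolynomial (Fin 2) R) : Prop :=
  ∀ m : Fin 2 →₀ ℕ, m 0 + m 1 = 1 ∨ m 0 + m 1 = 3 → MvPolynomial.coeff m P = 0

/-- monomials in four variables -/
def mon (a b c d : ℕ) : Fin 4 →₀ ℕ :=
  Finsupp.single 0 a + Finsupp.single 1 b + Finsupp.single 2 c + Finsupp.single 3 d

open MvPolynomial in
/-- the action of `e₁` on `R[H₁,H₂,E,F]`, `E = e₁`, `F = f₁` -/
def der1 (R : Type*) [CommRing R] :
    Derivation R (MvPolynomial (Fin 4) R) (MvPolynomial (Fin 4) R) :=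
  mkDerivation R ![-2 * X 2, X 2, 0, X 0]

open MvPolynomial in
/-- the action of `e₂` on `R[H₁,H₂,E,F]`, `E = e₂`, `F = f₂` -/
def der2 (R : Type*) [CommRing R] :
    Derivation R (MvPolynomial (Fin 4) R) (MvPolynomial (Fin 4) R) :=
  mkDerivation R ![3 * X 2, -2 * X 2, 0, X 1]

/-- the words of the new central vector; the letter `(i, m)` stands for `(b_i)_m`, where
`b_0, …, b_13 = e₁,…,e₆,f₁,…,f₆,h₁,h₂` -/
def fwords : List (List (Fin 14 × ℤ)) :=
  [[(12, -3)],
   [(0, -2), (6, -1)],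
   [(2, -2), (8, -1)],
   [(4, -2), (10, -1)],
   [(6, -2), (0, -1)],
   [(12, -2), (13, -1)],
   [(0, -1), (1, -1), (8, -1)],
   [(0, -1), (3, -1), (10, -1)],
   [(0, -1), (6, -1), (12, -1)],
   [(1, -1), (4, -1), (11, -1)],
   [(1, -1), (7, -1), (13, -1)],
   [(2, -1), (3, -1), (11, -1)],
   [(2, -1), (6, -1), (7, -1)],
   [(2, -1), (8, -1), (12, -1)],
   [(2, -1), (8, -1), (13, -1)],
   [(3, -1), (9, -1), (13, -1)],
   [(4, -1), (6, -1), (9, -1)],
   [(4, -1), (10, -1), (12, -1)],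
   [(4, -1), (10, -1), (13, -1)],
   [(5, -1), (7, -1), (10, -1)],
   [(5, -1), (8, -1), (9, -1)],
   [(5, -1), (11, -1), (12, -1)],
   [(12, -1), (12, -1), (13, -1)],
   [(12, -1), (13, -1), (13, -1)]]

/-- the element of the enveloping algebra given by a word -/
def word (R : Type*) [CommRing R] (w : List (Fin 14 × ℤ)) : UAff (kappa R) :=
  (w.map fun a => xmode (kappa R) (bv R a.1) a.2).prod

/-- the new central element (in characteristic 2) -/
def fhat (R : Type*) [CommRing R] : UAff (kappa R) := (fwords.map (word R)).sum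

end CritCentre
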