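import Pool.Agent.Helper43.VA.G2Tab

set_option autoImplicit false

noncomputable section

namespace CritCentre

open Matrix

/-- The Lie algebra of type `G₂` over `R`: the free module on the Chevalley basis. -/
def G2 (R : Type*) : Type _ := Fin 14 → R

variable {R : Type*} [CommRing R]

instance : AddCommGroup (G2 R) := (inferInstance : AddCommGroup (Fin 14 → R))
instance : Module R (G2 R) := (inferInstance : Module R (Fin 14 → R))

/-- The embedding of `G2 R` into the `7 × 7` matrices over `R`. -/
def rho : G2 R →ₗ[R] Matrix (Fin 7) (Fin 7) R where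
  toFun x := ∑ i, x i • (bas i).map (Int.cast : ℤ → R)
  map_add' x y := by
    rw [← Finset.sum_add_distrib]
    exact Finset.sum_congr rfl fun i _ => add_smul (x i) (y i) _
  map_smul' r x := by
    rw [Finset.smul_sum]
    exact Finset.sum_congr rfl fun i _ => mul_smul r (x i) _

/-- The bracket: the coordinates of the commutator of matrices. -/
instance : Bracket (G2 R) (G2 R) := ⟨fun x y => coord (rho x * rho y - rho y * rho x)⟩

theorem lie_def (x y : G2 R) : (⁅x, y⁆ : G2 R) = coord (rho x * rho y - rho y * rho x) := rfl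

/-- the Chevalley basis vectors of `G2 R` -/
def bv (R : Type*) [CommRing R] (i : Fin 14) : G2 R := Pi.single i (1 : R)

theorem rho_bv (i : Fin 14) : rho (bv R i) = (bas i).map (Int.cast : ℤ → R) := by
  show ∑ j, (Pi.single i (1 : R) : Fin 14 → R) j • (bas j).map (Int.cast : ℤ → R) = _
  rw [Finset.sum_eq_single i]
  · simp
  · intro j _ hj; simp [Pi.single_eq_of_ne hj]
  · simp

theorem G2_sum (x : G2 R) : x = ∑ i, x i • bv R i := by
  have : ∀ x : Fin 14 → R, x = ∑ i, (x i • (Pi.single i (1 : R) : Fin 14 → R)) := by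
    intro x
    ext j
    simp [Finset.sum_apply, Pi.single_apply]
  exact this x

theorem coord_map (M : Matrix (Fin 7) (Fin 7) ℤ) (k : Fin 14) :
    coord (M.map (Int.cast : ℤ → R)) k = ((coord M k : ℤ) : R) := by
  fin_cases k <;> simp [coord]

theorem coord_rho (x : G2 R) : coord (rho x) = x := by
  conv_rhs => rw [G2_sum x]
  conv_lhs => rw [G2_sum x]
  rw [map_sum, map_sum]
  apply Finset.sum_congr rfl
  intro i _
  rw [map_smul, map_smul, rho_bv]
  congr 1
  funext k
  rw [coord_map, coord_bas]
  show _ = (Pi.single i (1 : R) : Fin 14 → R) k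
  by_cases h : i = k
  · subst h; simp
  · simp [h, Ne.symm h]

theorem rho_injective : Function.Injective (rho : G2 R →ₗ[R] Matrix (Fin 7) (Fin 7) R) := by
  intro x y h
  have := congrArg coord h
  rwa [coord_rho, coord_rho] at this

/-- the bracket of two Chevalley basis vectors -/
theorem rho_comm_bv (i j : Fin 14) : rho (bv R i) * rho (bv R j) - rho (bv R j) * rho (bv R i) =
    ((scL i j).map (fun p => (p.2 : R) • rho (bv R p.1))).sum := by
  rw [rho_bv, rho_bv]
  have h1 : (bas i).map (Int.cast : ℤ → R) * (bas j).map (Int.cast : ℤ → R) -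
      (bas j).map (Int.cast : ℤ → R) * (bas i).map (Int.cast : ℤ → R) =
      (bas i * bas j - bas j * bas i).map (Int.cast : ℤ → R) := by
    ext r c
    simp [Matrix.mul_apply]
  rw [h1]
  ext r c
  rw [Matrix.map_apply, bas_comm]
  generalize scL i j = l
  induction l with
  | nil => simp
  | cons p l ih =>
    simp only [List.map_cons, List.sum_cons, Int.cast_add, Matrix.add_apply, ih]
    congr 1
    rw [rho_bv]
    simp

theorem rho_lie_aux (x y : G2 R) :
    rho (coord (rho x * rho y - rho y * rho x) : G2 R) = rho x * rho y - rho y * rho x := by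
  let F : G2 R →ₗ[R] G2 R →ₗ[R] Matrix (Fin 7) (Fin 7) R :=
    LinearMap.mk₂ R (fun x y => rho x * rho y - rho y * rho x)
      (by intro a b c; simp only [map_add, add_mul, mul_add]; abel)
      (by intro r a b; simp only [map_smul, smul_mul_assoc, mul_smul_comm, smul_sub])
      (by intro a b c; simp only [map_add, add_mul, mul_add]; abel)
      (by intro r a b; simp only [map_smul, smul_mul_assoc, mul_smul_comm, smul_sub])
  have hF : ∀ x y, F x y = rho x * rho y - rho y * rho x := fun x y => rfl
  rw [← hF]
  have key : ∀ i j, rho (coord (F (bv R i) (bv R j)) : G2 R) = F (bv R i) (bv R j) := by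
    intro i j
    rw [hF, rho_comm_bv]
    generalize scL i j = l
    induction l with
    | nil => simp only [List.map_nil, List.sum_nil, map_zero]; exact map_zero rho
    | cons p l ih =>
      simp only [List.map_cons, List.sum_cons, map_add, map_smul]
      have h1 : ∀ a b : Fin 14 → R, rho (a + b : Fin 14 → R) = rho (a : G2 R) + rho (b : G2 R) :=
        fun a b => map_add rho _ _
      have h2 : ∀ (r : R) (a : Fin 14 → R), rho (r • a : Fin 14 → R) = r • rho (a : G2 R) :=
        fun a b => map_smul rho _ _
      rw [h1, h2, ih]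
      congr 2
      exact congrArg rho (coord_rho (bv R p.1))
  let cR : Matrix (Fin 7) (Fin 7) R →ₗ[R] G2 R := coord
  have hc : ∀ M : Matrix (Fin 7) (Fin 7) R, rho (coord M : G2 R) = rho (cR M) := fun M => rfl
  have key' : ∀ i j, rho (cR (F (bv R i) (bv R j))) = F (bv R i) (bv R j) := key
  rw [hc]
  conv_lhs => rw [G2_sum x, G2_sum y]
  conv_rhs => rw [G2_sum x, G2_sum y]
  simp only [map_sum, map_smul, LinearMap.sum_apply, LinearMap.smul_apply, key']

theorem rho_lie (x y : G2 R) : rho ⁅x, y⁆ = rho x * rho y - rho y * rho x := rho_lie_aux x y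

instance : LieRing (G2 R) where
  add_lie x y z := rho_injective (by simp only [rho_lie, map_add]; noncomm_ring)
  lie_add x y z := rho_injective (by simp only [rho_lie, map_add]; noncomm_ring)
  lie_self x := rho_injective (by rw [rho_lie, sub_self, map_zero])
  leibniz_lie x y z := rho_injective (by simp only [rho_lie, map_add]; noncomm_ring)

instance : LieAlgebra R (G2 R) where
  lie_smul r x y := rho_injective (by
    simp only [rho_lie, map_smul, smul_mul_assoc, mul_smul_comm, smul_sub])

theorem lie_bv (i j : Fin 14) : ⁅bv R i, bv R j⁆ =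
    ((scL i j).map (fun p => (p.2 : R) • bv R p.1)).sum := by
  apply rho_injective
  rw [rho_lie, rho_comm_bv]
  generalize scL i j = l
  induction l with
  | nil => simp
  | cons p l ih => simp only [List.map_cons, List.sum_cons, map_add, map_smul, ih]

/-- The Gram matrix of the normalised invariant form (long roots have square length 2):
half the trace form of the 7-dimensional representation. -/
def gram : Fin 14 → Fin 14 → ℤ :=
  fun i j => (bas i * bas j).trace / 2

theorem gram_spec : ∀ i j, 2 * gram i j = (bas i * bas j).trace := by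
  unfold gram; decide +kernel

/-- The normalised invariant form. -/
def gform (R : Type*) [CommRing R] : G2 R →ₗ[R] G2 R →ₗ[R] R :=
  LinearMap.mk₂ R (fun x y => ∑ i, ∑ j, x i * y j * (gram i j : R))
    (by
      intro a b c
      rw [← Finset.sum_add_distrib]
      apply Finset.sum_congr rfl; intro i _
      rw [← Finset.sum_add_distrib]
      apply Finset.sum_congr rfl; intro j _
      show (a i + b i) * _ * _ = _
      ring)
    (by
      intro r a c
      rw [Finset.smul_sum]
      apply Finset.sum_congr rfl; intro i _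
      rw [Finset.smul_sum]
      apply Finset.sum_congr rfl; intro j _
      show (r * a i) * _ * _ = r * _
      ring)
    (by
      intro a b c
      rw [← Finset.sum_add_distrib]
      apply Finset.sum_congr rfl; intro i _
      rw [← Finset.sum_add_distrib]
      apply Finset.sum_congr rfl; intro j _
      show a i * (b j + c j) * _ = _
      ring)
    (by
      intro r a c
      rw [Finset.smul_sum]
      apply Finset.sum_congr rfl; intro i _
      rw [Finset.smul_sum]
      apply Finset.sum_congr rfl; intro j _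
      show a i * (r * c j) * _ = r * _
      ring)

theorem gform_apply (x y : G2 R) : gform R x y = ∑ i, ∑ j, x i * y j * (gram i j : R) := rfl

theorem gform_bv (i j : Fin 14) : gform R (bv R i) (bv R j) = (gram i j : R) := by
  rw [gform_apply]
  show ∑ i', ∑ j', (Pi.single i (1 : R) : Fin 14 → R) i' * (Pi.single j (1 : R) : Fin 14 → R) j' *
    (gram i' j' : R) = _
  rw [Finset.sum_eq_single i, Finset.sum_eq_single j]
  · simp
  · intro j' _ h; simp [h]
  · simp
  · intro j' _ h; simp [h]
  · simp

theorem gram_symm (i j : Fin 14) : gram i j = gram j i := by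
  have h1 := gram_spec i j
  have h2 := gram_spec j i
  rw [Matrix.trace_mul_comm] at h1
  omega

theorem two_gform_int (x y : G2 ℤ) : 2 * gform ℤ x y = (rho x * rho y).trace := by
  have e : ∀ i, (bas i).map (Int.cast : ℤ → ℤ) = bas i := by
    intro i; ext r c; simp
  have h1 : ∀ x : G2 ℤ, rho x = ∑ i, x i • bas i := by
    intro x
    show ∑ i, x i • (bas i).map (Int.cast : ℤ → ℤ) = _
    simp only [e]
  rw [h1, h1, Finset.sum_mul, Matrix.trace_sum, gform_apply, Finset.mul_sum]
  apply Finset.sum_congr rfl; intro i _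
  rw [Finset.mul_sum, Finset.mul_sum, Matrix.trace_sum]
  apply Finset.sum_congr rfl; intro j _
  rw [smul_mul_assoc, mul_smul_comm, Matrix.trace_smul, Matrix.trace_smul, ← gram_spec]
  simp only [smul_eq_mul, Int.cast_id]
  ring

theorem gform_inv_int (x y z : G2 ℤ) : gform ℤ ⁅x, y⁆ z = gform ℤ x ⁅y, z⁆ := by
  have h : 2 * gform ℤ ⁅x, y⁆ z = 2 * gform ℤ x ⁅y, z⁆ := by
    rw [two_gform_int, two_gform_int, rho_lie, rho_lie, sub_mul, mul_sub, Matrix.trace_sub,
      Matrix.trace_sub, Matrix.mul_assoc, Matrix.mul_assoc, ← Matrix.mul_assoc (rho x) (rho z),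
      Matrix.trace_mul_comm (rho y)]
  omega

theorem gform_lie_bv (i j k : Fin 14) : gform R ⁅bv R i, bv R j⁆ (bv R k) =
    ((gform ℤ ⁅bv ℤ i, bv ℤ j⁆ (bv ℤ k) : ℤ) : R) := by
  rw [lie_bv, lie_bv]
  generalize scL i j = l
  induction l with
  | nil => simp
  | cons p l ih =>
    simp only [List.map_cons, List.sum_cons, map_add, map_smul, LinearMap.add_apply,
      LinearMap.smul_apply, ih, gform_bv, Int.cast_add, smul_eq_mul, Int.cast_mul, Int.cast_id]

theorem gform_symm (x y : G2 R) : gform R x y = gform R y x := by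
  rw [gform_apply, gform_apply, Finset.sum_comm]
  apply Finset.sum_congr rfl; intro i _
  apply Finset.sum_congr rfl; intro j _
  rw [gram_symm, mul_comm (x j) (y i)]

theorem gform_lie_bv' (i j k : Fin 14) : gform R (bv R i) ⁅bv R j, bv R k⁆ =
    ((gform ℤ (bv ℤ i) ⁅bv ℤ j, bv ℤ k⁆ : ℤ) : R) := by
  rw [gform_symm, gform_lie_bv, gform_symm]

theorem gform_inv (x y z : G2 R) : gform R ⁅x, y⁆ z = gform R x ⁅y, z⁆ := by
  have key : ∀ i j k : Fin 14, gform R ⁅bv R i, bv R j⁆ (bv R k) =
      gform R (bv R i) ⁅bv R j, bv R k⁆ := by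
    intro i j k
    rw [gform_lie_bv, gform_lie_bv', gform_inv_int]
  rw [G2_sum x, G2_sum y, G2_sum z]
  simp only [sum_lie, lie_sum, map_sum, smul_lie, lie_smul, map_smul, LinearMap.sum_apply,
    LinearMap.smul_apply, key]

/-- The normalised invariant form as an invariant form. -/
def kappa (R : Type*) [CommRing R] : InvForm R (G2 R) where
  form := gform R
  symm := gform_symm
  inv := gform_inv

theorem gform_bv_right (x : G2 R) (j : Fin 14) :
    gform R x (bv R j) = ∑ i, x i * (gram i j : R) := by
  conv_lhs => rw [G2_sum x]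
  simp only [map_sum, map_smul, LinearMap.sum_apply, LinearMap.smul_apply, gform_bv, smul_eq_mul]

/-- the inverse of the Gram matrix modulo 2: `e_i ↔ f_i`, `h_1 ↔ h_2` -/
def dualIdx : Fin 14 → Fin 14 := ![6, 7, 8, 9, 10, 11, 0, 1, 2, 3, 4, 5, 13, 12]

theorem gram_mod_two : ∀ i j, gram i (dualIdx j) % 2 = if i = j then 1 else 0 := by
  unfold gram; decide +kernel

theorem int_cast_char_two [CharP R 2] (n : ℤ) : (n : R) = ((n % 2 : ℤ) : R) := by
  have h2 : (2 : R) = 0 := CharTwo.two_eq_zero
  conv_lhs => rw [← Int.emod_add_mul_ediv n 2]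
  push_cast
  rw [h2, zero_mul, add_zero]

/-- The form is nondegenerate in characteristic 2. -/
theorem gform_nondeg [CharP R 2] (x : G2 R) (h : ∀ y, gform R x y = 0) : x = 0 := by
  have h1 : ∀ j : Fin 14, x j = 0 := by
    intro j
    have h2 := h (bv R (dualIdx j))
    rw [gform_bv_right] at h2
    rw [Finset.sum_eq_single j] at h2
    · rw [int_cast_char_two, gram_mod_two] at h2
      simpa using h2
    · intro i _ hij
      rw [int_cast_char_two, gram_mod_two, if_neg hij]
      simp
    · simp
  exact funext h1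

/-- The `2`-power map in characteristic 2: the coordinates of the square of the matrix. -/
def sq (x : G2 R) : G2 R := coord (rho x * rho x)

theorem bas_sq_mod : ∀ i r c, ((bas i * bas i) r c -
    ∑ k, (coord (bas i * bas i) k) * bas k r c) % 2 = 0 := by decide +kernel

theorem rho_sq [CharP R 2] (x : G2 R) : rho (sq x) = rho x * rho x := by
  let cR : Matrix (Fin 7) (Fin 7) R →ₗ[R] G2 R := coord
  have hsq : ∀ x, sq x = cR (rho x * rho x) := fun x => rfl
  have hadd : ∀ x y : G2 R, rho (sq x) = rho x * rho x → rho (sq y) = rho y * rho y →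
      rho (sq (x + y)) = rho (x + y) * rho (x + y) := by
    intro x y hx hy
    have h1 : rho x * rho y + rho y * rho x = rho ⁅x, y⁆ := by
      rw [rho_lie, CharTwo.sub_eq_add]
    have h2 : rho (x + y) * rho (x + y) = rho x * rho x + rho y * rho y + rho ⁅x, y⁆ := by
      rw [← h1, map_add]; noncomm_ring
    rw [hsq] at hx hy ⊢
    rw [h2, map_add, map_add, map_add, map_add, hx, hy]
    congr 1
    exact congrArg rho (coord_rho _)
  have hsmul : ∀ (r : R) (x : G2 R), rho (sq x) = rho x * rho x →
      rho (sq (r • x)) = rho (r • x) * rho (r • x) := by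
    intro r x hx
    rw [hsq] at hx ⊢
    have : rho (r • x) * rho (r • x) = (r * r) • (rho x * rho x) := by
      rw [map_smul, smul_mul_smul_comm]
    rw [this, map_smul, map_smul, hx]
  have hbv : ∀ i, rho (sq (bv R i)) = rho (bv R i) * rho (bv R i) := by
    intro i
    rw [rho_bv]
    have h1 : (bas i).map (Int.cast : ℤ → R) * (bas i).map (Int.cast : ℤ → R) =
        (bas i * bas i).map (Int.cast : ℤ → R) := by
      ext r c
      simp [Matrix.mul_apply]
    have h2 : rho (sq (bv R i)) =
        ∑ k, (coord (rho (bv R i) * rho (bv R i)) k) • (bas k).map (Int.cast : ℤ → R) := rfl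
    rw [h2, rho_bv, h1]
    ext r c
    rw [Matrix.sum_apply, Matrix.map_apply]
    have h3 := bas_sq_mod i r c
    have h4 := int_cast_char_two (R := R) ((bas i * bas i) r c -
      ∑ k, (coord (bas i * bas i) k) * bas k r c)
    rw [h3] at h4
    push_cast at h4
    rw [sub_eq_zero] at h4
    rw [h4]
    apply Finset.sum_congr rfl; intro k _
    rw [coord_map]
    simp
  rw [G2_sum x]
  classical
  induction (Finset.univ : Finset (Fin 14)) using Finset.induction_on with
  | empty =>
    rw [Finset.sum_empty, hsq]; simp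
  | insert a s ha ih =>
    rw [Finset.sum_insert ha]
    exact hadd _ _ (hsmul _ _ (hbv a)) ih

/-! ## Base change from `ℤ` -/

/-- Base change of coefficients `G2 ℤ → G2 R`. -/
def bcG (R : Type*) [CommRing R] : G2 ℤ →+ G2 R where
  toFun x := fun i => ((x i : ℤ) : R)
  map_zero' := by funext i; exact Int.cast_zero
  map_add' x y := by funext i; exact Int.cast_add _ _

theorem bcG_apply (x : G2 ℤ) (i : Fin 14) : bcG R x i = ((x i : ℤ) : R) := rfl

theorem bcG_bv (i : Fin 14) : bcG R (bv ℤ i) = bv R i := by
  funext j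
  show (((Pi.single i (1 : ℤ) : Fin 14 → ℤ) j : ℤ) : R) = (Pi.single i (1 : R) : Fin 14 → R) j
  by_cases h : j = i
  · subst h; simp
  · simp [h]

theorem rho_bcG (x : G2 ℤ) : rho (bcG R x) = (rho x).map (Int.cast : ℤ → R) := by
  show ∑ i, ((x i : ℤ) : R) • (bas i).map (Int.cast : ℤ → R) =
    (∑ i, x i • (bas i).map (Int.cast : ℤ → ℤ)).map (Int.cast : ℤ → R)
  ext r c
  rw [Matrix.sum_apply, Matrix.map_apply, Matrix.sum_apply]
  push_cast
  apply Finset.sum_congr rfl; intro i _
  rw [Matrix.smul_apply, Matrix.smul_apply, Matrix.map_apply, Matrix.map_apply]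
  simp

theorem bcG_lie (x y : G2 ℤ) : bcG R ⁅x, y⁆ = ⁅bcG R x, bcG R y⁆ := by
  apply rho_injective
  rw [rho_lie, rho_bcG, rho_bcG, rho_bcG, rho_lie]
  ext r c
  simp [Matrix.mul_apply]

theorem bcG_form (x y : G2 ℤ) : gform R (bcG R x) (bcG R y) = ((gform ℤ x y : ℤ) : R) := by
  rw [gform_apply, gform_apply]
  push_cast
  simp [bcG_apply]

/-- Base change of the affine Lie algebra, `x_n ↦ x_n`, `c ↦ c`. -/
def bcAff (R : Type*) [CommRing R] : Aff (kappa ℤ) →+ Aff (kappa R) :=
  AddMonoidHom.prodMap (Finsupp.mapRange.addMonoidHom (bcG R)) (Int.castAddHom R)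

theorem bcAff_mode (x : G2 ℤ) (n : ℤ) :
    bcAff R (mode (kappa ℤ) x n) = mode (kappa R) (bcG R x) n := by
  apply Aff.ext
  · exact Finsupp.mapRange_single (hf := map_zero (bcG R))
  · show Int.castAddHom R 0 = 0
    simp

theorem bcAff_cc : bcAff R (cc (kappa ℤ)) = cc (kappa R) := by
  apply Aff.ext
  · exact Finsupp.mapRange_zero (hf := map_zero (bcG R))
  · show Int.castAddHom R 1 = 1
    simp

theorem bcAff_rcc (r : ℤ) : bcAff R (rcc (kappa ℤ) r) = rcc (kappa R) (r : R) := by
  apply Aff.ext
  · exact Finsupp.mapRange_zero (hf := map_zero (bcG R))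
  · rfl

theorem bcAff_lie (a b : Aff (kappa ℤ)) : bcAff R ⁅a, b⁆ = ⁅bcAff R a, bcAff R b⁆ := by
  induction a using Aff.induction' with
  | hadd a a' ha ha' => simp only [add_lie, map_add, ha, ha']
  | hc r => rw [rcc_lie, bcAff_rcc, rcc_lie, map_zero]
  | hm x m =>
  induction b using Aff.induction' with
  | hadd a a' ha ha' => simp only [lie_add, map_add, ha, ha']
  | hc r => rw [lie_rcc, bcAff_rcc, lie_rcc, map_zero]
  | hm y n =>
    rw [mode_lie_mode', map_add, bcAff_rcc, bcAff_mode, bcAff_mode, bcAff_mode, mode_lie_mode',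
      bcG_lie]
    congr 2
    show _ = if m + n = 0 then (m : R) * gform R (bcG R x) (bcG R y) else 0
    rw [bcG_form]
    show ((if m + n = 0 then (m : ℤ) * gform ℤ x y else 0 : ℤ) : R) = _
    split_ifs <;> simp

attribute [local instance 100] LieRing.ofAssociativeRing

/-- Base change of the affine Lie algebra followed by the inclusion in the enveloping algebra. -/
def bcLie (R : Type*) [CommRing R] : Aff (kappa ℤ) →ₗ⁅ℤ⁆ UAff (kappa R) where
  toFun a := iota (kappa R) (bcAff R a)
  map_add' a b := by rw [map_add, map_add]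
  map_smul' r a := by
    rw [map_zsmul, ← Int.cast_smul_eq_zsmul R, map_smul, Int.cast_smul_eq_zsmul]; rfl
  map_lie' {a b} := by rw [bcAff_lie, LieHom.map_lie]

/-- Base change of the enveloping algebra, `U(Aff ℤ) → U(Aff R)`. -/
def bcU (R : Type*) [CommRing R] : UAff (kappa ℤ) →+* UAff (kappa R) :=
  (UniversalEnvelopingAlgebra.lift ℤ (bcLie R)).toRingHom

theorem bcU_iota (a : Aff (kappa ℤ)) : bcU R (iota (kappa ℤ) a) = iota (kappa R) (bcAff R a) :=
  UniversalEnvelopingAlgebra.lift_ι_apply ℤ (bcLie R) a

theorem bcU_xmode (x : G2 ℤ) (n : ℤ) :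
    bcU R (xmode (kappa ℤ) x n) = xmode (kappa R) (bcG R x) n := by
  rw [xmode, bcU_iota, bcAff_mode, xmode]

/-- The Harish-Chandra centre of `V^{-4}(G₂)` over `R` (the critical level is `-h^∨ = -4`):
the `R`-span of the image of the centre of the `ℤ`-form of the vacuum module. -/
def zHC (R : Type*) [CommRing R] : Submodule R (Vac (kappa R) (-4)) :=
  Submodule.span R {v | ∃ u : UAff (kappa ℤ), u • vac (kappa ℤ) (-4) ∈ centre (kappa ℤ) (-4) ∧
    v = bcU R u • vac (kappa R) (-4)}

end CritCentre
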