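import Pool.Agent.Helper43.VA.Defs

/-!
# The Chevalley form of the Lie algebra of type `G₂` over a commutative ring

It is given by 14 explicit integral `7 × 7` matrices (the 7-dimensional representation):
`e₁, …, e₆, f₁, …, f₆, h₁, h₂` with `e₁, f₁, h₁ = [e₁,f₁]` for the short simple root and
`e₂, f₂, h₂ = [e₂,f₂]` for the long one, `e₃ = [e₁,e₂]`, `2 e₄ = [e₁,e₃]`, `3 e₅ = [e₁,e₄]`,
`e₆ = [e₂,e₅]`, `f₃ = [f₂,f₁]`, `2 f₄ = [f₃,f₁]`, `3 f₅ = [f₄,f₁]`, `f₆ = [f₅,f₂]`.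
-/

set_option autoImplicit false

noncomputable section

namespace CritCentre

open Matrix

/-- The Chevalley basis `e₁,…,e₆,f₁,…,f₆,h₁,h₂` as integral `7 × 7` matrices. -/
def bas : Fin 14 → Matrix (Fin 7) (Fin 7) ℤ :=
  ![single 0 1 1 + single 2 3 2 + single 3 4 1 + single 5 6 1,
    single 1 2 1 + single 4 5 1,
    single 0 2 1 + single 1 3 (-2) + single 3 5 1 + single 4 6 (-1),
    single 0 3 (-2) + single 1 4 1 + single 2 5 1 + single 3 6 (-1),
    single 0 4 1 + single 2 6 (-1),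
    single 0 5 (-1) + single 1 6 (-1),
    single 1 0 1 + single 3 2 1 + single 4 3 2 + single 6 5 1,
    single 2 1 1 + single 5 4 1,
    single 2 0 1 + single 3 1 (-1) + single 5 3 2 + single 6 4 (-1),
    single 3 0 (-1) + single 4 1 1 + single 5 2 1 + single 6 3 (-2),
    single 4 0 1 + single 6 2 (-1),
    single 5 0 (-1) + single 6 1 (-1),
    single 0 0 1 + single 1 1 (-1) + single 2 2 2 + single 4 4 (-2) + single 5 5 1 + single 6 6 (-1),
    single 1 1 1 + single 2 2 (-1) + single 4 4 1 + single 5 5 (-1)]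

/-- Coordinates with respect to `bas` of a matrix in its span. -/
def coord {R : Type*} [CommRing R] : Matrix (Fin 7) (Fin 7) R →ₗ[R] (Fin 14 → R) where
  toFun M := ![M 0 1, M 1 2, M 0 2, M 1 4, M 0 4, - M 0 5, M 1 0, M 2 1, M 2 0, M 4 1, M 4 0,
    - M 5 0, M 0 0, M 0 0 + M 1 1]
  map_add' M N := by
    ext i; fin_cases i <;> simp <;> ring
  map_smul' r M := by
    ext i; fin_cases i <;> simp <;> ring

/-- structure constants of the Chevalley basis -/
def scL : Fin 14 → Fin 14 → List (Fin 14 × ℤ) :=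
  ![![[], [(2, 1)], [(3, 2)], [(4, 3)], [], [], [(12, 1)], [], [(7, -3)], [(8, -2)], [(9, -1)], [], [(0, -2)], [(0, 1)]],
    ![[(2, -1)], [], [], [], [(5, 1)], [], [], [(13, 1)], [(6, 1)], [], [], [(10, -1)], [(1, 3)], [(1, -2)]],
    ![[(3, -2)], [], [], [(5, -3)], [], [], [(1, -3)], [(0, 1)], [(12, 1), (13, 3)], [(6, 2)], [], [(9, 1)], [(2, 1)], [(2, -1)]],
    ![[(4, -3)], [], [(5, 3)], [], [], [], [(2, -2)], [], [(0, 2)], [(12, 2), (13, 3)], [(6, 1)], [(8, -1)], [(3, -1)], []],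
    ![[], [(5, -1)], [], [], [], [], [(3, -1)], [], [], [(0, 1)], [(12, 1), (13, 1)], [(7, 1)], [(4, -3)], [(4, 1)]],
    ![[], [], [], [], [], [], [], [(4, -1)], [(3, 1)], [(2, -1)], [(1, 1)], [(12, 1), (13, 2)], [], [(5, -1)]],
    ![[(12, -1)], [], [(1, 3)], [(2, 2)], [(3, 1)], [], [], [(8, -1)], [(9, -2)], [(10, -3)], [], [], [(6, 2)], [(6, -1)]],
    ![[], [(13, -1)], [(0, -1)], [], [], [(4, 1)], [(8, 1)], [], [], [], [(11, -1)], [], [(7, -3)], [(7, 2)]],
    ![[(7, 3)], [(6, -1)], [(12, -1), (13, -3)], [(0, -2)], [], [(3, -1)], [(9, 2)], [], [], [(11, 3)], [], [], [(8, -1)], [(8, 1)]],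
    ![[(8, 2)], [], [(6, -2)], [(12, -2), (13, -3)], [(0, -1)], [(2, 1)], [(10, 3)], [], [(11, -3)], [], [], [], [(9, 1)], []],
    ![[(9, 1)], [], [], [(6, -1)], [(12, -1), (13, -1)], [(1, -1)], [], [(11, 1)], [], [], [], [], [(10, 3)], [(10, -1)]],
    ![[], [(10, 1)], [(9, -1)], [(8, 1)], [(7, -1)], [(12, -1), (13, -2)], [], [], [], [], [], [], [], [(11, 1)]],
    ![[(0, 2)], [(1, -3)], [(2, -1)], [(3, 1)], [(4, 3)], [], [(6, -2)], [(7, 3)], [(8, 1)], [(9, -1)], [(10, -3)], [], [], []],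
    ![[(0, -1)], [(1, 2)], [(2, 1)], [], [(4, -1)], [(5, 1)], [(6, 1)], [(7, -2)], [(8, -1)], [], [(10, 1)], [(11, -1)], [], []]]

theorem bas_comm : ∀ i j r c, (bas i * bas j - bas j * bas i) r c =
    ((scL i j).map (fun p => p.2 * bas p.1 r c)).sum := by decide +kernel

theorem coord_bas : ∀ i k, coord (bas i) k = if i = k then 1 else 0 := by decide +kernel


end CritCentre
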