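import Mathlib

/-!
# MP_b787da_al, module A : a Lie algebra `L = N + P` acts on `U(N)`
-/

set_option autoImplicit false

noncomputable section

namespace CritCentre

attribute [local instance 100] LieRing.ofAssociativeRing

section A

variable {R L : Type*} [CommRing R] [LieRing L] [LieAlgebra R L]

/-- induction principle for the enveloping algebra: left multiplication -/
theorem A_ind {N : Type*} [LieRing N] [LieAlgebra R N]
    {Q : UniversalEnvelopingAlgebra R N → Prop} (h1 : Q 1)
    (hadd : ∀ u v, Q u → Q v → Q (u + v)) (hsmul : ∀ (r : R) u, Q u → Q (r • u))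
    (hmul : ∀ (a : N) u, Q u → Q (UniversalEnvelopingAlgebra.ι R a * u))
    (u : UniversalEnvelopingAlgebra R N) : Q u := by
  let S : Submodule R (UniversalEnvelopingAlgebra R N) :=
    { carrier := {u | Q u}
      add_mem' := fun {a b} ha hb => hadd a b ha hb
      zero_mem' := by
        have := hsmul 0 1 h1
        rwa [zero_smul] at this
      smul_mem' := fun r x hx => hsmul r x hx }
  let T : Subalgebra R (UniversalEnvelopingAlgebra R N) :=
    { carrier := {w | ∀ u ∈ S, w * u ∈ S}
      mul_mem' := fun {a b} ha hb u hu => by rw [mul_assoc]; exact ha _ (hb _ hu)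
      add_mem' := fun {a b} ha hb u hu => by rw [add_mul]; exact S.add_mem (ha _ hu) (hb _ hu)
      algebraMap_mem' := fun r u hu => by rw [← Algebra.smul_def]; exact S.smul_mem r hu }
  let f : N →ₗ⁅R⁆ T :=
    { toFun := fun a => ⟨UniversalEnvelopingAlgebra.ι R a, fun u hu => hmul a u hu⟩
      map_add' := fun a b => by ext; simp
      map_smul' := fun r a => by ext; simp
      map_lie' := fun {a b} => by
        ext
        simp [LieRing.of_associative_ring_bracket] }
  have hcomp : (T.val.comp (UniversalEnvelopingAlgebra.lift R f)) =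
      AlgHom.id R (UniversalEnvelopingAlgebra R N) := by
    apply UniversalEnvelopingAlgebra.hom_ext
    ext a
    show T.val (UniversalEnvelopingAlgebra.lift R f (UniversalEnvelopingAlgebra.ι R a)) = _
    rw [UniversalEnvelopingAlgebra.lift_ι_apply]
    rfl
  have hT : u ∈ T := by
    have := congrArg (fun F : UniversalEnvelopingAlgebra R N →ₐ[R]
      UniversalEnvelopingAlgebra R N => F u) hcomp
    simp only [AlgHom.comp_apply, AlgHom.id_apply] at this
    rw [← this]
    exact Subtype.property _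
  have := hT 1 h1
  rwa [mul_one] at this

variable (N P : LieSubalgebra R L) (pn : L →ₗ[R] N) (pp : L →ₗ[R] P)

/-- the enveloping algebra of `N` -/
abbrev A_U : Type _ := UniversalEnvelopingAlgebra R N

/-- the `N`-module -/
abbrev A_M : Type _ := (P →ₗ[R] UniversalEnvelopingAlgebra R N) × UniversalEnvelopingAlgebra R N

/-- first component of the action -/
def A_first (y : N) (m : A_M N P) : P →ₗ[R] UniversalEnvelopingAlgebra R N where
  toFun x := UniversalEnvelopingAlgebra.ι R y * m.1 x +
    UniversalEnvelopingAlgebra.ι R (pn ⁅(x : L), (y : L)⁆) * m.2 + m.1 (pp ⁅(x : L), (y : L)⁆)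
  map_add' a b := by
    simp only [AddMemClass.coe_add, add_lie, map_add, mul_add, add_mul]
    abel
  map_smul' r a := by
    simp only [SetLike.val_smul, smul_lie, map_smul, mul_smul_comm, smul_mul_assoc,
      RingHom.id_apply, smul_add]

theorem A_first_apply (y : N) (m : A_M N P) (x : P) :
    A_first N P pn pp y m x = UniversalEnvelopingAlgebra.ι R y * m.1 x +
    UniversalEnvelopingAlgebra.ι R (pn ⁅(x : L), (y : L)⁆) * m.2 +
      m.1 (pp ⁅(x : L), (y : L)⁆) := rfl

/-- the action -/
def A_T (y : N) : Module.End R (A_M N P) where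
  toFun m := (A_first N P pn pp y m, UniversalEnvelopingAlgebra.ι R y * m.2)
  map_add' a b := by
    apply Prod.ext
    · ext x
      simp only [Prod.fst_add, LinearMap.add_apply, A_first_apply, Prod.snd_add, mul_add]
      abel
    · simp [mul_add]
  map_smul' r a := by
    apply Prod.ext
    · ext x
      simp only [Prod.smul_fst, LinearMap.smul_apply, A_first_apply, Prod.smul_snd, mul_smul_comm,
        RingHom.id_apply, smul_add]
    · simp

theorem A_T_fst (y : N) (m : A_M N P) : (A_T N P pn pp y m).1 = A_first N P pn pp y m := rfl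
theorem A_T_snd (y : N) (m : A_M N P) :
    (A_T N P pn pp y m).2 = UniversalEnvelopingAlgebra.ι R y * m.2 := rfl

variable (hsum : ∀ l : L, (pn l : L) + (pp l : L) = l) (hnn : ∀ y : N, pn (y : L) = y)
    (hpn : ∀ y : N, pp (y : L) = 0)

include hsum hnn hpn in
theorem A_T_lie (y z : N) : A_T N P pn pp ⁅y, z⁆ =
    A_T N P pn pp y * A_T N P pn pp z - A_T N P pn pp z * A_T N P pn pp y := by
  have hι : ∀ a b : N, UniversalEnvelopingAlgebra.ι R ⁅a, b⁆ =
      UniversalEnvelopingAlgebra.ι R a * UniversalEnvelopingAlgebra.ι R b -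
      UniversalEnvelopingAlgebra.ι R b * UniversalEnvelopingAlgebra.ι R a := by
    intro a b
    rw [LieHom.map_lie, LieRing.of_associative_ring_bracket]
  refine LinearMap.ext fun m => ?_
  apply Prod.ext
  · ext x
    have key : ⁅(x : L), ((⁅y, z⁆ : N) : L)⁆ =
        ((⁅pn ⁅(x : L), (y : L)⁆, z⁆ : N) : L) + ⁅((pp ⁅(x : L), (y : L)⁆ : P) : L), (z : L)⁆ -
        ((⁅pn ⁅(x : L), (z : L)⁆, y⁆ : N) : L) - ⁅((pp ⁅(x : L), (z : L)⁆ : P) : L), (y : L)⁆ := by
      rw [LieSubalgebra.coe_bracket, LieSubalgebra.coe_bracket, LieSubalgebra.coe_bracket,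
        leibniz_lie]
      conv_lhs => rw [← hsum ⁅(x : L), (y : L)⁆, ← hsum ⁅(x : L), (z : L)⁆]
      rw [add_lie, lie_add, ← lie_skew (y : L) (pn ⁅(x : L), (z : L)⁆ : L),
        ← lie_skew (y : L) (pp ⁅(x : L), (z : L)⁆ : L)]
      abel
    have h1 : pn ⁅(x : L), ((⁅y, z⁆ : N) : L)⁆ = ⁅pn ⁅(x : L), (y : L)⁆, z⁆ +
        pn ⁅((pp ⁅(x : L), (y : L)⁆ : P) : L), (z : L)⁆ - ⁅pn ⁅(x : L), (z : L)⁆, y⁆ -
        pn ⁅((pp ⁅(x : L), (z : L)⁆ : P) : L), (y : L)⁆ := by
      rw [key, map_sub, map_sub, map_add, hnn, hnn]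
    have h2 : pp ⁅(x : L), ((⁅y, z⁆ : N) : L)⁆ =
        pp ⁅((pp ⁅(x : L), (y : L)⁆ : P) : L), (z : L)⁆ -
        pp ⁅((pp ⁅(x : L), (z : L)⁆ : P) : L), (y : L)⁆ := by
      rw [key, map_sub, map_sub, map_add, hpn, hpn]
      abel
    simp only [LinearMap.sub_apply, Module.End.mul_apply, Prod.fst_sub, A_T_fst, A_T_snd,
      A_first_apply, LinearMap.sub_apply]
    rw [h1, h2]
    simp only [map_sub, map_add, hι, add_mul, sub_mul, mul_add, mul_assoc]
    abel
  · simp only [LinearMap.sub_apply, Module.End.mul_apply, Prod.snd_sub, A_T_snd]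
    rw [hι, sub_mul, mul_assoc, mul_assoc]

/-- the Lie action of `N` -/
def A_TL : N →ₗ⁅R⁆ Module.End R (A_M N P) where
  toFun := A_T N P pn pp
  map_add' a b := by
    refine LinearMap.ext fun m => ?_
    apply Prod.ext
    · ext x
      simp only [LinearMap.add_apply, Prod.fst_add, A_T_fst, A_first_apply, AddMemClass.coe_add,
        lie_add, map_add, add_mul]
      abel
    · simp [A_T_snd, add_mul]
  map_smul' r a := by
    refine LinearMap.ext fun m => ?_
    apply Prod.ext
    · ext x
      simp only [LinearMap.smul_apply, Prod.smul_fst, A_T_fst, A_first_apply,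
        SetLike.val_smul, lie_smul, map_smul, smul_mul_assoc, RingHom.id_apply, smul_add]
    · simp [A_T_snd]
  map_lie' {a b} := by
    rw [LieRing.of_associative_ring_bracket]
    exact A_T_lie N P pn pp hsum hnn hpn a b

include hsum hnn hpn in
/-- the maps `α(x)` -/
theorem A_exists_alpha (χ : P →ₗ[R] R) :
    ∃ α : P →ₗ[R] Module.End R (UniversalEnvelopingAlgebra R N),
      (∀ x, α x 1 = algebraMap R _ (χ x)) ∧
      ∀ (x : P) (y : N) u, α x (UniversalEnvelopingAlgebra.ι R y * u) =
        UniversalEnvelopingAlgebra.ι R y * α x u +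
        UniversalEnvelopingAlgebra.ι R (pn ⁅(x : L), (y : L)⁆) * u +
        α (pp ⁅(x : L), (y : L)⁆) u := by
  let G : UniversalEnvelopingAlgebra R N →ₐ[R] Module.End R (A_M N P) :=
    UniversalEnvelopingAlgebra.lift R (A_TL N P pn pp hsum hnn hpn)
  let m0 : A_M N P := ((Algebra.linearMap R (UniversalEnvelopingAlgebra R N)).comp χ, 1)
  have hG : ∀ y u, G (UniversalEnvelopingAlgebra.ι R y * u) m0 = A_T N P pn pp y (G u m0) := by
    intro y u
    rw [map_mul, Module.End.mul_apply]
    have : G (UniversalEnvelopingAlgebra.ι R y) = A_T N P pn pp y :=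
      UniversalEnvelopingAlgebra.lift_ι_apply R (A_TL N P pn pp hsum hnn hpn) y
    rw [this]
  have hG2 : ∀ u, (G u m0).2 = u := by
    intro u
    induction u using A_ind with
    | h1 => rw [map_one]; rfl
    | hadd u v hu hv => rw [map_add, LinearMap.add_apply, Prod.snd_add, hu, hv]
    | hsmul r u hu => rw [map_smul, LinearMap.smul_apply, Prod.smul_snd, hu]
    | hmul y u hu => rw [hG, A_T_snd, hu]
  refine ⟨{ toFun := fun x => { toFun := fun u => (G u m0).1 x
                                map_add' := fun u v => by simp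
                                map_smul' := fun r u => by simp }
            map_add' := fun x y => by ext u; simp
            map_smul' := fun r x => by ext u; simp }, ?_, ?_⟩
  · intro x
    show (G 1 m0).1 x = _
    rw [map_one]
    rfl
  · intro x y u
    show (G (UniversalEnvelopingAlgebra.ι R y * u) m0).1 x =
      UniversalEnvelopingAlgebra.ι R y * (G u m0).1 x +
        UniversalEnvelopingAlgebra.ι R (pn ⁅(x : L), (y : L)⁆) * u +
        (G u m0).1 (pp ⁅(x : L), (y : L)⁆)
    rw [hG, A_T_fst, A_first_apply, hG2]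

end A

/-! ## MODULE A : a Lie algebra `L = N ⊕ P` acts on `U(N)` -/
theorem exists_ind {R L : Type*} [CommRing R] [LieRing L] [LieAlgebra R L]
    (N P : LieSubalgebra R L) (pn : L →ₗ[R] N) (pp : L →ₗ[R] P)
    (hsum : ∀ l : L, (pn l : L) + (pp l : L) = l) (hnn : ∀ y : N, pn (y : L) = y)
    (hpn : ∀ y : N, pp (y : L) = 0) (hnp : ∀ x : P, pn (x : L) = 0)
    (hpp : ∀ x : P, pp (x : L) = x) (χ : P →ₗ[R] R) (hχ : ∀ x y : P, χ ⁅x, y⁆ = 0) :
    ∃ F : UniversalEnvelopingAlgebra R L →ₗ[R] UniversalEnvelopingAlgebra R N,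
      F 1 = 1 ∧
      (∀ (y : N) u, F (UniversalEnvelopingAlgebra.ι R (y : L) * u) =
        UniversalEnvelopingAlgebra.ι R y * F u) ∧
      (∀ u (x : P), F (u * UniversalEnvelopingAlgebra.ι R (x : L)) = χ x • F u) := by
  obtain ⟨α, hα1, hα⟩ := A_exists_alpha N P pn pp hsum hnn hpn χ
  have hι : ∀ a b : N, UniversalEnvelopingAlgebra.ι R ⁅a, b⁆ =
      UniversalEnvelopingAlgebra.ι R a * UniversalEnvelopingAlgebra.ι R b -
      UniversalEnvelopingAlgebra.ι R b * UniversalEnvelopingAlgebra.ι R a := by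
    intro a b
    rw [LieHom.map_lie, LieRing.of_associative_ring_bracket]
  -- brackets with elements of `P`
  have hxl : ∀ (x : P) (l : L), pn ⁅(x : L), l⁆ = pn ⁅(x : L), ((pn l : N) : L)⁆ := by
    intro x l
    conv_lhs => rw [← hsum l, lie_add, map_add, ← LieSubalgebra.coe_bracket, hnp, add_zero]
  have hxl' : ∀ (x : P) (l : L), pp ⁅(x : L), l⁆ = pp ⁅(x : L), ((pn l : N) : L)⁆ + ⁅x, pp l⁆ := by
    intro x l
    conv_lhs => rw [← hsum l, lie_add, map_add, ← LieSubalgebra.coe_bracket, hpp]
  -- the relation for `P`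
  have hPP : ∀ (u : UniversalEnvelopingAlgebra R N) (x x' : P),
      α ⁅x, x'⁆ u = α x (α x' u) - α x' (α x u) := by
    intro u
    induction u using A_ind with
    | h1 =>
      intro x x'
      rw [hα1, hα1, hα1, hχ, Algebra.algebraMap_eq_smul_one (χ x), Algebra.algebraMap_eq_smul_one (χ x'),
        map_smul, map_smul, hα1, hα1, Algebra.algebraMap_eq_smul_one, Algebra.algebraMap_eq_smul_one,
        Algebra.algebraMap_eq_smul_one, smul_comm]
      simp
    | hadd u v hu hv =>
      intro x x'
      simp only [map_add, hu, hv]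
      abel
    | hsmul r u hu =>
      intro x x'
      simp only [map_smul, hu, smul_sub]
    | hmul y u hu =>
      intro x x'
      have h1 : pn ⁅((⁅x, x'⁆ : P) : L), (y : L)⁆ = pn ⁅(x : L), ((pn ⁅(x' : L), (y : L)⁆ : N) : L)⁆ -
          pn ⁅(x' : L), ((pn ⁅(x : L), (y : L)⁆ : N) : L)⁆ := by
        rw [LieSubalgebra.coe_bracket, lie_lie, map_sub, hxl x ⁅(x' : L), (y : L)⁆,
          hxl x' ⁅(x : L), (y : L)⁆]
      have h2 : pp ⁅((⁅x, x'⁆ : P) : L), (y : L)⁆ =
          pp ⁅(x : L), ((pn ⁅(x' : L), (y : L)⁆ : N) : L)⁆ + ⁅x, pp ⁅(x' : L), (y : L)⁆⁆ -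
          (pp ⁅(x' : L), ((pn ⁅(x : L), (y : L)⁆ : N) : L)⁆ + ⁅x', pp ⁅(x : L), (y : L)⁆⁆) := by
        rw [LieSubalgebra.coe_bracket, lie_lie, map_sub, hxl' x ⁅(x' : L), (y : L)⁆,
          hxl' x' ⁅(x : L), (y : L)⁆]
      rw [hα, h1, h2]
      simp only [hα, map_add, map_sub, LinearMap.add_apply, LinearMap.sub_apply, hu, mul_sub,
        sub_mul]
      abel
  -- the action of `L`
  let act : L →ₗ⁅R⁆ Module.End R (UniversalEnvelopingAlgebra R N) :=
    { toFun := fun l => LinearMap.mulLeft R (UniversalEnvelopingAlgebra.ι R (pn l)) + α (pp l)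
      map_add' := fun a b => by
        ext u
        simp only [map_add, LinearMap.add_apply, LinearMap.mulLeft_apply, add_mul]
        abel
      map_smul' := fun r a => by
        ext u
        simp [LinearMap.mulLeft_apply]
      map_lie' := fun {a b} => by
        rw [LieRing.of_associative_ring_bracket]
        ext u
        simp only [LinearMap.add_apply, LinearMap.sub_apply, Module.End.mul_apply,
          LinearMap.mulLeft_apply]
        have key : ⁅a, b⁆ = ((⁅pn a, pn b⁆ : N) : L) + ⁅((pp a : P) : L), ((pn b : N) : L)⁆ -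
            ⁅((pp b : P) : L), ((pn a : N) : L)⁆ + ((⁅pp a, pp b⁆ : P) : L) := by
          conv_lhs => rw [← hsum a, ← hsum b]
          rw [add_lie, lie_add, lie_add, LieSubalgebra.coe_bracket, LieSubalgebra.coe_bracket,
            ← lie_skew ((pn a : N) : L) ((pp b : P) : L)]
          abel
        have h1 : pn ⁅a, b⁆ = ⁅pn a, pn b⁆ + pn ⁅((pp a : P) : L), ((pn b : N) : L)⁆ -
            pn ⁅((pp b : P) : L), ((pn a : N) : L)⁆ := by
          rw [key, map_add, map_sub, map_add, hnn, hnp, add_zero]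
        have h2 : pp ⁅a, b⁆ = pp ⁅((pp a : P) : L), ((pn b : N) : L)⁆ -
            pp ⁅((pp b : P) : L), ((pn a : N) : L)⁆ + ⁅pp a, pp b⁆ := by
          rw [key, map_add, map_sub, map_add, hpn, hpp, zero_add]
        rw [h1, h2]
        simp only [map_add, map_sub, LinearMap.add_apply, LinearMap.sub_apply, hPP, hι, hα,
          mul_add, add_mul, sub_mul, mul_assoc]
        abel }
  let G : UniversalEnvelopingAlgebra R L →ₐ[R] Module.End R (UniversalEnvelopingAlgebra R N) :=
    UniversalEnvelopingAlgebra.lift R act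
  have hG : ∀ l, G (UniversalEnvelopingAlgebra.ι R l) = act l := fun l =>
    UniversalEnvelopingAlgebra.lift_ι_apply R act l
  have hact : ∀ l u, act l u = UniversalEnvelopingAlgebra.ι R (pn l) * u + α (pp l) u :=
    fun l u => rfl
  refine ⟨(LinearMap.applyₗ (1 : UniversalEnvelopingAlgebra R N)).comp G.toLinearMap, ?_, ?_, ?_⟩
  · show G 1 1 = 1
    rw [map_one G]
    rfl
  · intro y u
    show G (UniversalEnvelopingAlgebra.ι R (y : L) * u) 1 = _ * G u 1
    rw [map_mul, Module.End.mul_apply, hG, hact, hnn, hpn, map_zero, LinearMap.zero_apply, add_zero]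
  · intro u x
    show G (u * UniversalEnvelopingAlgebra.ι R (x : L)) 1 = χ x • G u 1
    rw [map_mul, Module.End.mul_apply, hG, hact, hnp, hpp, map_zero, zero_mul, zero_add, hα1,
      Algebra.algebraMap_eq_smul_one, map_smul]

end CritCentre
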