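import Pool.Agent.Helper43.VA.Defs2
import Pool.Agent.Helper43.VA.MA

/-!
# MP_b787da_al, module B : existence of symbol maps
-/

set_option autoImplicit false

noncomputable section

namespace CritCentre

attribute [local instance 100] LieRing.ofAssociativeRing

section B

variable {R g : Type*} [CommRing R] [LieRing g] [LieAlgebra R g]

theorem B_fst_apply (B : InvForm R g) (a b : Aff B) (k : ℤ) : (⁅a, b⁆ : Aff B).1 k =
    a.1.sum fun m x => b.1.sum fun n y => if m + n = k then ⁅x, y⁆ else 0 := by
  rw [lie_fst, Finsupp.sum_apply]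
  apply Finsupp.sum_congr
  intro m _
  rw [Finsupp.sum_apply]
  apply Finsupp.sum_congr
  intro n _
  rw [Finsupp.single_apply]

/-- the coefficient of a bracket vanishes when all the products do -/
theorem B_fst_zero (B : InvForm R g) (a b : Aff B) (k : ℤ)
    (h : ∀ m n : ℤ, m + n = k → a.1 m = 0 ∨ b.1 n = 0) : (⁅a, b⁆ : Aff B).1 k = 0 := by
  rw [B_fst_apply]
  apply Finset.sum_eq_zero
  intro m _
  apply Finset.sum_eq_zero
  intro n _
  show (if m + n = k then ⁅a.1 m, b.1 n⁆ else 0) = 0
  split_ifs with hmn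
  · rcases h m n hmn with h1 | h1
    · rw [h1, zero_lie]
    · rw [h1, lie_zero]
  · rfl

theorem B_snd_zero (B : InvForm R g) (a b : Aff B)
    (h : ∀ m : ℤ, m ≠ 0 → a.1 m = 0 ∨ b.1 (-m) = 0) : (⁅a, b⁆ : Aff B).2 = 0 := by
  rw [lie_snd]
  apply Finset.sum_eq_zero
  intro m _
  show (m : R) * B.form (a.1 m) (b.1 (-m)) = 0
  by_cases hm : m = 0
  · rw [hm, Int.cast_zero, zero_mul]
  · rcases h m hm with h1 | h1
    · rw [h1, map_zero, LinearMap.zero_apply, mul_zero]
    · rw [h1, map_zero, mul_zero]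

/-- the negative part of the affine Lie algebra -/
def B_neg (B : InvForm R g) : LieSubalgebra R (Aff B) where
  carrier := {a | a.2 = 0 ∧ ∀ n : ℤ, 0 ≤ n → a.1 n = 0}
  add_mem' {a b} ha hb := ⟨by rw [Aff.add_snd, ha.1, hb.1, add_zero], fun n hn => by
    rw [Aff.add_fst, Finsupp.add_apply, ha.2 n hn, hb.2 n hn, add_zero]⟩
  zero_mem' := ⟨rfl, fun n _ => rfl⟩
  smul_mem' r a ha := ⟨by rw [Aff.smul_snd, ha.1, smul_zero], fun n hn => by
    rw [Aff.smul_fst, Finsupp.smul_apply, ha.2 n hn, smul_zero]⟩
  lie_mem' {a b} ha hb := by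
    refine ⟨B_snd_zero B a b fun m hm => ?_, fun n hn => B_fst_zero B a b n fun i j hij => ?_⟩
    · rcases lt_or_ge m 0 with h | h
      · exact Or.inr (hb.2 _ (by omega))
      · exact Or.inl (ha.2 _ h)
    · rcases lt_or_ge i 0 with h | h
      · exact Or.inr (hb.2 _ (by omega))
      · exact Or.inl (ha.2 _ h)

/-- the non-negative part of the affine Lie algebra -/
def B_pos (B : InvForm R g) : LieSubalgebra R (Aff B) where
  carrier := {a | ∀ n : ℤ, n < 0 → a.1 n = 0}
  add_mem' {a b} ha hb := fun n hn => by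
    rw [Aff.add_fst, Finsupp.add_apply, ha n hn, hb n hn, add_zero]
  zero_mem' := fun n _ => rfl
  smul_mem' r a ha := fun n hn => by
    rw [Aff.smul_fst, Finsupp.smul_apply, ha n hn, smul_zero]
  lie_mem' {a b} ha hb := by
    refine fun n hn => B_fst_zero B a b n fun i j hij => ?_
    rcases lt_or_ge i 0 with h | h
    · exact Or.inl (ha _ h)
    · exact Or.inr (hb _ (by omega))

/-- the projection to the negative part -/
def B_pn (B : InvForm R g) : Aff B →ₗ[R] B_neg B where
  toFun a := ⟨((a.1.filter fun n => n < 0), 0), rfl, fun n hn => by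
    show (a.1.filter fun n => n < 0) n = 0
    rw [Finsupp.filter_apply_neg _ _ (by omega)]⟩
  map_add' a b := by
    apply Subtype.ext
    apply Aff.ext
    · show ((a + b).1.filter fun n => n < 0) = _
      rw [Aff.add_fst, Finsupp.filter_add]
      rfl
    · show (0 : R) = 0 + 0
      rw [add_zero]
  map_smul' r a := by
    apply Subtype.ext
    apply Aff.ext
    · show ((r • a).1.filter fun n => n < 0) = _
      rw [Aff.smul_fst, Finsupp.filter_smul]
      rfl
    · show (0 : R) = r • 0
      rw [smul_zero]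

/-- the projection to the non-negative part -/
def B_pp (B : InvForm R g) : Aff B →ₗ[R] B_pos B where
  toFun a := ⟨((a.1.filter fun n => ¬ n < 0), a.2), fun n hn => by
    show (a.1.filter fun n => ¬ n < 0) n = 0
    rw [Finsupp.filter_apply_neg _ _ (by omega)]⟩
  map_add' a b := by
    apply Subtype.ext
    apply Aff.ext
    · show ((a + b).1.filter fun n => ¬ n < 0) = _
      rw [Aff.add_fst, Finsupp.filter_add]
      rfl
    · rfl
  map_smul' r a := by
    apply Subtype.ext
    apply Aff.ext
    · show ((r • a).1.filter fun n => ¬ n < 0) = _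
      rw [Aff.smul_fst, Finsupp.filter_smul]
      rfl
    · rfl

theorem B_pn_fst (B : InvForm R g) (a : Aff B) :
    (B_pn B a : Aff B).1 = a.1.filter fun n => n < 0 := rfl

theorem B_pn_snd (B : InvForm R g) (a : Aff B) : (B_pn B a : Aff B).2 = 0 := rfl

theorem B_pp_fst (B : InvForm R g) (a : Aff B) :
    (B_pp B a : Aff B).1 = a.1.filter fun n => ¬ n < 0 := rfl

theorem B_pp_snd (B : InvForm R g) (a : Aff B) : (B_pp B a : Aff B).2 = a.2 := rfl

/-- the character of the non-negative part -/
def B_chi (B : InvForm R g) (κ : R) : B_pos B →ₗ[R] R where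
  toFun a := κ * (a : Aff B).2
  map_add' a b := by
    show κ * ((a : Aff B) + (b : Aff B)).2 = _
    rw [Aff.add_snd, mul_add]
  map_smul' r a := by
    show κ * (r • (a : Aff B)).2 = r * (κ * _)
    rw [Aff.smul_snd, smul_eq_mul]
    ring

/-- the symbol on the negative part -/
def B_f {A : Type*} [CommRing A] [Algebra R A] (B : InvForm R g) (X : g →ₗ[R] A) :
    B_neg B →ₗ⁅R⁆ A where
  toFun a := X ((a : Aff B).1 (-1))
  map_add' a b := by
    show X (((a : Aff B) + (b : Aff B)).1 (-1)) = _
    rw [Aff.add_fst, Finsupp.add_apply, map_add]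
  map_smul' r a := by
    show X ((r • (a : Aff B)).1 (-1)) = _
    rw [Aff.smul_fst, Finsupp.smul_apply, map_smul]
    rfl
  map_lie' {a b} := by
    show X ((⁅(a : Aff B), (b : Aff B)⁆ : Aff B).1 (-1)) = _
    rw [B_fst_zero, map_zero, LieRing.of_associative_ring_bracket, mul_comm, sub_self]
    intro m n hmn
    rcases lt_or_ge m 0 with h | h
    · exact Or.inr (b.2.2 _ (by omega))
    · exact Or.inl (a.2.2 _ h)

theorem B_mode_neg (B : InvForm R g) (x : g) (n : ℤ) (hn : n < 0) : mode B x n ∈ B_neg B := by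
  refine ⟨rfl, fun m hm => ?_⟩
  rw [mode_fst, Finsupp.single_apply, if_neg (by omega)]

theorem B_mode_pos (B : InvForm R g) (x : g) (n : ℤ) (hn : 0 ≤ n) : mode B x n ∈ B_pos B := by
  intro m hm
  rw [mode_fst, Finsupp.single_apply, if_neg (by omega)]

theorem B_cc_pos (B : InvForm R g) : cc B ∈ B_pos B := by
  intro m hm
  rw [cc_fst]; rfl

end B

theorem exists_symbol {R g A : Type*} [CommRing R] [LieRing g] [LieAlgebra R g] [CommRing A]
    [Algebra R A] (B : InvForm R g) (κ : R) (X : g →ₗ[R] A) :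
    ∃ Φ : Vac B κ →ₗ[R] A, IsSymbol B κ X Φ := by
  obtain ⟨F, hF1, hFN, hFP⟩ := exists_ind (B_neg B) (B_pos B) (B_pn B) (B_pp B)
    (fun l => by
      apply Aff.ext
      · rw [Aff.add_fst, B_pn_fst, B_pp_fst, Finsupp.filter_add_filter_not]
      · rw [Aff.add_snd, B_pn_snd, B_pp_snd, zero_add])
    (fun y => by
      apply Subtype.ext
      apply Aff.ext
      · rw [B_pn_fst, Finsupp.filter_eq_self_iff]
        intro n hn
        by_contra h
        exact hn (y.2.2 n (by omega))
      · rw [B_pn_snd, y.2.1])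
    (fun y => by
      apply Subtype.ext
      apply Aff.ext
      · rw [B_pp_fst]
        show _ = (0 : ℤ →₀ g)
        rw [Finsupp.filter_eq_zero_iff]
        intro n hn
        exact y.2.2 n (by omega)
      · rw [B_pp_snd, y.2.1]; rfl)
    (fun x => by
      apply Subtype.ext
      apply Aff.ext
      · rw [B_pn_fst]
        show _ = (0 : ℤ →₀ g)
        rw [Finsupp.filter_eq_zero_iff]
        intro n hn
        exact x.2 n hn
      · rfl)
    (fun x => by
      apply Subtype.ext
      apply Aff.ext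
      · rw [B_pp_fst, Finsupp.filter_eq_self_iff]
        intro n hn h
        exact hn (x.2 n h)
      · rfl)
    (B_chi B κ)
    (fun x y => by
      show κ * (⁅(x : Aff B), (y : Aff B)⁆ : Aff B).2 = 0
      rw [B_snd_zero, mul_zero]
      intro m hm
      rcases lt_or_ge m 0 with h | h
      · exact Or.inl (x.2 _ h)
      · exact Or.inr (y.2 _ (by omega)))
  let Λ : UniversalEnvelopingAlgebra R (B_neg B) →ₐ[R] A :=
    UniversalEnvelopingAlgebra.lift R (B_f B X)
  let Φ0 : UAff B →ₗ[R] A := Λ.toLinearMap ∘ₗ F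
  have hΦ0 : ∀ u, Φ0 u = Λ (F u) := fun u => rfl
  have hkill : ∀ u ∈ vacIdeal B κ, ∀ w, Φ0 (w * u) = 0 := by
    intro u hu
    induction hu using Submodule.span_induction with
    | mem u hu =>
      intro w
      rcases hu with ⟨x, n, rfl⟩ | hu
      · have h1 := hFP w ⟨mode B x n, B_mode_pos B x n (by omega)⟩
        have h2 : B_chi B κ ⟨mode B x n, B_mode_pos B x n (by omega)⟩ = 0 := by
          show κ * (mode B x n).2 = 0
          rw [mode_snd, mul_zero]
        rw [h2, zero_smul] at h1
        rw [hΦ0]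
        have h3 : F (w * xmode B x n) = 0 := h1
        rw [h3, map_zero]
      · rw [Set.mem_singleton_iff] at hu
        have h1 := hFP w ⟨cc B, B_cc_pos B⟩
        have h2 : B_chi B κ ⟨cc B, B_cc_pos B⟩ = κ := by
          show κ * (cc B).2 = κ
          rw [cc_snd, mul_one]
        rw [h2] at h1
        have h3 : F (w * iota B (cc B)) = κ • F w := h1
        have h4 : w * algebraMap R (UAff B) κ = κ • w := by
          rw [Algebra.smul_def, Algebra.commutes]
        rw [hΦ0, hu, mul_sub, map_sub, h3, h4, map_smul, sub_self, map_zero]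
    | zero => intro w; rw [mul_zero, map_zero]
    | add u v _ _ hu hv => intro w; rw [mul_add, map_add, hu, hv, add_zero]
    | smul a u _ hu => intro w; rw [smul_eq_mul, ← mul_assoc]; exact hu _
  obtain ⟨Φ, hΦ⟩ := exists_lift B κ Φ0 (fun u hu => by
    have := hkill u hu 1
    rwa [one_mul] at this)
  have hneg : ∀ (x : g) (n : ℤ), n < 0 → ∀ v : Vac B κ,
      Φ (xmode B x n • v) = X ((Finsupp.single n x : ℤ →₀ g) (-1)) * Φ v := by
    intro x n hn v
    obtain ⟨u, rfl⟩ := vac_surj B κ v
    rw [smul_smul, hΦ, hΦ, hΦ0, hΦ0]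
    have h1 : F (xmode B x n * u) =
        UniversalEnvelopingAlgebra.ι R (⟨mode B x n, B_mode_neg B x n hn⟩ : B_neg B) * F u :=
      hFN ⟨mode B x n, B_mode_neg B x n hn⟩ u
    rw [h1, map_mul]
    congr 1
    show UniversalEnvelopingAlgebra.lift R (B_f B X) (UniversalEnvelopingAlgebra.ι R _) = _
    rw [UniversalEnvelopingAlgebra.lift_ι_apply]
    rfl
  refine ⟨Φ, ?_, fun x v => ?_, fun x m v => ?_⟩
  · have := hΦ 1
    rw [one_smul] at this
    rw [this, hΦ0, hF1, map_one]
  · rw [hneg x (-1) (by omega), Finsupp.single_eq_same]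
  · rw [hneg x _ (by omega), Finsupp.single_apply, if_neg (by omega), map_zero, zero_mul]

end CritCentre
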