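import Pool.Agent.Helper43.VA.Defs2

/-!
# MP_b787da_al, module D : properties of symbol maps
-/

set_option autoImplicit false

noncomputable section

namespace CritCentre

attribute [local instance 100] LieRing.ofAssociativeRing

theorem D_one {R g A : Type*} [CommRing R] [LieRing g] [LieAlgebra R g] [CommRing A]
    [Algebra R A] {B : InvForm R g} {κ : R} {X : g →ₗ[R] A} {Φ : Vac B κ →ₗ[R] A}
    (hΦ : IsSymbol B κ X Φ) (x : g) (v : Vac B κ) :
    Φ (xmode B x (-(((0 : ℕ) : ℤ) + 1)) • v) = X x * Φ v := by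
  have h := hΦ.one x v
  have e : -(((0 : ℕ) : ℤ) + 1) = -1 := by norm_num
  rwa [e]

theorem D_two {R g A : Type*} [CommRing R] [LieRing g] [LieAlgebra R g] [CommRing A]
    [Algebra R A] {B : InvForm R g} {κ : R} {X : g →ₗ[R] A} {Φ : Vac B κ →ₗ[R] A}
    (hΦ : IsSymbol B κ X Φ) (x : g) (m : ℕ) (v : Vac B κ) :
    Φ (xmode B x (-(((m + 1 : ℕ) : ℤ) + 1)) • v) = 0 := by
  have h := hΦ.two x m v
  have e : -(((m + 1 : ℕ) : ℤ) + 1) = -((m : ℤ) + 2) := by push_cast; ring
  rwa [e]

theorem symbol_nat {R g A A' : Type*} [CommRing R] [LieRing g] [LieAlgebra R g] [CommRing A]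
    [Algebra R A] [CommRing A'] [Algebra R A'] (B : InvForm R g) (κ : R) (X : g →ₗ[R] A)
    (Φ : Vac B κ →ₗ[R] A) (hΦ : IsSymbol B κ X Φ) (ψ : A →ₐ[R] A') (Φ' : Vac B κ →ₗ[R] A')
    (hΦ' : IsSymbol B κ (ψ.toLinearMap ∘ₗ X) Φ') (v : Vac B κ) : Φ' v = ψ (Φ v) := by
  induction v using Vac.induction with
  | h0 => rw [hΦ.vac, hΦ'.vac, map_one]
  | hadd v w hv hw => rw [map_add, map_add, map_add, hv, hw]
  | hsmul r v hv => rw [map_smul, map_smul, map_smul, hv]
  | hmode x m v hv =>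
    cases m with
    | zero =>
      rw [D_one hΦ, D_one hΦ', map_mul, hv]
      rfl
    | succ m => rw [D_two hΦ, D_two hΦ', map_zero]

theorem symbol_deriv {R g A : Type*} [CommRing R] [LieRing g] [LieAlgebra R g] [CommRing A]
    [Algebra R A] (B : InvForm R g) (κ : R) (X : g →ₗ[R] A) (Φ : Vac B κ →ₗ[R] A)
    (hΦ : IsSymbol B κ X Φ) (D : Derivation R A A) (x : g) (hD : ∀ y : g, D (X y) = X ⁅x, y⁆)
    (v : Vac B κ) : Φ (xmode B x 0 • v) = D (Φ v) := by
  induction v using Vac.induction with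
  | h0 =>
    have h := xmode_vac' B κ x 0 le_rfl
    rw [h, map_zero, hΦ.vac, Derivation.map_one_eq_zero]
  | hadd v w hv hw => rw [smul_add, map_add, map_add, map_add, hv, hw]
  | hsmul r v hv =>
    have h1 : xmode B x 0 • r • v = r • xmode B x 0 • v := smul_comm _ _ _
    have h2 : Φ (r • xmode B x 0 • v) = r • Φ (xmode B x 0 • v) := LinearMap.map_smul Φ r _
    have h3 : Φ (r • v) = r • Φ v := LinearMap.map_smul Φ r _
    rw [h1, h2, h3, Derivation.map_smul, hv]
  | hmode y m v hv =>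
    have h0 : (0 : ℤ) + -((m : ℤ) + 1) ≠ 0 := by omega
    rw [xmode_comm, if_neg h0, zero_smul, add_zero, zero_add, map_add]
    cases m with
    | zero =>
      rw [D_one hΦ, D_one hΦ, D_one hΦ, Derivation.leibniz, hv, hD, smul_eq_mul, smul_eq_mul,
        mul_comm (Φ v)]
    | succ m => rw [D_two hΦ, D_two hΦ, D_two hΦ, map_zero, add_zero]

theorem symbol_mul {R g A : Type*} [CommRing R] [LieRing g] [LieAlgebra R g] [CommRing A]
    [Algebra R A] (B : InvForm R g) (κ : R) (X : g →ₗ[R] A) (Φ : Vac B κ →ₗ[R] A)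
    (hΦ : IsSymbol B κ X Φ) (u : UAff B) (b : Vac B κ) (hb : b ∈ centre B κ) :
    Φ (u • b) = Φ (u • vac B κ) * Φ b := by
  obtain ⟨F, hF⟩ := exists_endo B κ b hb
  have key : ∀ v : Vac B κ, Φ (F v) = Φ v * Φ b := by
    intro v
    induction v using Vac.induction with
    | h0 =>
      have h := hF 1
      rw [one_smul, one_smul] at h
      rw [h, hΦ.vac, one_mul]
    | hadd v w hv hw => rw [map_add, map_add, map_add, hv, hw, add_mul]
    | hsmul r v hv =>
      have h : F (r • v) = r • F v := by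
        rw [← algebraMap_smul (UAff B) r v, ← algebraMap_smul (UAff B) r (F v), map_smul]
      rw [h, map_smul, map_smul, hv, smul_mul_assoc]
    | hmode x m v hv =>
      rw [map_smul]
      cases m with
      | zero => rw [D_one hΦ, D_one hΦ, hv, mul_assoc]
      | succ m => rw [D_two hΦ, D_two hΦ, zero_mul]
  rw [← hF, key]

end CritCentre
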