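import Pool.Agent.Helper43.VA.Defs2

/-!
# MP_b787da_al : module E, the translation operators
-/

set_option autoImplicit false

noncomputable section

namespace CritCentre

attribute [local instance 100] LieRing.ofAssociativeRing

variable {R g : Type*} [CommRing R] [LieRing g] [LieAlgebra R g]

theorem vae_trans_iota (B : InvForm R g) (a : Aff B) (k : ℕ) :
    PowerSeries.coeff k (trans B (iota B a)) = iota B (transL B k a) := by
  have h : trans B (iota B a) = transLie B a :=
    UniversalEnvelopingAlgebra.lift_ι_apply R (transLie B) a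
  rw [h]
  show PowerSeries.coeff k (PowerSeries.mk fun k => iota B (transL B k a)) = _
  rw [PowerSeries.coeff_mk]

theorem vae_trans_xmode (B : InvForm R g) (x : g) (n : ℤ) (k : ℕ) :
    PowerSeries.coeff k (trans B (xmode B x n)) =
      ((-1) ^ k * Ring.choose n k : ℤ) • xmode B x (n - k) := by
  rw [xmode, vae_trans_iota, transL_mode, map_zsmul]
  rfl

theorem vae_transL_zero (B : InvForm R g) (a : Aff B) : transL B 0 a = a := by
  induction a using Aff.induction with
  | hadd a b ha hb => rw [map_add, ha, hb]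
  | hm x n => rw [transL_mode]; simp
  | hc r => rw [map_smul, transL_cc, if_pos rfl]

theorem vae_trans_mul (B : InvForm R g) (u w : UAff B) (k : ℕ) :
    PowerSeries.coeff k (trans B (u * w)) = ∑ p ∈ Finset.HasAntidiagonal.antidiagonal k,
      PowerSeries.coeff p.1 (trans B u) * PowerSeries.coeff p.2 (trans B w) := by
  rw [map_mul, PowerSeries.coeff_mul]

theorem vae_trans_zero (B : InvForm R g) (u : UAff B) :
    PowerSeries.coeff 0 (trans B u) = u := by
  induction u using UAff.induction with
  | h1 => rw [map_one]; simp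
  | hadd u v hu hv => rw [map_add, map_add, hu, hv]
  | hsmul r u hu => rw [map_smul, LinearMap.map_smul_of_tower, hu]
  | hmul a u hu =>
    rw [vae_trans_mul]
    simp [hu, vae_trans_iota, vae_transL_zero]

theorem vae_ideal (B : InvForm R g) (κ : R) (u : UAff B) (hu : u ∈ vacIdeal B κ) :
    ∀ k : ℕ, PowerSeries.coeff k (trans B u) • vac B κ = 0 := by
  induction hu using Submodule.span_induction with
  | mem u hu =>
    intro k
    rcases hu with ⟨x, n, rfl⟩ | hu
    · rw [vae_trans_xmode, smul_assoc]
      rcases le_or_gt k n with h | h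
      · rw [xmode_vac' B κ x _ (by omega), smul_zero]
      · rw [Ring.choose_natCast, Nat.choose_eq_zero_of_lt h]
        simp
    · rw [Set.mem_singleton_iff] at hu
      subst hu
      rw [map_sub, map_sub, sub_smul, vae_trans_iota, transL_cc, AlgHom.commutes]
      rcases Nat.eq_zero_or_pos k with hk | hk
      · subst hk
        rw [if_pos rfl, iota_cc_smul, PowerSeries.algebraMap_apply, PowerSeries.coeff_zero_C,
          algebraMap_smul, sub_self]
      · rw [if_neg hk.ne', map_zero, zero_smul, PowerSeries.algebraMap_apply,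
          PowerSeries.coeff_C, if_neg hk.ne', zero_smul, sub_zero]
  | zero => intro k; rw [map_zero, map_zero, zero_smul]
  | add u v _ _ hu hv => intro k; rw [map_add, map_add, add_smul, hu, hv, add_zero]
  | smul a u _ hu =>
    intro k
    rw [smul_eq_mul, vae_trans_mul, Finset.sum_smul]
    apply Finset.sum_eq_zero
    intro p _
    rw [mul_smul, hu, smul_zero]

theorem exists_T {R g : Type*} [CommRing R] [LieRing g] [LieAlgebra R g]
    (B : InvForm R g) (κ : R) : ∃ T : ℕ → (Vac B κ →ₗ[R] Vac B κ),
      (∀ (u : UAff B) (k : ℕ), T k (u • vac B κ) = PowerSeries.coeff k (trans B u) • vac B κ) ∧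
      (∀ v, T 0 v = v) ∧ (∀ k, 1 ≤ k → T k (vac B κ) = 0) ∧
      (∀ (k : ℕ) (x : g) (n : ℤ) (v : Vac B κ), T k (xmode B x n • v) =
        ∑ p ∈ Finset.HasAntidiagonal.antidiagonal k,
          ((-1) ^ p.1 * Ring.choose n p.1 : ℤ) • (xmode B x (n - p.1) • T p.2 v)) := by
  have h : ∀ k : ℕ, ∃ F : Vac B κ →ₗ[R] Vac B κ, ∀ u : UAff B, F (u • vac B κ) =
      PowerSeries.coeff k (trans B u) • vac B κ := by
    intro k
    let f : UAff B →ₗ[R] Vac B κ :=
      { toFun := fun u => PowerSeries.coeff k (trans B u) • vac B κ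
        map_add' := fun u v => by rw [map_add, map_add, add_smul]
        map_smul' := fun r u => by
          rw [map_smul, LinearMap.map_smul_of_tower, smul_assoc]; rfl }
    exact exists_lift B κ f (fun u hu => vae_ideal B κ u hu k)
  choose T hT using h
  refine ⟨T, fun u k => hT k u, ?_, ?_, ?_⟩
  · intro v
    obtain ⟨u, rfl⟩ := vac_surj B κ v
    rw [hT, vae_trans_zero]
  · intro k hk
    have h1 := hT k 1
    rw [one_smul, map_one, PowerSeries.coeff_one, if_neg (by omega), zero_smul] at h1
    exact h1
  · intro k x n v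
    obtain ⟨u, rfl⟩ := vac_surj B κ v
    rw [smul_smul, hT, vae_trans_mul, Finset.sum_smul]
    apply Finset.sum_congr rfl
    intro p _
    rw [vae_trans_xmode, hT]
    generalize ((-1) ^ p.1 * Ring.choose n p.1 : ℤ) = c
    rw [smul_mul_assoc, smul_assoc, mul_smul]

theorem vae_T_central (B : InvForm R g) (κ : R) (T : ℕ → (Vac B κ →ₗ[R] Vac B κ))
    (hT : ∀ (k : ℕ) (x : g) (n : ℤ) (v : Vac B κ), T k (xmode B x n • v) =
        ∑ p ∈ Finset.HasAntidiagonal.antidiagonal k,
          ((-1) ^ p.1 * Ring.choose n p.1 : ℤ) • (xmode B x (n - p.1) • T p.2 v))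
    (v : Vac B κ) (hv : v ∈ centre B κ) (k : ℕ) : T k v ∈ centre B κ := by
  induction k using Nat.strong_induction_on with
  | _ k ih =>
    intro x n
    have h := hT k x n v
    rw [hv x n, map_zero] at h
    rw [Finset.sum_eq_single ((0, k) : ℕ × ℕ)] at h
    · simpa using h.symm
    · rintro ⟨i, j⟩ hp hne
      have hij : i + j = k := Finset.HasAntidiagonal.mem_antidiagonal.1 hp
      have hi : i ≠ 0 := by
        rintro rfl
        exact hne (by simp at hij; rw [hij])
      dsimp only
      rcases le_or_gt i n with h1 | h1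
      · obtain ⟨m, hm⟩ := Int.eq_ofNat_of_zero_le (a := (n : ℤ) - i) (by omega)
        have := ih j (by omega) x m
        rw [hm, this, smul_zero]
      · rw [Ring.choose_natCast, Nat.choose_eq_zero_of_lt h1]
        simp
    · intro hn
      exact absurd (Finset.HasAntidiagonal.mem_antidiagonal.2 (by simp)) hn

theorem centre_trans {R g : Type*} [CommRing R] [LieRing g] [LieAlgebra R g]
    (B : InvForm R g) (κ : R) (u : UAff B) (hu : u • vac B κ ∈ centre B κ) (k : ℕ) :
    PowerSeries.coeff k (trans B u) • vac B κ ∈ centre B κ := by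
  obtain ⟨T, h1, _, _, h4⟩ := exists_T B κ
  rw [← h1]
  exact vae_T_central B κ T h4 _ hu k

theorem symbol_trans {R g A : Type*} [CommRing R] [LieRing g] [LieAlgebra R g] [CommRing A]
    [Algebra R A] (B : InvForm R g) (κ : R) (X : g →ₗ[R] A) (Φ : Vac B κ →ₗ[R] A)
    (hΦ : IsSymbol B κ X Φ) (u : UAff B) (k : ℕ) (hk : 1 ≤ k) :
    Φ (PowerSeries.coeff k (trans B u) • vac B κ) = 0 := by
  obtain ⟨T, h1, _, h3, h4⟩ := exists_T B κ
  rw [← h1]
  have key : ∀ v : Vac B κ, ∀ k, 1 ≤ k → Φ (T k v) = 0 := by
    intro v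
    induction v using Vac.induction with
    | h0 => intro k hk; rw [h3 k hk, map_zero]
    | hadd v w hv hw => intro k hk; rw [map_add, map_add, hv k hk, hw k hk, add_zero]
    | hsmul r v hv => intro k hk; rw [map_smul, map_smul, hv k hk, smul_zero]
    | hmode x m v hv =>
      intro k hk
      rw [h4, map_sum]
      apply Finset.sum_eq_zero
      rintro ⟨i, j⟩ hp
      have hij : i + j = k := Finset.HasAntidiagonal.mem_antidiagonal.1 hp
      dsimp only
      rw [map_zsmul]
      rcases Nat.eq_zero_or_pos i with hi | hi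
      · subst hi
        have hj : j = k := by omega
        subst hj
        rcases Nat.eq_zero_or_pos m with hm | hm
        · subst hm
          have e : (-((((0 : ℕ) : ℤ)) + 1) - ((0 : ℕ) : ℤ)) = -1 := by norm_num
          rw [e, hΦ.one, hv j hk, mul_zero, smul_zero]
        · obtain ⟨l, rfl⟩ : ∃ l, m = l + 1 := ⟨m - 1, by omega⟩
          have e : (-((((l + 1 : ℕ) : ℤ)) + 1) - ((0 : ℕ) : ℤ)) = -((l : ℤ) + 2) := by
            push_cast; ring
          rw [e, hΦ.two, smul_zero]
      · obtain ⟨l, hl⟩ : ∃ l : ℕ, l + 1 = m + i := ⟨m + i - 1, by omega⟩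
        have e : (-(((m : ℤ)) + 1) - (i : ℤ)) = -((l : ℤ) + 2) := by
          have : (l : ℤ) + 1 = m + i := by exact_mod_cast hl
          linarith
        rw [e, hΦ.two, smul_zero]
  exact key _ k hk

end CritCentre
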