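import Pool.Agent.Helper43.VA.Defs2

/-!
# MP_b787da_al : module F, the 2-centre
-/

set_option autoImplicit false

noncomputable section

namespace CritCentre

attribute [local instance 100] LieRing.ofAssociativeRing

theorem G2_sq_lie {R : Type*} [CommRing R] [CharP R 2] (x y : G2 R) :
    ⁅sq x, y⁆ = ⁅x, ⁅x, y⁆⁆ := by
  apply rho_injective
  rw [rho_lie, rho_lie, rho_lie, rho_sq]
  have h2 : ∀ M : Matrix (Fin 7) (Fin 7) R, M + M = 0 := by
    intro M
    ext i j
    exact CharTwo.add_self_eq_zero _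
  have h3 : rho x * (rho x * rho y - rho y * rho x) - (rho x * rho y - rho y * rho x) * rho x =
      rho x * rho x * rho y - rho y * (rho x * rho x) +
        (rho y * (rho x * rho x) + rho y * (rho x * rho x)) -
        (rho x * rho y * rho x + rho x * rho y * rho x) := by
    simp only [mul_sub, sub_mul, mul_assoc]
    abel
  rw [h3, h2, h2, add_zero, sub_zero]

theorem vaf_two {R : Type*} [CommRing R] [CharP R 2] {M : Type*} [AddCommGroup M] [Module R M]
    (u : M) : u + u = 0 := by
  rw [← two_smul R u, CharTwo.two_eq_zero, zero_smul]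

theorem vaf_comm_mode {R g : Type*} [CommRing R] [CharP R 2] [LieRing g] [LieAlgebra R g]
    (B : InvForm R g) (x x2 : g) (hx : ∀ y : g, ⁅x2, y⁆ = ⁅x, ⁅x, y⁆⁆) (n : ℤ) (y : g) (m : ℤ) :
    (xmode B x n ^ 2 - xmode B x2 (n * 2)) * xmode B y m =
      xmode B y m * (xmode B x n ^ 2 - xmode B x2 (n * 2)) := by
  have e1 := xmode_mul B x y n m
  have e2 := xmode_mul B x ⁅x, y⁆ n (n + m)
  have e3 := xmode_mul B x2 y (n * 2) m
  have hB : B.form x ⁅x, y⁆ = 0 := by rw [← B.inv, lie_self, map_zero, LinearMap.zero_apply]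
  rw [hB, mul_zero, ite_self, zero_smul, add_zero] at e2
  have h2 : (((n * 2 : ℤ) : R)) = 0 := by
    push_cast
    rw [CharTwo.two_eq_zero, mul_zero]
  rw [h2, zero_mul, ite_self, zero_smul, add_zero, hx] at e3
  set α : R := if n + m = 0 then (n : R) * B.form x y else 0 with hα
  have hc : α • iota B (cc B) * xmode B x n = xmode B x n * (α • iota B (cc B)) := by
    rw [smul_mul_assoc, mul_smul_comm, iota_cc_comm]
  have h4 : xmode B x n ^ 2 * xmode B y m = xmode B y m * xmode B x n ^ 2 +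
      xmode B ⁅x, ⁅x, y⁆⁆ (n * 2 + m) +
      (xmode B ⁅x, y⁆ (n + m) * xmode B x n + xmode B ⁅x, y⁆ (n + m) * xmode B x n) +
      (xmode B x n * (α • iota B (cc B)) + xmode B x n * (α • iota B (cc B))) := by
    have e4 : n + (n + m) = n * 2 + m := by ring
    rw [e4] at e2
    calc xmode B x n ^ 2 * xmode B y m = xmode B x n * (xmode B x n * xmode B y m) := by
          rw [pow_two, mul_assoc]
      _ = (xmode B x n * xmode B y m) * xmode B x n + xmode B x n * xmode B ⁅x, y⁆ (n + m) +
          xmode B x n * (α • iota B (cc B)) := by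
          rw [e1, mul_add, mul_add, ← mul_assoc, ← e1]
      _ = _ := by
          rw [e1, e2, add_mul, add_mul, hc, pow_two, mul_assoc]
          abel
  rw [vaf_two (R := R), vaf_two (R := R), add_zero, add_zero] at h4
  rw [sub_mul, mul_sub, h4, e3]
  abel

theorem pz_comm {R g : Type*} [CommRing R] [CharP R 2] [LieRing g] [LieAlgebra R g]
    (B : InvForm R g) (x x2 : g) (hx : ∀ y : g, ⁅x2, y⁆ = ⁅x, ⁅x, y⁆⁆) (n : ℤ) (w : UAff B) :
    (xmode B x n ^ 2 - xmode B x2 (n * 2)) * w = w * (xmode B x n ^ 2 - xmode B x2 (n * 2)) := by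
  induction w using UAff.induction with
  | h1 => rw [mul_one, one_mul]
  | hadd u v hu hv => rw [mul_add, add_mul, hu, hv]
  | hsmul r u hu => rw [mul_smul_comm, smul_mul_assoc, hu]
  | hmul a u hu =>
    have key : (xmode B x n ^ 2 - xmode B x2 (n * 2)) * iota B a =
        iota B a * (xmode B x n ^ 2 - xmode B x2 (n * 2)) := by
      induction a using Aff.induction with
      | hadd a b ha hb => rw [map_add, mul_add, add_mul, ha, hb]
      | hm y m => exact vaf_comm_mode B x x2 hx n y m
      | hc r => rw [map_smul, mul_smul_comm, smul_mul_assoc, iota_cc_comm]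
    rw [← mul_assoc, key, mul_assoc, hu, mul_assoc]

theorem pz_central {R g : Type*} [CommRing R] [CharP R 2] [LieRing g] [LieAlgebra R g]
    (B : InvForm R g) (κ : R) (x x2 : g) (hx : ∀ y : g, ⁅x2, y⁆ = ⁅x, ⁅x, y⁆⁆) (n : ℤ) :
    (xmode B x n ^ 2 - xmode B x2 (n * 2)) • vac B κ ∈ centre B κ := by
  intro y m
  rw [smul_smul, ← pz_comm B x x2 hx, mul_smul, xmode_vac, smul_zero]

theorem pz_symbol {R g A : Type*} [CommRing R] [LieRing g] [LieAlgebra R g] [CommRing A]
    [Algebra R A] (B : InvForm R g) (κ : R) (X : g →ₗ[R] A) (Φ : Vac B κ →ₗ[R] A)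
    (hΦ : IsSymbol B κ X Φ) (x x2 : g) (n : ℤ) :
    Φ ((xmode B x n ^ 2 - xmode B x2 (n * 2)) • vac B κ) = if n = -1 then X x * X x else 0 := by
  rw [sub_smul, pow_two, mul_smul, map_sub]
  rcases le_or_gt 0 n with h | h
  · rw [xmode_vac' B κ x n h, smul_zero, xmode_vac' B κ x2 (n * 2) (by omega), map_zero, sub_zero,
      if_neg (by omega)]
  · have h2 : Φ (xmode B x2 (n * 2) • vac B κ) = 0 := by
      obtain ⟨m, hm⟩ := Int.eq_ofNat_of_zero_le (a := -(n * 2) - 2) (by omega)
      have : n * 2 = -((m : ℤ) + 2) := by omega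
      rw [this]
      exact hΦ.two x2 m _
    rw [h2, sub_zero]
    by_cases h1 : n = -1
    · subst h1
      rw [hΦ.one, hΦ.one, hΦ.vac, mul_one, if_pos rfl]
    · rw [if_neg h1]
      obtain ⟨m, hm⟩ := Int.eq_ofNat_of_zero_le (a := -n - 2) (by omega)
      have : n = -((m : ℤ) + 2) := by omega
      rw [this]
      exact hΦ.two x m _

end CritCentre
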