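import Pool.Agent.Helper43.VA.Defs2

/-!
# MP_b787da_al, module G : linear algebra for the Harish-Chandra part
-/

set_option autoImplicit false

noncomputable section

namespace CritCentre

open MvPolynomial

variable {R : Type*} [CommRing R]

private theorem G_der1 (P : MvPolynomial (Fin 4) R) :
    der1 R P = X 2 * (-2 * pderiv 0 P) + X 2 * pderiv 1 P + X 0 * pderiv 3 P := by
  have h : der1 R = ((-2 * X 2 : MvPolynomial (Fin 4) R) • pderiv 0 +
      (X 2 : MvPolynomial (Fin 4) R) • pderiv 1 + (X 0 : MvPolynomial (Fin 4) R) • pderiv 3 :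
      Derivation R (MvPolynomial (Fin 4) R) (MvPolynomial (Fin 4) R)) := by
    apply MvPolynomial.derivation_ext
    intro i
    fin_cases i <;>
      simp [der1, mkDerivation_X, pderiv_X, Derivation.add_apply,
        Derivation.smul_apply]
  rw [h]
  simp only [Derivation.add_apply, Derivation.smul_apply, smul_eq_mul]
  ring

private theorem G_der2 (P : MvPolynomial (Fin 4) R) :
    der2 R P = X 2 * (3 * pderiv 0 P) + X 2 * (-2 * pderiv 1 P) + X 1 * pderiv 3 P := by
  have h : der2 R = ((3 * X 2 : MvPolynomial (Fin 4) R) • pderiv 0 +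
      (-2 * X 2 : MvPolynomial (Fin 4) R) • pderiv 1 +
      (X 1 : MvPolynomial (Fin 4) R) • pderiv 3 :
      Derivation R (MvPolynomial (Fin 4) R) (MvPolynomial (Fin 4) R)) := by
    apply MvPolynomial.derivation_ext
    intro i
    fin_cases i <;>
      simp [der2, mkDerivation_X, pderiv_X, Derivation.add_apply,
        Derivation.smul_apply]
  rw [h]
  simp only [Derivation.add_apply, Derivation.smul_apply, smul_eq_mul]
  ring

private theorem G_mon0 (a b c d : ℕ) : mon a b c d 0 = a := by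
  simp [mon]
private theorem G_mon1 (a b c d : ℕ) : mon a b c d 1 = b := by
  simp [mon]
private theorem G_mon3 (a b c d : ℕ) : mon a b c d 3 = d := by
  simp [mon]

private theorem G_p0 (P : MvPolynomial (Fin 4) R) (a b c d : ℕ) :
    coeff (mon a b c d) (pderiv 0 P) = coeff (mon (a + 1) b c d) P * (a + 1) := by
  have h : mon a b c d + Finsupp.single 0 1 = mon (a + 1) b c d := by
    simp only [mon, Finsupp.single_add]; abel
  rw [coeff_pderiv, h, G_mon0]

private theorem G_p1 (P : MvPolynomial (Fin 4) R) (a b c d : ℕ) :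
    coeff (mon a b c d) (pderiv 1 P) = coeff (mon a (b + 1) c d) P * (b + 1) := by
  have h : mon a b c d + Finsupp.single 1 1 = mon a (b + 1) c d := by
    simp only [mon, Finsupp.single_add]; abel
  rw [coeff_pderiv, h, G_mon1]

private theorem G_p3 (P : MvPolynomial (Fin 4) R) (a b c d : ℕ) :
    coeff (mon a b c d) (pderiv 3 P) = coeff (mon a b c (d + 1)) P * (d + 1) := by
  have h : mon a b c d + Finsupp.single 3 1 = mon a b c (d + 1) := by
    simp only [mon, Finsupp.single_add]; abel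
  rw [coeff_pderiv, h, G_mon3]

private theorem G_X2 (P : MvPolynomial (Fin 4) R) (a b c d : ℕ) :
    coeff (mon a b (c + 1) d) (X 2 * P) = coeff (mon a b c d) P := by
  have h : mon a b (c + 1) d = Finsupp.single 2 1 + mon a b c d := by
    simp only [mon, Finsupp.single_add]; abel
  rw [h, coeff_X_mul]

private theorem G_X0 (P : MvPolynomial (Fin 4) R) (a b c d : ℕ) :
    coeff (mon (a + 1) b c d) (X 0 * P) = coeff (mon a b c d) P := by
  have h : mon (a + 1) b c d = Finsupp.single 0 1 + mon a b c d := by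
    simp only [mon, Finsupp.single_add]; abel
  rw [h, coeff_X_mul]

private theorem G_X1 (P : MvPolynomial (Fin 4) R) (a b c d : ℕ) :
    coeff (mon a (b + 1) c d) (X 1 * P) = coeff (mon a b c d) P := by
  have h : mon a (b + 1) c d = Finsupp.single 1 1 + mon a b c d := by
    simp only [mon, Finsupp.single_add]; abel
  rw [h, coeff_X_mul]

private theorem G_X0z (P : MvPolynomial (Fin 4) R) (b c d : ℕ) :
    coeff (mon 0 b c d) (X 0 * P) = 0 := by
  rw [coeff_X_mul', if_neg]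
  simp [G_mon0]

private theorem G_X1z (P : MvPolynomial (Fin 4) R) (a c d : ℕ) :
    coeff (mon a 0 c d) (X 1 * P) = 0 := by
  rw [coeff_X_mul', if_neg]
  simp [G_mon1]

private theorem G_num (P : MvPolynomial (Fin 4) R) (m : Fin 4 →₀ ℕ) :
    coeff m (-2 * P) = -2 * coeff m P ∧ coeff m (3 * P) = 3 * coeff m P := by
  have h2 : (-2 * P : MvPolynomial (Fin 4) R) = C (-2) * P := by
    rw [map_neg, map_ofNat]
  have h3 : (3 * P : MvPolynomial (Fin 4) R) = C 3 * P := by
    rw [map_ofNat]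
  rw [h2, h3, coeff_C_mul, coeff_C_mul]
  exact ⟨rfl, rfl⟩

private theorem G_c1 (P : MvPolynomial (Fin 4) R) (a b d : ℕ) :
    coeff (mon a b 1 d) (X 2 * (-2 * pderiv 0 P)) + coeff (mon a b 1 d) (X 2 * pderiv 1 P) =
      -2 * (coeff (mon (a + 1) b 0 d) P * (a + 1)) + coeff (mon a (b + 1) 0 d) P * (b + 1) := by
  rw [G_X2, G_X2, (G_num _ _).1, G_p0, G_p1]

private theorem G_c2 (P : MvPolynomial (Fin 4) R) (a b d : ℕ) :
    coeff (mon a b 1 d) (X 2 * (3 * pderiv 0 P)) +
      coeff (mon a b 1 d) (X 2 * (-2 * pderiv 1 P)) =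
      3 * (coeff (mon (a + 1) b 0 d) P * (a + 1)) - 2 * (coeff (mon a (b + 1) 0 d) P * (b + 1)) := by
  rw [G_X2, G_X2, (G_num _ _).1, (G_num _ _).2, G_p0, G_p1]
  ring

/-! ## MODULE G : linear algebra for the Harish-Chandra part -/
theorem hc_linear {R : Type*} [CommRing R] [IsDomain R] [CharZero R]
    (P Q : MvPolynomial (Fin 4) R) (hP : der1 R P = 0) (hQ : der2 R Q = 0)
    (hPQ : ∀ a b, MvPolynomial.coeff (mon a b 0 0) P = MvPolynomial.coeff (mon a b 0 0) Q)
    (a b : ℕ) (hab : a + b = 1 ∨ a + b = 3) : MvPolynomial.coeff (mon a b 0 0) P = 0 := by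
  have e1 : ∀ m, coeff m (X 2 * (-2 * pderiv 0 P)) + coeff m (X 2 * pderiv 1 P) +
      coeff m (X 0 * pderiv 3 P) = 0 := by
    intro m
    rw [← coeff_add, ← coeff_add, ← G_der1, hP, coeff_zero]
  have e2 : ∀ m, coeff m (X 2 * (3 * pderiv 0 Q)) + coeff m (X 2 * (-2 * pderiv 1 Q)) +
      coeff m (X 1 * pderiv 3 Q) = 0 := by
    intro m
    rw [← coeff_add, ← coeff_add, ← G_der2, hQ, coeff_zero]
  -- degree one
  have a1 := e1 (mon 0 0 1 0)
  rw [G_c1, G_X0z] at a1
  have a2 := e2 (mon 0 0 1 0)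
  rw [G_c2, G_X1z, ← hPQ, ← hPQ] at a2
  -- degree three
  have b1 := e1 (mon 2 0 1 0)
  rw [G_c1, G_X0, G_p3] at b1
  have b2 := e1 (mon 1 1 1 0)
  rw [G_c1, G_X0, G_p3] at b2
  have b3 := e1 (mon 0 2 1 0)
  rw [G_c1, G_X0z] at b3
  have b4 := e1 (mon 0 0 2 1)
  rw [G_X2, G_X2, (G_num _ _).1, G_p0, G_p1, G_X0z] at b4
  have c1 := e2 (mon 2 0 1 0)
  rw [G_c2, G_X1z, ← hPQ, ← hPQ] at c1
  have c2 := e2 (mon 1 1 1 0)
  rw [G_c2, G_X1, G_p3, ← hPQ, ← hPQ] at c2
  have c3 := e2 (mon 0 2 1 0)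
  rw [G_c2, G_X1, G_p3, ← hPQ, ← hPQ] at c3
  have c4 := e2 (mon 0 0 2 1)
  rw [G_X2, G_X2, (G_num _ _).1, (G_num _ _).2, G_p0, G_p1, G_X1z] at c4
  simp only [Nat.cast_zero, Nat.cast_one, Nat.cast_ofNat, zero_add] at a1 a2 b1 b2 b3 b4 c1 c2 c3 c4
  have six : (6 : R) ≠ 0 := by exact_mod_cast (show (6 : ℕ) ≠ 0 by norm_num)
  have two : (2 : R) ≠ 0 := by exact_mod_cast (show (2 : ℕ) ≠ 0 by norm_num)
  have three : (3 : R) ≠ 0 := by exact_mod_cast (show (3 : ℕ) ≠ 0 by norm_num)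
  have ten : (10 : R) ≠ 0 := by exact_mod_cast (show (10 : ℕ) ≠ 0 by norm_num)
  have x10 : coeff (mon 1 0 0 0) P = 0 := by
    linear_combination -a2 - 2 * a1
  have x01 : coeff (mon 0 1 0 0) P = 0 := by
    linear_combination a1 + 2 * x10
  have x30 : coeff (mon 3 0 0 0) P = 0 := by
    apply (mul_eq_zero.1 _).resolve_left six
    linear_combination -(c4 - 3 * c2 + 2 * c3 + 4 * b3 - 5 * (b2 - b4 - 2 * b1) + 6 * c1)
  have x21 : coeff (mon 2 1 0 0) P = 0 := by
    apply (mul_eq_zero.1 _).resolve_left two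
    linear_combination 9 * x30 - c1
  have x12 : coeff (mon 1 2 0 0) P = 0 := by
    apply (mul_eq_zero.1 _).resolve_left ten
    linear_combination 18 * x21 + (c4 - 3 * c2 + 2 * c3 + 4 * b3)
  have x03 : coeff (mon 0 3 0 0) P = 0 := by
    apply (mul_eq_zero.1 _).resolve_left three
    linear_combination b3 + 2 * x12
  rcases hab with h | h
  · have h' : (a = 1 ∧ b = 0) ∨ (a = 0 ∧ b = 1) := by omega
    rcases h' with ⟨rfl, rfl⟩ | ⟨rfl, rfl⟩
    · exact x10
    · exact x01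
  · have h' : (a = 3 ∧ b = 0) ∨ (a = 2 ∧ b = 1) ∨ (a = 1 ∧ b = 2) ∨ (a = 0 ∧ b = 3) := by omega
    rcases h' with ⟨rfl, rfl⟩ | ⟨rfl, rfl⟩ | ⟨rfl, rfl⟩ | ⟨rfl, rfl⟩
    · exact x30
    · exact x21
    · exact x12
    · exact x03

end CritCentre
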