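import Pool.Agent.Helper43.VA.MB
import Pool.Agent.Helper43.VA.MG
import Pool.Agent.Helper43.VA.MD


/-!
# MP_b787da_al, module H : the Harish-Chandra part
-/

set_option autoImplicit false

noncomputable section

namespace CritCentre

attribute [local instance 100] LieRing.ofAssociativeRing

open MvPolynomial

variable {R : Type*} [CommRing R]

/-- projection of `G2 R` to the Cartan subalgebra and the root vectors of index `i`, `j` -/
def H_X (R : Type*) [CommRing R] (i j : Fin 14) : G2 R →ₗ[R] MvPolynomial (Fin 4) R where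
  toFun x := C (x 12) * X 0 + C (x 13) * X 1 + C (x i) * X 2 + C (x j) * X 3
  map_add' x y := by
    show C (x 12 + y 12) * X 0 + C (x 13 + y 13) * X 1 + C (x i + y i) * X 2 +
      C (x j + y j) * X 3 = _
    rw [C_add, C_add, C_add, C_add]; ring
  map_smul' r x := by
    show C (r * x 12) * X 0 + C (r * x 13) * X 1 + C (r * x i) * X 2 + C (r * x j) * X 3 = _
    rw [C_mul, C_mul, C_mul, C_mul, RingHom.id_apply, smul_eq_C_mul]; ring

theorem H_X_apply (i j : Fin 14) (x : G2 R) : H_X R i j x =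
    C (x 12) * X 0 + C (x 13) * X 1 + C (x i) * X 2 + C (x j) * X 3 := rfl

theorem H_bv (i j : Fin 14) : bv R i j = if j = i then 1 else 0 := by
  show (Pi.single i (1 : R) : Fin 14 → R) j = _
  rw [Pi.single_apply]

theorem H_X_bv (i j l : Fin 14) : H_X R i j (bv R l) =
    (if 12 = l then X 0 else 0) + (if 13 = l then X 1 else 0) + (if i = l then X 2 else 0) +
      (if j = l then X 3 else 0) := by
  rw [H_X_apply, H_bv, H_bv, H_bv, H_bv]
  congr 1
  · congr 1
    · congr 1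
      · split_ifs <;> simp
      · split_ifs <;> simp
    · split_ifs <;> simp
  · split_ifs <;> simp

theorem H_lin {f g : G2 R →ₗ[R] MvPolynomial (Fin 4) R} (h : ∀ i, f (bv R i) = g (bv R i))
    (x : G2 R) : f x = g x := by
  rw [G2_sum x, map_sum, map_sum]
  refine Finset.sum_congr rfl fun i _ => ?_
  rw [map_smul, map_smul, h]

theorem H_der1 (y : G2 R) : der1 R (H_X R 0 6 y) = H_X R 0 6 ⁅bv R 0, y⁆ := by
  have h := H_lin (f := (der1 R).toLinearMap ∘ₗ H_X R 0 6)
    (g := H_X R 0 6 ∘ₗ (LieAlgebra.ad R (G2 R) (bv R 0))) ?_ y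
  · exact h
  · intro i
    rw [LinearMap.comp_apply, LinearMap.comp_apply, LieAlgebra.ad_apply, lie_bv, H_X_bv]
    have e : ∀ p, (der1 R).toLinearMap p = der1 R p := fun p => rfl
    rw [e]
    fin_cases i <;>
      simp [scL, H_X_bv, der1, mkDerivation_X, MvPolynomial.smul_eq_C_mul] <;>
      exact (map_ofNat C _).symm

theorem H_der2 (y : G2 R) : der2 R (H_X R 1 7 y) = H_X R 1 7 ⁅bv R 1, y⁆ := by
  have h := H_lin (f := (der2 R).toLinearMap ∘ₗ H_X R 1 7)
    (g := H_X R 1 7 ∘ₗ (LieAlgebra.ad R (G2 R) (bv R 1))) ?_ y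
  · exact h
  · intro i
    rw [LinearMap.comp_apply, LinearMap.comp_apply, LieAlgebra.ad_apply, lie_bv, H_X_bv]
    have e : ∀ p, (der2 R).toLinearMap p = der2 R p := fun p => rfl
    rw [e]
    fin_cases i <;>
      simp [scL, H_X_bv, der2, mkDerivation_X, MvPolynomial.smul_eq_C_mul] <;>
      exact (map_ofNat C _).symm

/-- restriction to the Cartan subalgebra -/
def H_psi (R : Type*) [CommRing R] : MvPolynomial (Fin 4) R →ₐ[R] MvPolynomial (Fin 2) R :=
  aeval ![X 0, X 1, 0, 0]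

theorem H_psi_apply (i j : Fin 14) (x : G2 R) : H_psi R (H_X R i j x) = XH R x := by
  have e : XH R x = C (x 12) * X 0 + C (x 13) * X 1 := rfl
  have hC : ∀ r : R, H_psi R (C r) = C r := fun r => by rw [H_psi, aeval_C, algebraMap_eq]
  have h0 : H_psi R (X 0) = X 0 := by rw [H_psi, aeval_X]; rfl
  have h1 : H_psi R (X 1) = X 1 := by rw [H_psi, aeval_X]; rfl
  have h2 : H_psi R (X 2) = 0 := by rw [H_psi, aeval_X]; rfl
  have h3 : H_psi R (X 3) = 0 := by rw [H_psi, aeval_X]; rfl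
  rw [H_X_apply, e, map_add, map_add, map_add, map_mul, map_mul, map_mul, map_mul, h0, h1, h2, h3,
    hC, hC, mul_zero, mul_zero, add_zero, add_zero]

theorem H_psi_X (i j : Fin 14) : (H_psi R).toLinearMap ∘ₗ H_X R i j = XH R :=
  LinearMap.ext fun x => H_psi_apply i j x

theorem H_coeff (P : MvPolynomial (Fin 4) R) (m : Fin 2 →₀ ℕ) :
    coeff m (H_psi R P) = coeff (mon (m 0) (m 1) 0 0) P := by
  induction P using MvPolynomial.induction_on' with
  | add p q hp hq => rw [map_add, coeff_add, coeff_add, hp, hq]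
  | monomial u a =>
    rw [H_psi, aeval_monomial, coeff_monomial]
    have hprod : (u.prod fun i k => (![X 0, X 1, 0, 0] : Fin 4 → MvPolynomial (Fin 2) R) i ^ k) =
        X 0 ^ u 0 * X 1 ^ u 1 * 0 ^ u 2 * 0 ^ u 3 := by
      rw [Finsupp.prod_fintype _ _ (fun i => pow_zero _), Fin.prod_univ_four]
      rfl
    rw [hprod]
    have hmon : (u = mon (m 0) (m 1) 0 0) ↔ (u 0 = m 0 ∧ u 1 = m 1 ∧ u 2 = 0 ∧ u 3 = 0) := by
      constructor
      · intro h
        rw [h]
        simp [mon]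
      · rintro ⟨h0, h1, h2, h3⟩
        ext i
        fin_cases i <;> simp [mon, h0, h1, h2, h3]
    by_cases h2 : u 2 = 0
    · by_cases h3 : u 3 = 0
      · rw [h2, h3, pow_zero, mul_one, mul_one]
        have hX : (X 0 ^ u 0 * X 1 ^ u 1 : MvPolynomial (Fin 2) R) =
            monomial (Finsupp.single 0 (u 0) + Finsupp.single 1 (u 1)) 1 := by
          rw [X_pow_eq_monomial, X_pow_eq_monomial, monomial_mul, one_mul]
        rw [hX, algebraMap_eq, coeff_C_mul, coeff_monomial]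
        have hiff : (Finsupp.single (0 : Fin 2) (u 0) + Finsupp.single 1 (u 1) = m) ↔
            (u 0 = m 0 ∧ u 1 = m 1) := by
          constructor
          · intro h
            rw [← h]
            simp
          · rintro ⟨h0, h1⟩
            ext i
            fin_cases i <;> simp [h0, h1]
        by_cases h : u 0 = m 0 ∧ u 1 = m 1
        · rw [if_pos (hiff.2 h), if_pos (hmon.2 ⟨h.1, h.2, h2, h3⟩), mul_one]
        · rw [if_neg (fun h' => h (hiff.1 h')),
            if_neg (fun h' => h ⟨(hmon.1 h').1, (hmon.1 h').2.1⟩), mul_zero]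
      · rw [zero_pow h3, mul_zero, mul_zero, coeff_zero, if_neg (fun h' => h3 (hmon.1 h').2.2.2)]
    · rw [zero_pow h2, mul_zero, zero_mul, mul_zero, coeff_zero,
        if_neg (fun h' => h2 (hmon.1 h').2.2.1)]

theorem hc_symbol {R : Type*} [CommRing R] [IsDomain R] [CharZero R] (κ : R)
    (Φ : Vac (kappa R) κ →ₗ[R] MvPolynomial (Fin 2) R) (hΦ : IsSymbol (kappa R) κ (XH R) Φ)
    (v : Vac (kappa R) κ) (hv : v ∈ centre (kappa R) κ) : NoOdd (Φ v) := by
  obtain ⟨Φ₁, h₁⟩ := exists_symbol (kappa R) κ (H_X R 0 6)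
  obtain ⟨Φ₂, h₂⟩ := exists_symbol (kappa R) κ (H_X R 1 7)
  have hx : ∀ x : G2 R, xmode (kappa R) x 0 • v = 0 := fun x => by
    have := hv x 0
    rwa [Nat.cast_zero] at this
  have hP : der1 R (Φ₁ v) = 0 := by
    rw [← symbol_deriv (kappa R) κ _ Φ₁ h₁ (der1 R) (bv R 0) H_der1, hx, map_zero]
  have hQ : der2 R (Φ₂ v) = 0 := by
    rw [← symbol_deriv (kappa R) κ _ Φ₂ h₂ (der2 R) (bv R 1) H_der2, hx, map_zero]
  have e₁ : Φ v = H_psi R (Φ₁ v) := symbol_nat (kappa R) κ _ Φ₁ h₁ (H_psi R) Φ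
    (by rw [H_psi_X]; exact hΦ) v
  have e₂ : Φ v = H_psi R (Φ₂ v) := symbol_nat (kappa R) κ _ Φ₂ h₂ (H_psi R) Φ
    (by rw [H_psi_X]; exact hΦ) v
  have hPQ : ∀ a b, coeff (mon a b 0 0) (Φ₁ v) = coeff (mon a b 0 0) (Φ₂ v) := by
    intro a b
    have h1 := H_coeff (Φ₁ v) (Finsupp.single 0 a + Finsupp.single 1 b)
    have h2 := H_coeff (Φ₂ v) (Finsupp.single 0 a + Finsupp.single 1 b)
    have ea : ((Finsupp.single 0 a + Finsupp.single 1 b : Fin 2 →₀ ℕ)) 0 = a := by simp
    have eb : ((Finsupp.single 0 a + Finsupp.single 1 b : Fin 2 →₀ ℕ)) 1 = b := by simp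
    rw [ea, eb] at h1 h2
    rw [← h1, ← h2, ← e₁, ← e₂]
  intro m hm
  rw [e₁, H_coeff]
  exact hc_linear (Φ₁ v) (Φ₂ v) hP hQ hPQ _ _ hm

end CritCentre
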