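import Pool.Agent.Helper43.VA.Defs2

/-!
# Base change of central vectors and of symbols
-/

set_option autoImplicit false

noncomputable section

namespace CritCentre

attribute [local instance 100] LieRing.ofAssociativeRing

theorem I_bcU_alg (R : Type*) [CommRing R] (r : ℤ) :
    bcU R (algebraMap ℤ (UAff (kappa ℤ)) r) = algebraMap R (UAff (kappa R)) (r : R) := by
  rw [map_intCast]
  have h1 : ∀ r : ℤ, algebraMap ℤ (UAff (kappa ℤ)) r = (r : UAff (kappa ℤ)) := fun r =>
    eq_intCast (algebraMap ℤ (UAff (kappa ℤ))) r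
  rw [h1, map_intCast]

theorem I_smul {S g : Type*} [CommRing S] [LieRing g] [LieAlgebra S g] (B : InvForm S g) (κ : S)
    (r : S) (u : UAff B) : r • (u • vac B κ) = (algebraMap S (UAff B) r * u) • vac B κ := by
  rw [mul_smul, algebraMap_smul]

theorem I_bcU_mem (R : Type*) [CommRing R] (w : UAff (kappa ℤ))
    (hw : w ∈ vacIdeal (kappa ℤ) (-4)) : bcU R w ∈ vacIdeal (kappa R) (-4) := by
  refine Submodule.span_induction
    (p := fun w _ => bcU R w ∈ vacIdeal (kappa R) (-4)) ?_ ?_ ?_ ?_ hw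
  · rintro u (⟨x, n, rfl⟩ | hu)
    · rw [bcU_xmode]
      exact Submodule.subset_span (Or.inl ⟨_, n, rfl⟩)
    · rw [Set.mem_singleton_iff] at hu
      rw [hu, map_sub, bcU_iota, bcAff_cc]
      have : bcU R (algebraMap ℤ (UAff (kappa ℤ)) (-4)) = algebraMap R (UAff (kappa R)) (-4) := by
        rw [I_bcU_alg]
        norm_num
      rw [this]
      exact Submodule.subset_span (Or.inr rfl)
  · rw [map_zero]; exact Submodule.zero_mem _
  · intro x y _ _ hx hy
    rw [map_add]; exact Submodule.add_mem _ hx hy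
  · intro a x _ hx
    rw [smul_eq_mul, map_mul]
    exact Submodule.smul_mem _ _ hx

theorem bc_vac (R : Type*) [CommRing R] (u u' : UAff (kappa ℤ))
    (h : u • vac (kappa ℤ) (-4) = u' • vac (kappa ℤ) (-4)) :
    bcU R u • vac (kappa R) (-4) = bcU R u' • vac (kappa R) (-4) := by
  rw [smul_vac_eq] at h ⊢
  rw [← map_sub]
  exact I_bcU_mem R _ h

/-- the map `x ↦ x_n v` -/
def I_modeMap (R : Type*) [CommRing R] (n : ℤ) (v : Vac (kappa R) (-4)) :
    G2 R →ₗ[R] Vac (kappa R) (-4) where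
  toFun x := xmode (kappa R) x n • v
  map_add' x y := by rw [xmode_add, add_smul]
  map_smul' r x := by rw [xmode_smul, smul_assoc, RingHom.id_apply]

theorem bc_centre (R : Type*) [CommRing R] (u : UAff (kappa ℤ))
    (h : u • vac (kappa ℤ) (-4) ∈ centre (kappa ℤ) (-4)) :
    bcU R u • vac (kappa R) (-4) ∈ centre (kappa R) (-4) := by
  intro x n
  have key : ∀ i, I_modeMap R n (bcU R u • vac (kappa R) (-4)) (bv R i) = 0 := by
    intro i
    show xmode (kappa R) (bv R i) n • bcU R u • vac (kappa R) (-4) = 0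
    have h1 : xmode (kappa R) (bv R i) n = bcU R (xmode (kappa ℤ) (bv ℤ i) n) := by
      rw [bcU_xmode, bcG_bv]
    have h2 : (xmode (kappa ℤ) (bv ℤ i) n * u) • vac (kappa ℤ) (-4) =
        (0 : UAff (kappa ℤ)) • vac (kappa ℤ) (-4) := by
      rw [mul_smul, zero_smul]
      exact h (bv ℤ i) n
    have h3 := bc_vac R _ _ h2
    rw [map_mul, map_zero, zero_smul, mul_smul] at h3
    rw [h1, h3]
  show I_modeMap R n (bcU R u • vac (kappa R) (-4)) x = 0
  rw [G2_sum x, map_sum]
  exact Finset.sum_eq_zero fun i _ => by rw [map_smul, key, smul_zero]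

theorem I_XH (R : Type*) [CommRing R] (x : G2 ℤ) :
    XH R (bcG R x) = MvPolynomial.map (Int.castRingHom R) (XH ℤ x) := by
  have h : ∀ (S : Type _) [CommRing S] (y : G2 S), XH S y =
      MvPolynomial.C (y 12) * MvPolynomial.X 0 + MvPolynomial.C (y 13) * MvPolynomial.X 1 :=
    fun _ _ _ => rfl
  have h' : XH ℤ x =
      MvPolynomial.C (x 12) * MvPolynomial.X 0 + MvPolynomial.C (x 13) * MvPolynomial.X 1 := rfl
  rw [h, h', map_add, map_mul, map_mul, MvPolynomial.map_C, MvPolynomial.map_C, MvPolynomial.map_X,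
    MvPolynomial.map_X, bcG_apply, bcG_apply]
  rfl

theorem bc_symbol (R : Type*) [CommRing R] {ΦZ : _}
    (hZ : IsSymbol (kappa ℤ) (-4) (XH ℤ) ΦZ) {ΦR : _} (hR : IsSymbol (kappa R) (-4) (XH R) ΦR)
    (u : UAff (kappa ℤ)) : ΦR (bcU R u • vac (kappa R) (-4)) =
      MvPolynomial.map (Int.castRingHom R) (ΦZ (u • vac (kappa ℤ) (-4))) := by
  have key : ∀ v : Vac (kappa ℤ) (-4), ∀ u : UAff (kappa ℤ), u • vac (kappa ℤ) (-4) = v →
      ΦR (bcU R u • vac (kappa R) (-4)) = MvPolynomial.map (Int.castRingHom R) (ΦZ v) := by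
    intro v
    induction v using Vac.induction with
    | h0 =>
      intro u hu
      have h1 : u • vac (kappa ℤ) (-4) = (1 : UAff (kappa ℤ)) • vac (kappa ℤ) (-4) := by
        rw [hu, one_smul]
      rw [bc_vac R _ _ h1, map_one, one_smul, hR.vac, hZ.vac, map_one]
    | hadd v w hv hw =>
      intro u hu
      obtain ⟨u1, rfl⟩ := vac_surj _ _ v
      obtain ⟨u2, rfl⟩ := vac_surj _ _ w
      have h1 : u • vac (kappa ℤ) (-4) = (u1 + u2) • vac (kappa ℤ) (-4) := by
        rw [hu, add_smul]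
      rw [bc_vac R _ _ h1, map_add, add_smul, map_add, hv u1 rfl, hw u2 rfl, map_add, map_add]
    | hsmul r v hv =>
      intro u hu
      obtain ⟨u1, rfl⟩ := vac_surj _ _ v
      rw [LinearMap.map_smul]
      have h1 : u • vac (kappa ℤ) (-4) =
          (algebraMap ℤ (UAff (kappa ℤ)) r * u1) • vac (kappa ℤ) (-4) := by
        rw [hu, ← I_smul]
      rw [bc_vac R _ _ h1, map_mul, I_bcU_alg, ← I_smul, LinearMap.map_smul, hv u1 rfl,
        MvPolynomial.smul_eq_C_mul, MvPolynomial.smul_eq_C_mul, map_mul, MvPolynomial.map_C]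
      rfl
    | hmode x m v hv =>
      intro u hu
      obtain ⟨u1, rfl⟩ := vac_surj _ _ v
      have h1 : u • vac (kappa ℤ) (-4) =
          (xmode (kappa ℤ) x (-(m + 1)) * u1) • vac (kappa ℤ) (-4) := by
        rw [hu, mul_smul]
      rw [bc_vac R _ _ h1, map_mul, mul_smul, bcU_xmode]
      rcases m with _ | m
      · have e : (-(((0 : ℕ) : ℤ) + 1)) = -1 := by norm_num
        rw [e, hR.one, hZ.one, hv u1 rfl, map_mul, I_XH]
      · have e : (-(((m + 1 : ℕ) : ℤ) + 1)) = -((m : ℤ) + 2) := by push_cast; ring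
        rw [e, hR.two, hZ.two, map_zero]
  exact key _ u rfl

end CritCentre
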