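import Pool.Agent.Helper43.VA.Defs2

/-!
# The new central vector
-/

set_option autoImplicit false

noncomputable section

namespace CritCentre

attribute [local instance 100] LieRing.ofAssociativeRing

/-- the odd structure constants -/
def sc2 (i j : Fin 14) : List (Fin 14) :=
  ((scL i j).filter (fun p => decide (p.2 % 2 ≠ 0))).map Prod.fst

/-- order of letters: by mode, then by index -/
def leq (a b : Fin 14 × ℤ) : Bool :=
  decide (a.2 < b.2) || (decide (a.2 = b.2) && decide (a.1 ≤ b.1))

/-- normal form (up to fuel) of a letter times an ordered word, in characteristic 2 and level 0 -/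
def ins : ℕ → (Fin 14 × ℤ) → List (Fin 14 × ℤ) → List (List (Fin 14 × ℤ))
  | 0, a, w => [a :: w]
  | _ + 1, a, [] => if 0 ≤ a.2 then [] else [[a]]
  | n + 1, a, b :: w => if decide (a.2 < 0) && leq a b then [a :: b :: w] else
      (ins n a w).flatMap (ins n b) ++ (sc2 a.1 b.1).flatMap (fun k => ins n (k, a.2 + b.2) w)

/-- all normal forms occurring in `(b_i)_n` times the new vector -/
def insF (i : Fin 14) (n : ℤ) : List (List (Fin 14 × ℤ)) := fwords.flatMap (fun w => ins 4 (i, n) w)

theorem J_check0 : ∀ i : Fin 14, (insF i 0).all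
    (fun w => decide ((insF i 0).countP (fun v => decide (v = w)) % 2 = 0)) = true := by
  decide +kernel

theorem J_check1 : ∀ i : Fin 14, (insF i 1).all
    (fun w => decide ((insF i 1).countP (fun v => decide (v = w)) % 2 = 0)) = true := by
  decide +kernel

variable {R : Type*} [CommRing R]

/-- value of a word -/
def ev (R : Type*) [CommRing R] (w : List (Fin 14 × ℤ)) : Vac (kappa R) (-4) :=
  word R w • vac (kappa R) (-4)

theorem ev_nil : ev R [] = vac (kappa R) (-4) := by
  rw [ev, word, List.map_nil, List.prod_nil, one_smul]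

theorem ev_cons (a : Fin 14 × ℤ) (w : List (Fin 14 × ℤ)) :
    ev R (a :: w) = xmode (kappa R) (bv R a.1) a.2 • ev R w := by
  rw [ev, word, List.map_cons, List.prod_cons, mul_smul]; rfl

/-- value of a sum of words -/
def evL (R : Type*) [CommRing R] (L : List (List (Fin 14 × ℤ))) : Vac (kappa R) (-4) :=
  (L.map (ev R)).sum

theorem evL_nil : evL R [] = 0 := rfl

theorem evL_cons (w : List (Fin 14 × ℤ)) (L : List (List (Fin 14 × ℤ))) :
    evL R (w :: L) = ev R w + evL R L := by
  rw [evL, List.map_cons, List.sum_cons]; rfl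

theorem evL_append (L M : List (List (Fin 14 × ℤ))) : evL R (L ++ M) = evL R L + evL R M := by
  rw [evL, List.map_append, List.sum_append]; rfl

theorem bracket_char_two [CharP R 2] (i j : Fin 14) :
    ⁅bv R i, bv R j⁆ = ((sc2 i j).map (bv R)).sum := by
  rw [lie_bv, sc2]
  generalize scL i j = l
  induction l with
  | nil => simp
  | cons p l ih =>
    rw [List.map_cons, List.sum_cons, ih, int_cast_char_two, List.filter_cons]
    by_cases h : p.2 % 2 = 0
    · rw [h]; simp
    · have h1 : p.2 % 2 = 1 := by omega
      rw [h1]; simp [h]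

theorem xmode_sum {ι : Type*} (l : List ι) (f : ι → G2 R) (n : ℤ) :
    xmode (kappa R) ((l.map f).sum) n = (l.map (fun i => xmode (kappa R) (f i) n)).sum := by
  induction l with
  | nil => simp [xmode_zero]
  | cons a l ih => rw [List.map_cons, List.sum_cons, xmode_add, ih, List.map_cons, List.sum_cons]

/-- commutation of basis modes in characteristic 2 and level `-4 = 0` -/
theorem comm_char_two [CharP R 2] (i j : Fin 14) (m n : ℤ) (v : Vac (kappa R) (-4)) :
    xmode (kappa R) (bv R i) m • xmode (kappa R) (bv R j) n • v =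
      xmode (kappa R) (bv R j) n • xmode (kappa R) (bv R i) m • v +
      ((sc2 i j).map (fun k => xmode (kappa R) (bv R k) (m + n) • v)).sum := by
  have h4 : (-4 : R) = 0 := by
    have h2 : (2 : R) = 0 := CharTwo.two_eq_zero
    have : (-4 : R) = -2 * 2 := by norm_num
    rw [this, h2, mul_zero]
  rw [xmode_comm, bracket_char_two, xmode_sum]
  have h0 : (if m + n = 0 then (m : R) * (kappa R).form (bv R i) (bv R j) * (-4) else 0) = 0 := by
    rw [h4]; simp
  rw [h0, zero_smul, add_zero, List.sum_smul]
  congr 2
  rw [List.map_map]; rfl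

theorem ins_sound [CharP R 2] (n : ℕ) : ∀ (a : Fin 14 × ℤ) (w : List (Fin 14 × ℤ)),
    evL R (ins n a w) = xmode (kappa R) (bv R a.1) a.2 • ev R w := by
  induction n with
  | zero => intro a w; rw [ins, evL_cons, evL_nil, add_zero, ev_cons]
  | succ n ih =>
    intro a w
    cases w with
    | nil =>
      rw [ins]
      split_ifs with h
      · rw [evL_nil, ev_nil, xmode_vac' _ _ _ _ h]
      · rw [evL_cons, evL_nil, add_zero, ev_cons]
    | cons b w =>
      rw [ins]
      split_ifs with h
      · rw [evL_cons, evL_nil, add_zero, ev_cons]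
      · have h1 : ∀ L : List (List (Fin 14 × ℤ)), evL R (L.flatMap (ins n b)) =
            xmode (kappa R) (bv R b.1) b.2 • evL R L := by
          intro L
          induction L with
          | nil => rw [List.flatMap_nil, evL_nil, smul_zero]
          | cons c L ihL => rw [List.flatMap_cons, evL_append, ihL, ih, evL_cons, smul_add]
        have h2 : ∀ l : List (Fin 14), evL R (l.flatMap (fun k => ins n (k, a.2 + b.2) w)) =
            (l.map (fun k => xmode (kappa R) (bv R k) (a.2 + b.2) • ev R w)).sum := by
          intro l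
          induction l with
          | nil => rfl
          | cons c l ihl => rw [List.flatMap_cons, evL_append, ihl, ih, List.map_cons, List.sum_cons]
        rw [evL_append, h1, h2, ih, ev_cons]
        exact (comm_char_two a.1 b.1 a.2 b.2 (ev R w)).symm

theorem evL_even [CharP R 2] (L : List (List (Fin 14 × ℤ)))
    (h : L.all (fun w => decide (L.countP (fun v => decide (v = w)) % 2 = 0)) = true) :
    evL R L = 0 := by
  rw [evL, Finset.sum_list_map_count]
  apply Finset.sum_eq_zero
  intro w hw
  rw [List.mem_toFinset] at hw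
  have h1 := List.all_eq_true.1 h w hw
  have h2 : L.countP (fun v => decide (v = w)) % 2 = 0 := of_decide_eq_true h1
  obtain ⟨k, hk⟩ := Nat.dvd_of_mod_eq_zero h2
  have h3 : (2 : R) = 0 := CharTwo.two_eq_zero
  change (L.countP (fun v => decide (v = w))) • ev R w = 0
  rw [hk, mul_comm, mul_smul, ← Nat.cast_smul_eq_nsmul R 2, Nat.cast_ofNat, h3, zero_smul, smul_zero]

theorem fhat_ev (R : Type*) [CommRing R] : fhat R • vac (kappa R) (-4) = evL R fwords := by
  rw [fhat, List.sum_smul, List.map_map]; rfl

theorem fhat_mode [CharP R 2] (i : Fin 14) (n : ℤ) :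
    xmode (kappa R) (bv R i) n • fhat R • vac (kappa R) (-4) = evL R (insF i n) := by
  rw [fhat_ev, insF]
  generalize fwords = L
  induction L with
  | nil => rw [List.flatMap_nil, evL_nil, smul_zero]
  | cons w L ih => rw [List.flatMap_cons, evL_append, evL_cons, smul_add, ih, ins_sound]

/-- every basis vector is a bracket of two basis vectors, in characteristic 2 -/
def gen2 : Fin 14 → Fin 14 × Fin 14 :=
  ![(0, 13), (1, 12), (2, 12), (3, 12), (4, 12), (5, 13), (6, 13), (7, 12), (8, 12), (9, 12),
    (10, 12), (11, 13), (0, 6), (1, 7)]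

theorem gen2_spec : ∀ i, sc2 (gen2 i).1 (gen2 i).2 = [i] := by decide +kernel

theorem fhat_pos [CharP R 2] (n : ℕ) : ∀ i : Fin 14,
    xmode (kappa R) (bv R i) ((n : ℤ) + 1) • fhat R • vac (kappa R) (-4) = 0 := by
  induction n with
  | zero =>
    intro i
    rw [Nat.cast_zero, zero_add, fhat_mode]
    exact evL_even _ (J_check1 i)
  | succ n ih =>
    intro i
    have h := comm_char_two (R := R) (gen2 i).1 (gen2 i).2 ((n : ℤ) + 1) 1
      (fhat R • vac (kappa R) (-4))
    rw [gen2_spec, ih] at h
    have h1 := ih
    have h2 : xmode (kappa R) (bv R (gen2 i).2) 1 • fhat R • vac (kappa R) (-4) = 0 := by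
      rw [fhat_mode]; exact evL_even _ (J_check1 _)
    rw [h2] at h
    simp only [smul_zero, List.map_cons, List.map_nil, List.sum_cons, List.sum_nil, add_zero,
      zero_add] at h
    push_cast
    exact h.symm

theorem fhat_central (R : Type*) [CommRing R] [CharP R 2] :
    fhat R • vac (kappa R) (-4) ∈ centre (kappa R) (-4) := by
  intro x n
  have key : ∀ i : Fin 14, xmode (kappa R) (bv R i) n • fhat R • vac (kappa R) (-4) = 0 := by
    intro i
    cases n with
    | zero =>
      rw [Nat.cast_zero, fhat_mode]
      exact evL_even _ (J_check0 i)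
    | succ n => push_cast; exact fhat_pos n i
  rw [G2_sum x]
  have h : ∀ s : Finset (Fin 14),
      xmode (kappa R) (∑ i ∈ s, x i • bv R i) n • fhat R • vac (kappa R) (-4) = 0 := by
    classical
    intro s
    induction s using Finset.induction_on with
    | empty => rw [Finset.sum_empty, xmode_zero, zero_smul]
    | insert a s ha ih =>
      rw [Finset.sum_insert ha, xmode_add, xmode_smul, add_smul, ih, smul_assoc, key, smul_zero,
        add_zero]
  exact h _

open MvPolynomial in
theorem fhat_symbol (R : Type*) [CommRing R] {Φ : _}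
    (hΦ : IsSymbol (kappa R) (-4) (XH R) Φ) :
    Φ (fhat R • vac (kappa R) (-4)) = X 0 * X 0 * X 1 + X 0 * X 1 * X 1 := by
  have hX : ∀ i : Fin 14, XH R (bv R i) = if i = 12 then X 0 else if i = 13 then X 1 else 0 := by
    intro i
    have h : XH R (bv R i) = C ((Pi.single i (1 : R) : Fin 14 → R) 12) * X 0 +
      C ((Pi.single i (1 : R) : Fin 14 → R) 13) * X 1 := rfl
    rw [h]
    fin_cases i <;> simp
  have h1 : ∀ (i : Fin 14) (w : List (Fin 14 × ℤ)), Φ (ev R ((i, -1) :: w)) =
      (if i = 12 then X 0 else if i = 13 then X 1 else 0) * Φ (ev R w) := by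
    intro i w
    rw [ev_cons, hΦ.one, hX]
  have h2 : ∀ (i : Fin 14) (w : List (Fin 14 × ℤ)), Φ (ev R ((i, -2) :: w)) = 0 := by
    intro i w
    rw [ev_cons]
    exact hΦ.two _ 0 _
  have h3 : ∀ (i : Fin 14) (w : List (Fin 14 × ℤ)), Φ (ev R ((i, -3) :: w)) = 0 := by
    intro i w
    rw [ev_cons]
    exact hΦ.two _ 1 _
  have h0 : Φ (ev R []) = 1 := by rw [ev_nil, hΦ.vac]
  rw [fhat_ev]
  simp only [fwords, evL_cons, evL_nil, map_add, h1, h2, h3, h0, map_zero]
  simp
  ring

end CritCentre
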