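import Pool.Agent.Helper43.VA.MJ

/-!
# `G₂` is simple in characteristic 2
-/

set_option autoImplicit false

noncomputable section

namespace CritCentre

variable {R : Type*} [CommRing R]

/-- value of a list of basis vectors -/
def valL (R : Type*) [CommRing R] (L : List (Fin 14)) : G2 R := (L.map (bv R)).sum

theorem lie_valL [CharP R 2] (i : Fin 14) (L : List (Fin 14)) :
    ⁅bv R i, valL R L⁆ = valL R (L.flatMap (sc2 i)) := by
  induction L with
  | nil => simp [valL]
  | cons a L ih =>
    rw [valL, List.map_cons, List.sum_cons, lie_add, List.flatMap_cons, valL, List.map_append,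
      List.sum_append, bracket_char_two]
    congr 1

theorem valL_apply [CharP R 2] (L : List (Fin 14)) (i : Fin 14) :
    (valL R L) i = ((L.countP (fun j => decide (j = i)) % 2 : ℕ) : R) := by
  have h1 : (valL R L) i = ((L.countP (fun j => decide (j = i)) : ℕ) : R) := by
    induction L with
    | nil => rw [valL, List.map_nil, List.sum_nil]; simp; rfl
    | cons a L ih =>
      have : (valL R (a :: L)) i = (bv R a) i + (valL R L) i := by
        rw [valL, List.map_cons, List.sum_cons]; rfl
      rw [this, ih, List.countP_cons]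
      have h2 : (bv R a) i = if a = i then 1 else 0 := by
        show (Pi.single a (1 : R) : Fin 14 → R) i = _
        rw [Pi.single_apply]
        simp [eq_comm]
      rw [h2]
      by_cases h : a = i
      · simp [h, add_comm]
      · simp [h]
  rw [h1]
  have h2 : (2 : R) = 0 := CharTwo.two_eq_zero
  conv_lhs => rw [← Nat.mod_add_div (L.countP (fun j => decide (j = i))) 2]
  push_cast
  rw [h2, zero_mul, add_zero]

theorem rank_one_check : ∀ j i : Fin 14,
    ((((([j].flatMap (sc2 5)).flatMap (sc2 4)).flatMap (sc2 1)).countP (fun k => decide (k = i))) % 2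
      = if j = 11 ∧ i = 5 then 1 else 0) := by decide +kernel

/-- a rank one element of the algebra generated by the adjoint representation -/
theorem rank_one [CharP R 2] (y : G2 R) :
    ⁅bv R 1, ⁅bv R 4, ⁅bv R 5, y⁆⁆⁆ = y 11 • bv R 5 := by
  have key : ∀ j : Fin 14, ⁅bv R 1, ⁅bv R 4, ⁅bv R 5, bv R j⁆⁆⁆ =
      if j = 11 then bv R 5 else 0 := by
    intro j
    have h1 : bv R j = valL R [j] := by simp [valL]
    rw [h1, lie_valL, lie_valL, lie_valL]
    apply funext
    intro i
    rw [valL_apply, rank_one_check]
    have h2 : ∀ i, (bv R 5) i = if (5 : Fin 14) = i then 1 else 0 := by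
      intro i
      show (Pi.single 5 (1 : R) : Fin 14 → R) i = _
      rw [Pi.single_apply]
      simp [eq_comm]
    by_cases hj : j = 11
    · rw [if_pos hj, h2]
      by_cases hi : i = 5
      · simp [hj, hi]
      · simp [hi, Ne.symm hi]
    · rw [if_neg hj]
      simp [hj]; rfl
  conv_lhs => rw [G2_sum y]
  simp only [lie_sum, lie_smul, key]
  rw [Finset.sum_eq_single 11]
  · simp
  · intro j _ hj; simp [hj]
  · simp

/-- the chain of brackets generating `G₂` from the highest root vector -/
def chain : List (Fin 14 × Fin 14 × Fin 14) :=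
  [(4, 7, 5), (3, 8, 5), (2, 9, 5), (1, 10, 5), (12, 11, 5), (0, 9, 4), (7, 11, 4), (13, 9, 3),
    (6, 10, 3), (8, 11, 3), (9, 11, 2), (10, 11, 1), (11, 10, 7)]

theorem chain_check : ∀ a ∈ chain, sc2 a.2.1 a.2.2 = [a.1] := by decide +kernel

theorem ideal_top (K : Type*) [Field K] [CharP K 2] (I : LieIdeal K (G2 K)) (h : bv K 5 ∈ I) :
    I = ⊤ := by
  have step : ∀ a ∈ chain, bv K a.2.2 ∈ I → bv K a.1 ∈ I := by
    intro a ha hk
    have h1 : ⁅bv K a.2.1, bv K a.2.2⁆ = bv K a.1 := by
      rw [bracket_char_two, chain_check a ha]; simp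
    rw [← h1]
    exact lie_mem_right K (G2 K) I _ _ hk
  have h4 := step (4, 7, 5) (by decide) h
  have h3 := step (3, 8, 5) (by decide) h
  have h2 := step (2, 9, 5) (by decide) h
  have h1 := step (1, 10, 5) (by decide) h
  have h12 := step (12, 11, 5) (by decide) h
  have h0 := step (0, 9, 4) (by decide) h4
  have h7 := step (7, 11, 4) (by decide) h4
  have h13 := step (13, 9, 3) (by decide) h3
  have h6 := step (6, 10, 3) (by decide) h3
  have h8 := step (8, 11, 3) (by decide) h3
  have h9 := step (9, 11, 2) (by decide) h2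
  have h10 := step (10, 11, 1) (by decide) h1
  have h11 := step (11, 10, 7) (by decide) h7
  rw [eq_top_iff]
  intro x _
  rw [G2_sum x]
  apply Submodule.sum_mem I.toSubmodule
  intro i _
  apply Submodule.smul_mem
  fin_cases i
  exacts [h0, h1, h2, h3, h4, h, h6, h7, h8, h9, h10, h11, h12, h13]

/-- `G₂` is a simple Lie algebra in characteristic 2. -/
theorem G2_simple (K : Type*) [Field K] [CharP K 2] : LieAlgebra.IsSimple K (G2 K) where
  eq_bot_or_eq_top I := by
    by_cases hI : ∃ y ∈ I, y 11 ≠ 0
    · right
      obtain ⟨y, hy, hy11⟩ := hI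
      apply ideal_top
      have h1 : y 11 • bv K 5 ∈ I := by
        rw [← rank_one]
        exact lie_mem_right K (G2 K) I _ _ (lie_mem_right K (G2 K) I _ _
          (lie_mem_right K (G2 K) I _ _ hy))
      have h2 := I.smul_mem (y 11)⁻¹ h1
      rwa [smul_smul, inv_mul_cancel₀ hy11, one_smul] at h2
    · left
      have hI : ∀ y ∈ I, y 11 = 0 := by
        intro y hy
        by_contra h
        exact hI ⟨y, hy, h⟩
      let J : LieIdeal K (G2 K) :=
        { carrier := {w | ∀ z ∈ I, gform K z w = 0}
          add_mem' := fun {a b} ha hb z hz => by rw [map_add, ha z hz, hb z hz, add_zero]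
          zero_mem' := fun z _ => map_zero _
          smul_mem' := fun r w hw z hz => by rw [map_smul, hw z hz, smul_zero]
          lie_mem := fun {b w} hw z hz => by
            rw [← gform_inv]
            exact hw _ (lie_mem_left K (G2 K) I _ _ hz) }
      have hJ5 : bv K 5 ∈ J := by
        intro z hz
        rw [gform_bv_right, Finset.sum_eq_single 11]
        · rw [hI z hz, zero_mul]
        · intro i _ hi
          have h5 : (5 : Fin 14) = dualIdx 11 := by decide
          rw [h5, int_cast_char_two, gram_mod_two, if_neg hi]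
          simp
        · simp
      have hJ := ideal_top K J hJ5
      rw [eq_bot_iff]
      intro x hx
      have hx0 : x = 0 := gform_nondeg x (fun y => by
        have : y ∈ J := by rw [hJ]; trivial
        exact this x hx)
      rw [hx0]; exact Submodule.zero_mem _
  non_abelian := by
    intro hab
    have h1 : ⁅bv K 0, bv K 6⁆ = bv K 12 := by
      rw [bracket_char_two]
      have : sc2 0 6 = [12] := by decide +kernel
      rw [this]; simp
    have h2 : ⁅bv K 0, bv K 6⁆ = 0 := hab.trivial _ _
    rw [h1] at h2
    have h3 : (bv K 12 : Fin 14 → K) 12 = 0 := congrFun h2 12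
    have h4 : (Pi.single 12 (1 : K) : Fin 14 → K) 12 = 0 := h3
    simp at h4

end CritCentre
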