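import Pool.Agent.Helper43.VA.MH
import Pool.Agent.Helper43.VA.ME
import Pool.Agent.Helper43.VA.MF
import Pool.Agent.Helper43.VA.MI
import Pool.Agent.Helper43.VA.Simple

/-!
# Assembly
-/

set_option autoImplicit false

noncomputable section

namespace CritCentre

attribute [local instance 100] LieRing.ofAssociativeRing

theorem NoOdd.add {R : Type*} [CommRing R] {P Q : MvPolynomial (Fin 2) R} (hP : NoOdd P)
    (hQ : NoOdd Q) : NoOdd (P + Q) := fun m hm => by
  rw [MvPolynomial.coeff_add, hP m hm, hQ m hm, add_zero]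

theorem NoOdd.zero {R : Type*} [CommRing R] : NoOdd (0 : MvPolynomial (Fin 2) R) := fun m _ => by
  rw [MvPolynomial.coeff_zero]

theorem NoOdd.smul {R : Type*} [CommRing R] {P : MvPolynomial (Fin 2) R} (r : R) (hP : NoOdd P) :
    NoOdd (r • P) := fun m hm => by
  rw [MvPolynomial.coeff_smul, hP m hm, smul_zero]

theorem NoOdd.one {R : Type*} [CommRing R] : NoOdd (1 : MvPolynomial (Fin 2) R) := fun m hm => by
  rw [MvPolynomial.coeff_one, if_neg]
  rintro rfl
  simp at hm

theorem NoOdd.mul {R : Type*} [CommRing R] {P Q : MvPolynomial (Fin 2) R} (hP : NoOdd P)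
    (hQ : NoOdd Q) : NoOdd (P * Q) := fun m hm => by
  rw [MvPolynomial.coeff_mul]
  apply Finset.sum_eq_zero
  intro p hp
  have hp' : p.1 + p.2 = m := Finset.HasAntidiagonal.mem_antidiagonal.1 hp
  have h0 : p.1 0 + p.2 0 = m 0 := by rw [← hp']; rfl
  have h1 : p.1 1 + p.2 1 = m 1 := by rw [← hp']; rfl
  by_cases h : p.1 0 + p.1 1 = 1 ∨ p.1 0 + p.1 1 = 3
  · rw [hP _ h, zero_mul]
  · rw [hQ _ (by omega), mul_zero]

theorem NoOdd.map {R S : Type*} [CommRing R] [CommRing S] (f : R →+* S)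
    {P : MvPolynomial (Fin 2) R} (hP : NoOdd P) : NoOdd (MvPolynomial.map f P) := fun m hm => by
  rw [MvPolynomial.coeff_map, hP m hm, map_zero]

open MvPolynomial in
theorem noOdd_sq (R : Type*) [CommRing R] (a b : R) :
    NoOdd ((C a * X 0 + C b * X 1) * (C a * X 0 + C b * X 1) : MvPolynomial (Fin 2) R) := by
  intro m hm
  rw [coeff_mul]
  apply Finset.sum_eq_zero
  intro p hp
  have hp' : p.1 + p.2 = m := Finset.HasAntidiagonal.mem_antidiagonal.1 hp
  have h0 : p.1 0 + p.2 0 = m 0 := by rw [← hp']; rfl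
  have h1 : p.1 1 + p.2 1 = m 1 := by rw [← hp']; rfl
  have key : ∀ q : Fin 2 →₀ ℕ, q 0 + q 1 ≠ 1 →
      coeff q (C a * X 0 + C b * X 1 : MvPolynomial (Fin 2) R) = 0 := by
    intro q hq
    rw [coeff_add, coeff_C_mul, coeff_C_mul, coeff_X, coeff_X, if_neg, if_neg]
    · simp
    · rintro rfl; simp at hq
    · rintro rfl; simp at hq
  by_cases h : p.1 0 + p.1 1 = 1
  · rw [key p.2 (by omega), mul_zero]
  · rw [key p.1 h, zero_mul]

open MvPolynomial in
theorem fhat_poly_coeff (R : Type*) [CommRing R] :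
    coeff (Finsupp.single 0 2 + Finsupp.single 1 1)
      (X 0 * X 0 * X 1 + X 0 * X 1 * X 1 : MvPolynomial (Fin 2) R) = 1 := by
  have e1 : (X 0 * X 0 * X 1 : MvPolynomial (Fin 2) R) =
      monomial (Finsupp.single 0 2 + Finsupp.single 1 1) 1 := by
    rw [X, X, monomial_mul, monomial_mul, ← Finsupp.single_add]; simp
  have e2 : (X 0 * X 1 * X 1 : MvPolynomial (Fin 2) R) =
      monomial (Finsupp.single 0 1 + Finsupp.single 1 2) 1 := by
    rw [X, X, monomial_mul, monomial_mul, add_assoc, ← Finsupp.single_add]; simp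
  rw [e1, e2, coeff_add, coeff_monomial, coeff_monomial, if_pos rfl, if_neg, add_zero]
  intro h
  have := DFunLike.congr_fun h 0
  simp at this

/-- additive maps out of a vacuum module over `ℤ` are determined by the modes -/
theorem Vac.addHom_ext {R g : Type*} [CommRing R] [LieRing g] [LieAlgebra R g]
    (hR : ∀ r : R, ∃ n : ℤ, r = (n : R)) (B : InvForm R g) (κ : R)
    {M : Type*} [AddCommGroup M] (f f' : Vac B κ → M) (hf : ∀ v w, f (v + w) = f v + f w)
    (hf' : ∀ v w, f' (v + w) = f' v + f' w) (h0 : f (vac B κ) = f' (vac B κ))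
    (h : ∀ (x : g) (m : ℕ) v, f v = f' v →
      f (xmode B x (-(m + 1)) • v) = f' (xmode B x (-(m + 1)) • v)) (v : Vac B κ) :
    f v = f' v := by
  have z : ∀ f : Vac B κ → M, (∀ v w, f (v + w) = f v + f w) → f 0 = 0 := by
    intro f hf
    have := hf 0 0
    rw [add_zero] at this
    simpa using this
  have neg : ∀ f : Vac B κ → M, (∀ v w, f (v + w) = f v + f w) → ∀ v, f (-v) = - f v := by
    intro f hf v
    have := hf v (-v)
    rw [add_neg_cancel, z f hf] at this
    exact (neg_eq_of_add_eq_zero_right this.symm).symm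
  induction v using Vac.induction with
  | h0 => exact h0
  | hadd v w hv hw => rw [hf, hf', hv, hw]
  | hsmul r v hv =>
    obtain ⟨n, rfl⟩ := hR r
    induction n using Int.induction_on with
    | zero => rw [Int.cast_zero, zero_smul, z f hf, z f' hf']
    | succ i ih => rw [Int.cast_add, Int.cast_one, add_smul, one_smul, hf, hf', ih, hv]
    | pred i ih =>
      rw [Int.cast_sub, Int.cast_one, sub_smul, one_smul, sub_eq_add_neg, hf, hf', neg f hf,
        neg f' hf', ih, hv]
  | hmode x m v hv => exact h x m v hv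

/-- There is a vertex subalgebra of the centre of `V^{κ_c}(G₂)` in characteristic 2 which contains
the Harish-Chandra centre and the 2-centre but not `fhat`. -/
theorem main_aux (K : Type*) [Field K] [CharP K 2] :
    ∃ W : Submodule K (Vac (kappa K) (-4)), IsVertexSub (kappa K) (-4) W ∧
      (zHC K : Set (Vac (kappa K) (-4))) ⊆ W ∧
      pCentre (kappa K) (-4) 2 sq ⊆ (W : Set (Vac (kappa K) (-4))) ∧
      fhat K • vac (kappa K) (-4) ∉ W := by
  obtain ⟨Φ, hΦ⟩ := exists_symbol (kappa K) (-4) (XH K)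
  let W : Submodule K (Vac (kappa K) (-4)) :=
    { carrier := {v | v ∈ centre (kappa K) (-4) ∧ NoOdd (Φ v)}
      add_mem' := fun {a b} ha hb => ⟨Submodule.add_mem _ ha.1 hb.1, by
        rw [map_add]; exact ha.2.add hb.2⟩
      zero_mem' := ⟨Submodule.zero_mem _, by rw [map_zero]; exact NoOdd.zero⟩
      smul_mem' := fun r v hv => ⟨Submodule.smul_mem _ r hv.1, by
        rw [map_smul]; exact hv.2.smul r⟩ }
  have hW : IsVertexSub (kappa K) (-4) W :=
    { le_centre := fun v hv => hv.1
      vac_mem := ⟨vac_mem_centre _ _, by rw [hΦ.vac]; exact NoOdd.one⟩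
      trans_mem := fun u k hu => by
        rcases Nat.eq_zero_or_pos k with rfl | hk
        · obtain ⟨T, hT1, hT0, -, -⟩ := exists_T (kappa K) (-4 : K)
          rw [← hT1, hT0]; exact hu
        · exact ⟨centre_trans _ _ u hu.1 k, by
            rw [symbol_trans _ _ _ Φ hΦ u k hk]; exact NoOdd.zero⟩
      mul_mem := fun u b hu hb => ⟨centre_mul _ _ u b hu.1 hb.1, by
        rw [symbol_mul _ _ _ Φ hΦ u b hb.1]; exact hu.2.mul hb.2⟩ }
  have hz : (zHC K : Set (Vac (kappa K) (-4))) ⊆ W := by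
    show zHC K ≤ W
    rw [zHC, Submodule.span_le]
    rintro v ⟨u, hu, rfl⟩
    obtain ⟨ΦZ, hZ⟩ := exists_symbol (kappa ℤ) (-4) (XH ℤ)
    refine ⟨bc_centre K u hu, ?_⟩
    rw [bc_symbol K hZ hΦ u]
    exact (hc_symbol (-4) ΦZ hZ _ hu).map _
  have hp : pCentre (kappa K) (-4) 2 sq ⊆ (W : Set (Vac (kappa K) (-4))) := by
    rintro v ⟨u, hu, rfl⟩
    show u • vac (kappa K) (-4) ∈ W
    induction hu using Algebra.adjoin_induction with
    | mem u hu =>
      obtain ⟨x, n, rfl⟩ := hu
      push_cast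
      refine ⟨pz_central _ _ x (sq x) (G2_sq_lie x) n, ?_⟩
      rw [pz_symbol _ _ _ Φ hΦ]
      split_ifs
      · exact noOdd_sq K _ _
      · exact NoOdd.zero
    | algebraMap r =>
      rw [algebraMap_smul]
      exact W.smul_mem r hW.vac_mem
    | add u u' _ _ hu hu' => rw [add_smul]; exact W.add_mem hu hu'
    | mul u u' _ _ hu hu' => rw [mul_smul]; exact hW.mul_mem u _ hu hu'
  refine ⟨W, hW, hz, hp, fun hmem' => ?_⟩
  have h1 := hmem'.2 (Finsupp.single 0 2 + Finsupp.single 1 1) (by right; simp)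
  rw [fhat_symbol K hΦ, fhat_poly_coeff] at h1
  exact one_ne_zero h1

/-- The centre of `V^{κ_c}(G₂)` in characteristic 2 is not generated by the Harish-Chandra centre
and the 2-centre. -/
theorem main (K : Type*) [Field K] [CharP K 2] :
    ∃ v ∈ centre (kappa K) (-4),
      v ∉ vertexSpan (kappa K) (-4) (zHC K ∪ pCentre (kappa K) (-4) 2 sq) := by
  obtain ⟨W, hW, hz, hp, hn⟩ := main_aux K
  refine ⟨fhat K • vac (kappa K) (-4), fhat_central K, fun hmem => hn ?_⟩
  have : vertexSpan (kappa K) (-4) (zHC K ∪ pCentre (kappa K) (-4) 2 sq) ≤ W :=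
    sInf_le ⟨hW, Set.union_subset hz hp⟩
  exact this hmem

end CritCentre
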