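import Pool.Agent.Helper43.VA.Main

/-!
# The statement

The definitions used in the statement of the theorem: the vacuum module with its operations,
centre, translation operators, vertex subalgebras of the centre, `p`-centre, base change,
Harish-Chandra centre.
-/

set_option autoImplicit false

noncomputable section

namespace CritCentre

section General

variable {R g : Type*} [CommRing R] [LieRing g] [LieAlgebra R g]

/-- The vacuum module `V^κ(g)`: the quotient of `U(Aff)` by the left ideal `vacIdeal` generated by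
all `x_n`, `n ≥ 0`, and `c - κ`. -/
def V (B : InvForm R g) (κ : R) : Type _ := Vac B κ

/-- The vacuum vector `|0⟩`. -/
def V.vac (B : InvForm R g) (κ : R) : V B κ := CritCentre.vac B κ

/-- The zero vector. -/
def V.zero (B : InvForm R g) (κ : R) : V B κ := (0 : Vac B κ)

/-- Sum of vectors. -/
def V.add {B : InvForm R g} {κ : R} : V B κ → V B κ → V B κ := fun v w : Vac B κ => v + w

/-- Scalar multiple. -/
def V.smul {B : InvForm R g} {κ : R} : R → V B κ → V B κ := fun (r : R) (v : Vac B κ) => r • v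

/-- Action of `U(Aff)`. -/
def V.act {B : InvForm R g} {κ : R} : UAff B → V B κ → V B κ :=
  fun (u : UAff B) (v : Vac B κ) => u • v

/-- Action of `x_n = t^n ⊗ x`. -/
def V.mode {B : InvForm R g} {κ : R} (x : g) (n : ℤ) (v : V B κ) : V B κ := V.act (xmode B x n) v

/-- `f 0 + f 1 + ⋯ + f k`. -/
def V.sum {B : InvForm R g} {κ : R} (f : ℕ → V B κ) : ℕ → V B κ
  | 0 => f 0
  | k + 1 => V.add (V.sum f k) (f (k + 1))

/-- The vector lies in the centre of `V^κ(g)`: it is killed by all `x_n`, `n ≥ 0`. -/
def V.Central {B : InvForm R g} {κ : R} (v : V B κ) : Prop :=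
  ∀ (x : g) (n : ℕ), V.mode x n v = V.zero B κ

/-- `T k` is the divided power `T^{(k)}` of the translation operator: `T^{(0)} = 1`,
`T^{(k)}|0⟩ = 0` for `k ≥ 1` and
`T^{(k)} x_n = ∑_{i ≤ k} (-1)^i (n choose i) x_{n-i} T^{(k-i)}`. -/
structure V.IsTranslation {B : InvForm R g} {κ : R} (T : ℕ → V B κ → V B κ) : Prop where
  add : ∀ k v w, T k (v.add w) = (T k v).add (T k w)
  smul : ∀ k r v, T k (V.smul r v) = V.smul r (T k v)
  zero : ∀ v, T 0 v = v
  vac : ∀ k, 1 ≤ k → T k (V.vac B κ) = V.zero B κ
  comm : ∀ k x n v, T k (V.mode x n v) =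
    V.sum (fun i => V.smul (((-1) ^ i * Ring.choose n i : ℤ) : R) (V.mode x (n - i) (T (k - i) v))) k

/-- `W` is a vertex subalgebra of the centre: a subspace of the centre containing `|0⟩` and closed
under all `T^{(k)}` and under the product `a_{(-1)} b = u b` for `a = u|0⟩`. -/
structure V.IsVertexSub {B : InvForm R g} {κ : R} (T : ℕ → V B κ → V B κ) (W : Set (V B κ)) :
    Prop where
  central : ∀ v ∈ W, v.Central
  zero : V.zero B κ ∈ W
  add : ∀ v ∈ W, ∀ w ∈ W, v.add w ∈ W
  smul : ∀ (r : R), ∀ v ∈ W, v.smul r ∈ W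
  vac : V.vac B κ ∈ W
  translation : ∀ k, ∀ v ∈ W, T k v ∈ W
  product : ∀ u, ∀ b ∈ W, V.act u (V.vac B κ) ∈ W → V.act u b ∈ W

/-- The vertex subalgebra of the centre generated by a set of vectors. -/
def V.Generated {B : InvForm R g} {κ : R} (T : ℕ → V B κ → V B κ) (S : Set (V B κ)) :
    Set (V B κ) :=
  {v | ∀ W, V.IsVertexSub T W → S ⊆ W → v ∈ W}

/-- The `p`-centre `Z'_0 |0⟩`, where `Z'_0` is the algebra generated by all
`(x_n)^p - (x^{[p]})_{np}`: the least subspace containing `|0⟩` and stable under these elements. -/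
def V.pCentre (B : InvForm R g) (κ : R) (p : ℕ) (pm : g → g) : Set (V B κ) :=
  {v | ∀ W : Set (V B κ), V.vac B κ ∈ W → (∀ v ∈ W, ∀ w ∈ W, v.add w ∈ W) →
    (∀ (r : R), ∀ v ∈ W, v.smul r ∈ W) →
    (∀ (x : g) (n : ℤ), ∀ v ∈ W,
      ((V.mode x n)^[p] v).add ((V.mode (pm x) (n * p) v).smul (-1)) ∈ W) → v ∈ W}

end General

/-- Base change of coefficients `G2 ℤ → G2 R`. -/
def castG (R : Type*) [CommRing R] (x : G2 ℤ) : G2 R := fun i => ((x i : ℤ) : R)

/-- `β` is the base change map from the `ℤ`-form of the vacuum module of `G₂` at the level `κ` to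
the vacuum module over `R`. -/
structure V.IsBaseChange {R : Type*} [CommRing R] {κ : ℤ} {κ' : R}
    (β : V (kappa ℤ) κ → V (kappa R) κ') : Prop where
  vac : β (V.vac (kappa ℤ) κ) = V.vac (kappa R) κ'
  add : ∀ v w, β (v.add w) = (β v).add (β w)
  mode : ∀ (x : G2 ℤ) (n : ℤ) (v), β (V.mode x n v) =
    V.mode (castG R x) n (β v)

/-! ### Existence of the translation operators and of the base change map -/

section Exist

variable {R g : Type*} [CommRing R] [LieRing g] [LieAlgebra R g]

theorem V.sum_eq {B : InvForm R g} {κ : R} (f : ℕ → Vac B κ) (k : ℕ) :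
    (V.sum (B := B) (κ := κ) f k : Vac B κ) = ∑ i ∈ Finset.range (k + 1), f i := by
  induction k with
  | zero => rw [Finset.sum_range_one]; rfl
  | succ k ih => rw [Finset.sum_range_succ, ← ih]; rfl

theorem V.exists_translation (B : InvForm R g) (κ : R) : ∃ T : ℕ → V B κ → V B κ,
    V.IsTranslation T ∧ ∀ (u : UAff B) (k : ℕ), T k (V.act u (V.vac B κ)) =
      V.act (PowerSeries.coeff k (trans B u)) (V.vac B κ) := by
  obtain ⟨T, h1, h2, h3, h4⟩ := exists_T B κ
  refine ⟨fun k v => T k v, ?_, fun u k => h1 u k⟩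
  exact
    { add := fun k v w => map_add (T k) _ _
      smul := fun k r v => map_smul (T k) _ _
      zero := fun v => h2 v
      vac := fun k hk => h3 k hk
      comm := fun k x n v => by
        have e := h4 k x n v
        rw [Finset.Nat.sum_antidiagonal_eq_sum_range_succ_mk] at e
        refine e.trans ?_
        refine Eq.trans ?_ (V.sum_eq (B := B) (κ := κ) _ k).symm
        apply Finset.sum_congr rfl
        intro i _
        exact (Int.cast_smul_eq_zsmul R _ _).symm }

theorem exists_baseChange (R : Type*) [CommRing R] :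
    ∃ β : V (kappa ℤ) (-4) → V (kappa R) (-4), V.IsBaseChange β ∧
      ∀ u : UAff (kappa ℤ), β (V.act u (V.vac (kappa ℤ) (-4))) =
        V.act (bcU R u) (V.vac (kappa R) (-4)) := by
  choose c hc using vac_surj (kappa ℤ) (-4)
  have key : ∀ u : UAff (kappa ℤ), bcU R (c (u • vac (kappa ℤ) (-4))) • vac (kappa R) (-4) =
      bcU R u • vac (kappa R) (-4) := fun u => bc_vac R _ _ (hc _).symm
  have hadd : ∀ v w : Vac (kappa ℤ) (-4), bcU R (c (v + w)) • vac (kappa R) (-4) =
      bcU R (c v) • vac (kappa R) (-4) + bcU R (c w) • vac (kappa R) (-4) := by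
    intro v w
    have h : v + w = (c v + c w) • vac (kappa ℤ) (-4) := by
      rw [add_smul, ← hc, ← hc]
    rw [h, key, map_add, add_smul]
  have hmode : ∀ (x : G2 ℤ) (n : ℤ) (v : Vac (kappa ℤ) (-4)),
      bcU R (c (xmode (kappa ℤ) x n • v)) • vac (kappa R) (-4) =
      xmode (kappa R) (castG R x) n • bcU R (c v) • vac (kappa R) (-4) := by
    intro x n v
    have h : xmode (kappa ℤ) x n • v = (xmode (kappa ℤ) x n * c v) • vac (kappa ℤ) (-4) := by
      rw [mul_smul, ← hc]
    rw [h, key, map_mul, bcU_xmode, mul_smul]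
    rfl
  refine ⟨fun v => (bcU R (c v) • vac (kappa R) (-4) : Vac (kappa R) (-4)), ?_, key⟩
  exact
    { vac := by
        have h := key 1
        rw [one_smul, map_one, one_smul] at h
        exact h
      add := hadd
      mode := hmode }

theorem V.translation_unique {B : InvForm R g} {κ : R} (T T' : ℕ → V B κ → V B κ)
    (hT : V.IsTranslation T) (hT' : V.IsTranslation T') : T' = T := by
  have key : ∀ v : Vac B κ, ∀ k, T' k v = T k v := by
    intro v
    induction v using Vac.induction with
    | h0 =>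
      intro k
      rcases Nat.eq_zero_or_pos k with rfl | hk
      · exact (hT'.zero _).trans (hT.zero _).symm
      · exact (hT'.vac k hk).trans (hT.vac k hk).symm
    | hadd v w hv hw =>
      intro k
      have h1 := hT'.add k v w
      have h2 := hT.add k v w
      rw [hv, hw] at h1
      exact h1.trans h2.symm
    | hsmul r v hv =>
      intro k
      have h1 := hT'.smul k r v
      have h2 := hT.smul k r v
      rw [hv] at h1
      exact h1.trans h2.symm
    | hmode x m v hv =>
      intro k
      have h1 := hT'.comm k x (-(m + 1)) v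
      have h2 := hT.comm k x (-(m + 1)) v
      simp only [hv] at h1
      exact h1.trans h2.symm
  funext k v
  exact key v k

theorem baseChange_unique (R : Type*) [CommRing R] (β β' : V (kappa ℤ) (-4) → V (kappa R) (-4))
    (hβ : V.IsBaseChange β) (hβ' : V.IsBaseChange β') : β' = β := by
  funext v
  refine Vac.addHom_ext (fun r => ⟨r, Int.cast_id.symm⟩) (kappa ℤ) (-4) (M := Vac (kappa R) (-4)) β' β hβ'.add hβ.add
    (hβ'.vac.trans hβ.vac.symm) ?_ v
  intro x m v hv
  have h1 := hβ'.mode x (-(m + 1)) v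
  have h2 := hβ.mode x (-(m + 1)) v
  have h3 : β' v = β v := hv
  rw [h3] at h1
  exact h1.trans h2.symm

end Exist

/-- The theorem. -/
theorem present (K : Type*) [Field K] [CharP K 2] :
    LieAlgebra.IsSimple K (G2 K) ∧
    (∀ x : G2 K, (∀ y, (kappa K).form x y = 0) → x = 0) ∧
    (∀ x : G2 K, rho (sq x) = rho x * rho x) ∧
    (∃! T : ℕ → V (kappa K) (-4) → V (kappa K) (-4), V.IsTranslation T) ∧
    (∃! β : V (kappa ℤ) (-4) → V (kappa K) (-4), V.IsBaseChange β) ∧
    ∃ v : V (kappa K) (-4), v.Central ∧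
      ∀ (T : ℕ → V (kappa K) (-4) → V (kappa K) (-4))
        (β : V (kappa ℤ) (-4) → V (kappa K) (-4)), V.IsTranslation T → V.IsBaseChange β →
        v ∉ V.Generated T (β '' {w | w.Central} ∪ V.pCentre (kappa K) (-4) 2 sq) := by
  obtain ⟨T, hT, hTu⟩ := V.exists_translation (kappa K) (-4)
  obtain ⟨β, hβ, hβu⟩ := exists_baseChange K
  obtain ⟨W, hW, hz, hp, hn⟩ := main_aux K
  refine ⟨G2_simple K, gform_nondeg, rho_sq,
    ⟨T, hT, fun T' hT' => V.translation_unique T T' hT hT'⟩,
    ⟨β, hβ, fun β' hβ' => baseChange_unique K β β' hβ hβ'⟩,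
    (fhat K • vac (kappa K) (-4) : Vac (kappa K) (-4)), fhat_central K,
    fun T' β' hT' hβ' hmem => hn ?_⟩
  obtain rfl := V.translation_unique T T' hT hT'
  obtain rfl := baseChange_unique K β β' hβ hβ'
  have hsub : V.IsVertexSub T' (fun v : Vac (kappa K) (-4) => v ∈ W) :=
    { central := fun v hv => hW.le_centre hv
      zero := W.zero_mem
      add := fun v hv w hw => W.add_mem hv hw
      smul := fun r v hv => W.smul_mem r hv
      vac := hW.vac_mem
      translation := fun k v hv => by
        obtain ⟨u, hu⟩ := vac_surj (kappa K) (-4) v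
        have h1 : T' k v =
            V.act (PowerSeries.coeff k (trans (kappa K) u)) (V.vac (kappa K) (-4)) := by
          rw [← hTu]
          exact congrArg (T' k) hu
        rw [h1]
        exact hW.trans_mem u k (hu ▸ hv)
      product := fun u b hb hu => hW.mul_mem u b hu hb }
  refine hmem _ hsub ?_
  rintro v (⟨w, hw, rfl⟩ | hv)
  · obtain ⟨u, hu⟩ := vac_surj (kappa ℤ) (-4) w
    have h1 : β' w = V.act (bcU K u) (V.vac (kappa K) (-4)) := by
      rw [← hβu]
      exact congrArg β' hu
    rw [h1]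
    exact hz (Submodule.subset_span ⟨u, hu ▸ hw, rfl⟩)
  · refine hv _ hW.vac_mem (fun v hv w hw => W.add_mem hv hw) (fun r v hv => W.smul_mem r hv) ?_
    have hz0 : ∀ (x : G2 K) (n : ℤ) (v : Vac (kappa K) (-4)), v ∈ W →
        xmode (kappa K) x n • xmode (kappa K) x n • v +
          (-1 : K) • xmode (kappa K) (sq x) (n * (2 : ℕ)) • v ∈ W := by
      intro x n v hv
      have h1 : (xmode (kappa K) x n ^ 2 - xmode (kappa K) (sq x) (n * (2 : ℕ))) •
          vac (kappa K) (-4) ∈ W :=
        hp ⟨_, Algebra.subset_adjoin ⟨x, n, rfl⟩, rfl⟩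
      have h2 := hW.mul_mem _ _ h1 hv
      rw [sub_smul, pow_two, mul_smul, sub_eq_add_neg] at h2
      rw [neg_one_smul]
      exact h2
    intro x n v hv
    exact hz0 x n v hv

end CritCentre
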